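import Mathlib

/-!
Rational modules over the algebraic supergroup `GL(m|n)` over `ℂ`, their homological support,
the subgroups `S_k ≅ SL(1|1)^k` of the Sylow subgroup, induction from `S_k` and relative
projectivity.
-/

namespace Pool.Agent.H39.RP

open Matrix

/-- The index set of the standard basis of `ℂ^{m|n}`: `Fin m` is even, `Fin n` is odd. -/
abbrev Ix (m n : ℕ) := Fin m ⊕ Fin n

/-- The underlying vector space of the Lie superalgebra `gl(m|n)`. -/
abbrev gl (m n : ℕ) := Matrix (Ix m n) (Ix m n) ℂ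

/-- Even elements of `gl(m|n)`: block diagonal matrices. -/
def IsEven {m n : ℕ} (A : gl m n) : Prop := A.toBlocks₁₂ = 0 ∧ A.toBlocks₂₁ = 0

/-- Odd elements of `gl(m|n)`: block antidiagonal matrices. -/
def IsOdd {m n : ℕ} (A : gl m n) : Prop := A.toBlocks₁₁ = 0 ∧ A.toBlocks₂₂ = 0

/-- A rational (possibly infinite-dimensional) `GL(m|n)`-module structure on the complex vector
space `M`: a `ℤ/2`-grading, given by its parity involution `par` (`+1` on the even part, `-1` on
the odd part), and an action `act` of the Lie superalgebra `gl(m|n)`, compatible with the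
parities and with the super bracket (`AB - BA` if one of the homogeneous elements `A`, `B` is
even, `AB + BA` if both are odd), such that every vector lies in a finite-dimensional subspace
which is stable under `gl(m|n)` and spanned by vectors of integral weight for the diagonal
matrices. (Integrality of the weights on finite-dimensional submodules is what makes the action
of `gl_m × gl_n` integrate to a rational action of `GL_m × GL_n`.) -/
structure SMod (m n : ℕ) (M : Type) [AddCommGroup M] [Module ℂ M] where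
  /-- the parity involution -/
  par : M →ₗ[ℂ] M
  /-- the action of `gl(m|n)` -/
  act : gl m n →ₗ[ℂ] (M →ₗ[ℂ] M)
  par_par : ∀ v, par (par v) = v
  par_even : ∀ A, IsEven A → ∀ v, par (act A v) = act A (par v)
  par_odd : ∀ A, IsOdd A → ∀ v, par (act A v) = -act A (par v)
  brac_even : ∀ A B, IsEven A → (IsEven B ∨ IsOdd B) → ∀ v,
    act (A * B - B * A) v = act A (act B v) - act B (act A v)
  brac_odd : ∀ A B, IsOdd A → IsOdd B → ∀ v,
    act (A * B + B * A) v = act A (act B v) + act B (act A v)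
  rational : ∀ v, ∃ F : Submodule ℂ M, FiniteDimensional ℂ F ∧ v ∈ F ∧
    (∀ A, ∀ u ∈ F, act A u ∈ F) ∧
    F ≤ Submodule.span ℂ {u | u ∈ F ∧ ∃ w : Ix m n → ℤ,
      ∀ i, act (Matrix.single i i 1) u = (w i : ℂ) • u}

section

variable {m n : ℕ} {M N : Type} [AddCommGroup M] [Module ℂ M] [AddCommGroup N] [Module ℂ N]

/-- Homomorphisms of `GL(m|n)`-modules (even linear maps commuting with `gl(m|n)`). -/
def IsGMap (ρ : SMod m n M) (σ : SMod m n N) (f : M →ₗ[ℂ] N) : Prop :=
  (∀ v, f (ρ.par v) = σ.par (f v)) ∧ ∀ A v, f (ρ.act A v) = σ.act A (f v)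

/-- The root vector of the isotropic root `α_{i+1} = ε_{i+1} - δ_{i+1}`, for `i < min m n`
(indices counted from `0`). -/
def rootUp (m n i : ℕ) : gl m n := Matrix.of fun p q =>
  match p, q with
  | Sum.inl a, Sum.inr b => if a.val = i ∧ b.val = i then 1 else 0
  | _, _ => 0

/-- The root vector of `-α_{i+1}`. -/
def rootDown (m n i : ℕ) : gl m n := Matrix.of fun p q =>
  match p, q with
  | Sum.inr a, Sum.inl b => if a.val = i ∧ b.val = i then 1 else 0
  | _, _ => 0

/-- Homomorphisms between the restrictions to `S_k ≅ SL(1|1)^k` of two `GL(m|n)`-modules: even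
linear maps commuting with the root vectors of `±α_1, …, ±α_k`, which generate the Lie
superalgebra `s_k` of the connected group `S_k`. -/
def IsSMap (k : ℕ) (ρ : SMod m n M) (σ : SMod m n N) (f : M →ₗ[ℂ] N) : Prop :=
  (∀ v, f (ρ.par v) = σ.par (f v)) ∧
  ∀ i < k, (∀ v, f (ρ.act (rootUp m n i) v) = σ.act (rootUp m n i) (f v)) ∧
    ∀ v, f (ρ.act (rootDown m n i) v) = σ.act (rootDown m n i) (f v)

/-- Homological elements: odd `z` such that `[z,z] = 2z²` is semisimple (diagonalizable). -/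
def Homological (z : gl m n) : Prop :=
  IsOdd z ∧ ∃ P : gl m n, IsUnit P ∧ ∃ d : Ix m n → ℂ, (z * z + z * z) * P = P * diagonal d

/-- `DS_z M = 0`: on the kernel of `[z,z]`, the kernel of `z` is contained in the image
of `z`. -/
def DSVanish (ρ : SMod m n M) (z : gl m n) : Prop :=
  ∀ v, ρ.act (z * z + z * z) v = 0 → ρ.act z v = 0 →
    ∃ u, ρ.act (z * z + z * z) u = 0 ∧ ρ.act z u = v

/-- Odd elements of the Lie superalgebra `s_k`: linear combinations of the root vectors
of `±α_1, …, ±α_k`. -/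
def OddS (k : ℕ) (s : gl m n) : Prop :=
  ∃ a b : ℕ → ℂ, s = ∑ i ∈ Finset.range k, (a i • rootUp m n i + b i • rootDown m n i)

/-- The class of `z` modulo `G_0 × 𝔾_m` (conjugation by `GL_m × GL_n` and scaling) is the class
of an odd element of `s_k`, i.e. belongs to `𝕐_G^k`. -/
def InY (k : ℕ) (z : gl m n) : Prop :=
  ∃ t : ℂ, t ≠ 0 ∧ ∃ (g : Matrix (Fin m) (Fin m) ℂ) (h : Matrix (Fin n) (Fin n) ℂ),
    IsUnit g ∧ IsUnit h ∧ ∃ s : gl m n, OddS k s ∧
      (t • z) * fromBlocks g 0 0 h = fromBlocks g 0 0 h * s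

/-- `M` belongs to the ideal `𝓘_k`: `Supp M ⊆ 𝕐_G^k`. -/
def InIdeal (k : ℕ) (ρ : SMod m n M) : Prop :=
  ∀ z, Homological z → ¬ DSVanish ρ z → InY k z

/-- `(I, ε)` is the induced module `Ind_{S_k}^G Res_{S_k} M` together with its counit
`ε : I → M`: the universal rational `GL(m|n)`-module with an `S_k`-map to `M` (Frobenius
reciprocity). -/
def IsInduced (k : ℕ) (ρ : SMod m n M) (I : Type) [AddCommGroup I] [Module ℂ I]
    (σ : SMod m n I) (ε : I →ₗ[ℂ] M) : Prop :=
  IsSMap k σ ρ ε ∧
  ∀ (X : Type) [AddCommGroup X] [Module ℂ X] (τ : SMod m n X) (f : X →ₗ[ℂ] M),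
    IsSMap k τ ρ f → ∃! F : X →ₗ[ℂ] I, IsGMap τ σ F ∧ ε ∘ₗ F = f

/-- `M` is `S_k`-projective: a direct summand of `Ind_{S_k}^G Res_{S_k} M`. -/
def RelProj (k : ℕ) (ρ : SMod m n M) : Prop :=
  ∃ (I : Type) (_ : AddCommGroup I) (_ : Module ℂ I) (σ : SMod m n I) (ε : I →ₗ[ℂ] M),
    IsInduced k ρ I σ ε ∧
    ∃ (i : M →ₗ[ℂ] I) (r : I →ₗ[ℂ] M), IsGMap ρ σ i ∧ IsGMap σ ρ r ∧ ∀ v, r (i v) = v

end

end Pool.Agent.H39.RP
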