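import Pool.Agent.H39.RP.NonSplit

/-! `K ⊗ N` is not `S_1`-projective. -/

namespace Pool.Agent.H39.RP

open Matrix TensorProduct

section
variable {m n k : ℕ} {M N P : Type} [AddCommGroup M] [Module ℂ M] [AddCommGroup N] [Module ℂ N]
  [AddCommGroup P] [Module ℂ P]

theorem IsGMap.comp {ρ : SMod m n M} {σ : SMod m n N} {τ : SMod m n P} {f : M →ₗ[ℂ] N}
    {g : N →ₗ[ℂ] P} (hf : IsGMap ρ σ f) (hg : IsGMap σ τ g) : IsGMap ρ τ (g ∘ₗ f) :=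
  ⟨fun v => by rw [LinearMap.comp_apply, hf.1, hg.1]; rfl,
   fun A v => by rw [LinearMap.comp_apply, hf.2, hg.2]; rfl⟩

theorem IsGMap.isSMap {ρ : SMod m n M} {σ : SMod m n N} {f : M →ₗ[ℂ] N}
    (hf : IsGMap ρ σ f) (k : ℕ) : IsSMap k ρ σ f :=
  ⟨hf.1, fun _ _ => ⟨fun v => hf.2 _ v, fun v => hf.2 _ v⟩⟩

theorem IsSMap.comp {ρ : SMod m n M} {σ : SMod m n N} {τ : SMod m n P} {f : M →ₗ[ℂ] N}
    {g : N →ₗ[ℂ] P} (hf : IsSMap k ρ σ f) (hg : IsSMap k σ τ g) : IsSMap k ρ τ (g ∘ₗ f) :=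
  ⟨fun v => by rw [LinearMap.comp_apply, hf.1, hg.1]; rfl,
   fun i hi => ⟨fun v => by rw [LinearMap.comp_apply, (hf.2 i hi).1, (hg.2 i hi).1]; rfl,
    fun v => by rw [LinearMap.comp_apply, (hf.2 i hi).2, (hg.2 i hi).2]; rfl⟩⟩

/-- An `S_k`-projective module is a relatively injective one: a homomorphism `η : M → T` of
`GL(m|n)`-modules with an `S_k`-retraction has a `GL(m|n)`-retraction. -/
theorem RelProj.retraction {ρ : SMod m n M} (h : RelProj k ρ) {T : Type} [AddCommGroup T]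
    [Module ℂ T] (τ : SMod m n T) (η : M →ₗ[ℂ] T) (hη : IsGMap ρ τ η) (s : T →ₗ[ℂ] M)
    (hs : IsSMap k τ ρ s) (hsη : ∀ v, s (η v) = v) :
    ∃ R : T →ₗ[ℂ] M, IsGMap τ ρ R ∧ ∀ v, R (η v) = v := by
  obtain ⟨I, _, _, σ, ε, ⟨hε, huniv⟩, i, r, hi, hr, hri⟩ := h
  obtain ⟨F, ⟨hF, hFε⟩, -⟩ := huniv T τ ((ε ∘ₗ i) ∘ₗ s) (hs.comp ((hi.isSMap k).comp hε))
  obtain ⟨G, -, hG⟩ := huniv M ρ (ε ∘ₗ i) ((hi.isSMap k).comp hε)
  have h1 : F ∘ₗ η = G := by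
    refine hG _ ⟨hη.comp hF, LinearMap.ext fun v => ?_⟩
    have := LinearMap.congr_fun hFε (η v)
    simp only [LinearMap.comp_apply, hsη] at this ⊢
    exact this
  have h2 : i = G := hG _ ⟨hi, rfl⟩
  refine ⟨r ∘ₗ F, hF.comp hr, fun v => ?_⟩
  have h3 : F (η v) = i v := by
    rw [h2, ← h1]; rfl
  rw [LinearMap.comp_apply, h3, hri]

end

/-- The module `M` is not `S_1`-projective. -/
theorem not_relProj : ¬ RelProj 1 modM := by
  intro h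
  obtain ⟨R, hR, h1⟩ := h.retraction modT etaM etaM_isGMap coefM coefM_isSMap coefM_etaM
  exact no_retraction R hR h1

end Pool.Agent.H39.RP
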