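import Pool.Agent.H39.RP.Support

/-! `K ⊗ N` belongs to `𝓘_1`. -/

set_option linter.unusedSimpArgs false
set_option linter.unusedVariables false

namespace Pool.Agent.H39.RP

open Matrix TensorProduct

theorem ring_core {R : Type} [Ring R] (f i p : R) (u : Rˣ) (hu : (u : R) = f * i + i * f)
    (hcomm : f * f * i = i * (f * f)) (hpf : p * f = -(f * p)) (hpi : p * i = -(i * p)) :
    f * (i * ↑u⁻¹) + i * ↑u⁻¹ * f = 1 ∧ p * (i * ↑u⁻¹) = -(i * ↑u⁻¹ * p) := by
  have hfu : f * (u : R) = u * f := by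
    rw [hu]
    calc f * (f * i + i * f) = f * f * i + f * i * f := by noncomm_ring
      _ = i * (f * f) + f * i * f := by rw [hcomm]
      _ = (f * i + i * f) * f := by noncomm_ring
  have hpu : p * (u : R) = u * p := by
    rw [hu]
    calc p * (f * i + i * f) = (p * f) * i + (p * i) * f := by noncomm_ring
      _ = (-(f * p)) * i + (-(i * p)) * f := by rw [hpf, hpi]
      _ = -(f * (p * i)) + -(i * (p * f)) := by noncomm_ring
      _ = -(f * (-(i * p))) + -(i * (-(f * p))) := by rw [hpf, hpi]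
      _ = (f * i + i * f) * p := by noncomm_ring
  have hfui : f * (↑u⁻¹ : R) = ↑u⁻¹ * f := by
    have : SemiconjBy f (u : R) u := hfu
    exact (this.units_inv_right).eq
  have hpui : p * (↑u⁻¹ : R) = ↑u⁻¹ * p := by
    have : SemiconjBy p (u : R) u := hpu
    exact (this.units_inv_right).eq
  constructor
  · calc f * (i * ↑u⁻¹) + i * ↑u⁻¹ * f = f * i * ↑u⁻¹ + i * (↑u⁻¹ * f) := by noncomm_ring
      _ = f * i * ↑u⁻¹ + i * (f * ↑u⁻¹) := by rw [hfui]
      _ = (f * i + i * f) * ↑u⁻¹ := by noncomm_ring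
      _ = 1 := by rw [← hu, Units.mul_inv]
  · rw [← mul_assoc, hpi, neg_mul, mul_assoc, hpui, mul_assoc]

theorem homotopy_core {V : Type} [AddCommGroup V] [Module ℂ V] (f i p ν : V →ₗ[ℂ] V)
    (hanti : ∀ Z, f (i Z) + i (f Z) = Z + ν Z) (hnil : ∀ Z, ν (ν (ν Z)) = 0)
    (hcomm : ∀ Z, f (f (i Z)) = i (f (f Z))) (hpf : ∀ Z, p (f Z) = -f (p Z))
    (hpi : ∀ Z, p (i Z) = -i (p Z)) :
    ∃ s : V →ₗ[ℂ] V, (∀ Z, f (s Z) + s (f Z) = Z) ∧ ∀ Z, p (s Z) = -s (p Z) := by
  have hν : IsNilpotent (ν : Module.End ℂ V) := by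
    refine ⟨3, LinearMap.ext fun Z => ?_⟩
    rw [pow_succ, pow_succ, pow_one]
    exact hnil Z
  obtain ⟨u, hu⟩ := hν.isUnit_one_add
  have hu' : (u : Module.End ℂ V) = f * i + i * f := by
    rw [hu]
    exact LinearMap.ext fun Z => (hanti Z).symm
  obtain ⟨h1, h2⟩ := ring_core (R := Module.End ℂ V) f i p u hu'
    (LinearMap.ext fun Z => hcomm Z) (LinearMap.ext fun Z => hpf Z) (LinearMap.ext fun Z => hpi Z)
  exact ⟨i * ↑u⁻¹, fun Z => LinearMap.congr_fun h1 Z, fun Z => LinearMap.congr_fun h2 Z⟩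

theorem fI_zero (Z : Q) : fI 0 Z = 0 := by
  apply Q_ext <;> simp [fI, tl, pol, trc, ad]

/-- The homotopy on `K`, given a suitable `w`. -/
theorem exists_homotopy_K (x y w : M2) (hw : x * y * w = w * (y * x)) (ht : trc (w * y) = 1) :
    ∃ s : Q →ₗ[ℂ] Q,
      (∀ Z, modK.act (fromBlocks 0 x y 0) (s Z) + s (modK.act (fromBlocks 0 x y 0) Z) = Z) ∧
      ∀ Z, modK.par (s Z) = -s (modK.par Z) := by
  have hfa : ∀ Z, modK.act (fromBlocks 0 x y 0) Z = fK 0 x y 0 Z := fun Z => by
    change actK _ Z = _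
    rw [actK_apply]; simp
  refine homotopy_core (modK.act (fromBlocks 0 x y 0)) (iL w) modK.par (vL x w) ?_ ?_ ?_ ?_ ?_
  · intro Z
    rw [hfa, hfa, iL_apply, iL_apply, fI_anti, ht, one_smul]; rfl
  · intro Z
    exact fV_nil x w Z
  · intro Z
    rw [hfa, hfa, hfa, hfa, iL_apply, iL_apply, fK_sq, fK_sq]
    have h := fI_comm (x * y) (y * x) w Z
    rw [hw, sub_self, fI_zero] at h
    exact sub_eq_zero.1 h
  · intro Z
    exact modK.par_odd (fromBlocks 0 x y 0) (by simp [IsOdd]) Z
  · intro Z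
    exact fI_par w Z

theorem det_mul_smul_ad (y : M2) : y * ad y = (y 0 0 * y 1 1 - y 0 1 * y 1 0) • (1 : M2) := by
  ext i j
  fin_cases i <;> fin_cases j <;>
    simp [ad, Matrix.mul_apply, Fin.sum_univ_two, Matrix.one_apply] <;> ring

theorem ad_mul_self (y : M2) : ad y * y = (y 0 0 * y 1 1 - y 0 1 * y 1 0) • (1 : M2) := by
  ext i j
  fin_cases i <;> fin_cases j <;>
    simp [ad, Matrix.mul_apply, Fin.sum_univ_two, Matrix.one_apply] <;> ring

/-- A homological element whose square is nilpotent squares to zero. -/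
theorem sq_zero_of_nilpotent {z : gl 2 2} (hz : Homological z) (h : (z * z) * (z * z) = 0) :
    z * z = 0 := by
  obtain ⟨-, P, hP, d, hd⟩ := hz
  have h1 : (z * z + z * z) * (z * z + z * z) = 0 := by
    have : (z * z + z * z) * (z * z + z * z) = (4 : ℂ) • ((z * z) * (z * z)) := by
      rw [← two_smul ℂ (z * z), smul_mul_smul_comm]; norm_num
    rw [this, h, smul_zero]
  have h2 : P * (diagonal d * diagonal d) = 0 := by
    rw [← Matrix.mul_assoc, ← hd, Matrix.mul_assoc, ← hd, ← Matrix.mul_assoc, h1, Matrix.zero_mul]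
  have h3 : diagonal d * diagonal d = (0 : gl 2 2) := by
    obtain ⟨U, rfl⟩ := hP
    have := congrArg (fun X => (↑U⁻¹ : gl 2 2) * X) h2
    simpa [← Matrix.mul_assoc] using this
  have h4 : d = 0 := by
    funext i
    have := congrFun (congrFun h3 i) i
    rw [diagonal_mul_diagonal, diagonal_apply_eq] at this
    simpa using this
  have h5 : (z * z + z * z) * P = 0 := by rw [hd, h4]; simp
  have h6 : z * z + z * z = 0 := by
    obtain ⟨U, rfl⟩ := hP
    have := congrArg (fun X => X * (↑U⁻¹ : gl 2 2)) h5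
    simpa [Matrix.mul_assoc] using this
  have h7 : (2 : ℂ) • (z * z) = 0 := by rw [two_smul]; exact h6
  simpa using h7

/-- Existence of a `z²`-invariant functional which is `1` on `y`. -/
theorem exists_w (x y : M2) (hz : Homological (fromBlocks 0 x y 0 : gl 2 2)) (hy : y ≠ 0) :
    ∃ w : M2, x * y * w = w * (y * x) ∧ trc (w * y) = 1 := by
  by_cases hd : y 0 0 * y 1 1 - y 0 1 * y 1 0 = 0
  · by_cases ht : trc (x * y) = 0
    · have hsq : (fromBlocks 0 x y 0 * fromBlocks 0 x y 0 : gl 2 2)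
          = fromBlocks (x * y) 0 0 (y * x) := by
        rw [fromBlocks_multiply]; simp
      have e1 : (x * y) * (x * y) = 0 := by
        have : (x * y) * (x * y) = (trc (x * y)) • (x * y)
            - ((x 0 0 * x 1 1 - x 0 1 * x 1 0) * (y 0 0 * y 1 1 - y 0 1 * y 1 0)) • (1 : M2) := by
          ext i j
          fin_cases i <;> fin_cases j <;>
            simp [trc, Matrix.mul_apply, Fin.sum_univ_two, Matrix.one_apply] <;> ring
        rw [this, ht, hd]; simp
      have e2 : (y * x) * (y * x) = 0 := by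
        have : (y * x) * (y * x) = (trc (x * y)) • (y * x)
            - ((x 0 0 * x 1 1 - x 0 1 * x 1 0) * (y 0 0 * y 1 1 - y 0 1 * y 1 0)) • (1 : M2) := by
          ext i j
          fin_cases i <;> fin_cases j <;>
            simp [trc, Matrix.mul_apply, Fin.sum_univ_two, Matrix.one_apply] <;> ring
        rw [this, ht, hd]; simp
      have h0 := sq_zero_of_nilpotent hz (by
        rw [hsq, fromBlocks_multiply]; simp [e1, e2])
      rw [hsq] at h0
      have hxy : x * y = 0 := by
        have := congrArg toBlocks₁₁ h0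
        rw [toBlocks_fromBlocks₁₁] at this
        rw [this]; rfl
      have hyx : y * x = 0 := by
        have := congrArg toBlocks₂₂ h0
        rw [toBlocks_fromBlocks₂₂] at this
        rw [this]; rfl
      have hex : ∃ i j, y i j ≠ 0 := by
        by_contra hc
        push Not at hc
        exact hy (Matrix.ext hc)
      obtain ⟨i, j, hij⟩ := hex
      refine ⟨Matrix.single j i (y i j)⁻¹, by rw [hxy, hyx]; simp, ?_⟩
      fin_cases i <;> fin_cases j <;>
        simp [trc, Matrix.mul_apply, Fin.sum_univ_two, Matrix.single_apply] at hij ⊢ <;>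
        exact inv_mul_cancel₀ hij
    · refine ⟨(trc (x * y))⁻¹ • x, ?_, ?_⟩
      · rw [Matrix.mul_smul, Matrix.smul_mul, Matrix.mul_assoc]
      · rw [Matrix.smul_mul]
        have : trc ((trc (x * y))⁻¹ • (x * y)) = (trc (x * y))⁻¹ * trc (x * y) := by
          simp [trc]; ring
        rw [this, inv_mul_cancel₀ ht]
  · refine ⟨(2 * (y 0 0 * y 1 1 - y 0 1 * y 1 0))⁻¹ • ad y, ?_, ?_⟩
    · rw [Matrix.mul_smul, Matrix.smul_mul, Matrix.mul_assoc, det_mul_smul_ad,
        ← Matrix.mul_assoc, ad_mul_self]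
      simp
    · rw [Matrix.smul_mul, ad_mul_self]
      simp only [trc, Matrix.smul_apply, smul_eq_mul, one_00, one_11, mul_one]
      field_simp
      ring

theorem rootUp_22 : rootUp 2 2 0 = fromBlocks 0 e00 0 0 := by
  ext a b
  rcases a with a | a <;> rcases b with b | b <;> fin_cases a <;> fin_cases b <;>
    simp [rootUp, e00]

theorem inY_of (x g h : M2) (hg : IsUnit g) (hh : IsUnit h) (a : ℂ)
    (H : x * h = g * (a • e00)) : InY 1 (fromBlocks 0 x 0 0 : gl 2 2) := by
  refine ⟨1, one_ne_zero, g, h, hg, hh, a • rootUp 2 2 0, ⟨fun _ => a, fun _ => 0, by simp⟩, ?_⟩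
  rw [one_smul, rootUp_22, fromBlocks_smul, fromBlocks_multiply, fromBlocks_multiply]
  simp only [Matrix.zero_mul, Matrix.mul_zero, zero_add, add_zero, smul_zero, H]

theorem isUnit_M2 (g : M2) (h : g 0 0 * g 1 1 - g 0 1 * g 1 0 ≠ 0) : IsUnit g := by
  rw [Matrix.isUnit_iff_isUnit_det, Matrix.det_fin_two]
  exact isUnit_iff_ne_zero.2 h

theorem inY_of_det_zero (x : M2) (hd : x 0 0 * x 1 1 - x 0 1 * x 1 0 = 0) :
    InY 1 (fromBlocks 0 x 0 0 : gl 2 2) := by
  by_cases h00 : x 0 0 = 0
  · by_cases h01 : x 0 1 = 0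
    · by_cases h10 : x 1 0 = 0
      · by_cases h11 : x 1 1 = 0
        · have hx : x = 0 := by
            ext i j; fin_cases i <;> fin_cases j <;> assumption
          refine inY_of x 1 1 isUnit_one isUnit_one 0 ?_
          rw [hx]; simp
        · refine inY_of x !![x 0 1, 1; x 1 1, 0] !![0, -x 1 1; 1, x 1 0]
            (isUnit_M2 _ (by simpa using h11)) (isUnit_M2 _ (by simpa using h11)) 1 ?_
          ext i j; fin_cases i <;> fin_cases j <;>
            simp [e00, Matrix.mul_apply, Fin.sum_univ_two]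
          · linear_combination -hd
          · ring
      · refine inY_of x !![x 0 0, 1; x 1 0, 0] !![1, -x 1 1; 0, x 1 0]
            (isUnit_M2 _ (by simpa using h10)) (isUnit_M2 _ (by simpa using h10)) 1 ?_
        ext i j; fin_cases i <;> fin_cases j <;>
            simp [e00, Matrix.mul_apply, Fin.sum_univ_two]
        · linear_combination -hd
        · ring
    · refine inY_of x !![x 0 1, 0; x 1 1, 1] !![0, -x 0 1; 1, x 0 0]
            (isUnit_M2 _ (by simpa using h01)) (isUnit_M2 _ (by simpa using h01)) 1 ?_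
      ext i j; fin_cases i <;> fin_cases j <;>
            simp [e00, Matrix.mul_apply, Fin.sum_univ_two]
      · ring
      · linear_combination hd
  · refine inY_of x !![x 0 0, 0; x 1 0, 1] !![1, -x 0 1; 0, x 0 0]
            (isUnit_M2 _ (by simpa using h00)) (isUnit_M2 _ (by simpa using h00)) 1 ?_
    ext i j; fin_cases i <;> fin_cases j <;>
            simp [e00, Matrix.mul_apply, Fin.sum_univ_two]
    · ring
    · linear_combination hd

/-- The counterexample `M = K ⊗ N`. -/
noncomputable def modM : SMod 2 2 (Q ⊗[ℂ] Q) := tensor modK modN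

theorem modM_inIdeal : InIdeal 1 modM := by
  intro z hz hds
  obtain ⟨x, y, rfl⟩ := odd_form hz.1
  by_cases hy : y = 0
  · subst hy
    refine inY_of_det_zero x ?_
    by_contra hd
    apply hds
    refine homotopy_right modK modN hz.1
      (sL x (x 0 0 * x 1 1 - x 0 1 * x 1 0)⁻¹) fun Z => ?_
    have h := fS_anti x (x 0 0 * x 1 1 - x 0 1 * x 1 0)⁻¹ Z
    rw [inv_mul_cancel₀ hd, one_smul] at h
    change actN _ _ + sL _ _ (actN _ _) = Z
    rw [actN_apply, actN_apply, sL_apply, sL_apply]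
    simpa using h
  · exfalso
    apply hds
    obtain ⟨w, hw, ht⟩ := exists_w x y hz hy
    obtain ⟨s, hs, hsp⟩ := exists_homotopy_K x y w hw ht
    exact homotopy_left modK modN hz.1 s hs hsp

end Pool.Agent.H39.RP
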