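import Pool.Agent.H39.RP.Final

/-! Existence of the induced modules `Ind_{S_k}^G Res_{S_k} M`. -/

namespace Pool.Agent.H39.RP

open Matrix

section
variable (m n : ℕ)

/-- free algebra on `gl(m|n)` and a parity element (`none`) -/
abbrev Fr := FreeAlgebra ℂ (Option (gl m n))

/-- the generator attached to a matrix -/
abbrev ga (A : gl m n) : Fr m n := FreeAlgebra.ι ℂ (some A)

/-- the parity generator -/
abbrev gp : Fr m n := FreeAlgebra.ι ℂ none

/-- the defining relations of `U(gl(m|n)) ⋊ ℤ/2` -/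
inductive Rel : Fr m n → Fr m n → Prop
  | add (A B : gl m n) : Rel (ga m n (A + B)) (ga m n A + ga m n B)
  | smul (c : ℂ) (A : gl m n) : Rel (ga m n (c • A)) (c • ga m n A)
  | pp : Rel (gp m n * gp m n) 1
  | pe (A : gl m n) (h : IsEven A) : Rel (gp m n * ga m n A) (ga m n A * gp m n)
  | po (A : gl m n) (h : IsOdd A) : Rel (gp m n * ga m n A) (-(ga m n A * gp m n))
  | be (A B : gl m n) (hA : IsEven A) (hB : IsEven B ∨ IsOdd B) :
      Rel (ga m n (A * B - B * A)) (ga m n A * ga m n B - ga m n B * ga m n A)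
  | bo (A B : gl m n) (hA : IsOdd A) (hB : IsOdd B) :
      Rel (ga m n (A * B + B * A)) (ga m n A * ga m n B + ga m n B * ga m n A)

/-- `U(gl(m|n)) ⋊ ℤ/2` -/
abbrev UU := RingQuot (Rel m n)

/-- quotient map -/
noncomputable abbrev mk : Fr m n →ₐ[ℂ] UU m n := RingQuot.mkAlgHom ℂ (Rel m n)

/-- matrices in `U` -/
noncomputable def ua : gl m n →ₗ[ℂ] UU m n where
  toFun A := mk m n (ga m n A)
  map_add' A B := by
    rw [RingQuot.mkAlgHom_rel ℂ (Rel.add A B), map_add]
  map_smul' c A := by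
    rw [RingQuot.mkAlgHom_rel ℂ (Rel.smul c A), map_smul]; rfl

/-- parity in `U` -/
noncomputable def up : UU m n := mk m n (gp m n)

variable {m n}

theorem up_up : up m n * up m n = 1 := by
  rw [up, ← map_mul, RingQuot.mkAlgHom_rel ℂ (Rel.pp), map_one]

theorem up_even {A : gl m n} (h : IsEven A) : up m n * ua m n A = ua m n A * up m n := by
  change mk m n _ * mk m n _ = mk m n _ * mk m n _
  rw [← map_mul, RingQuot.mkAlgHom_rel ℂ (Rel.pe A h), map_mul]

theorem up_odd {A : gl m n} (h : IsOdd A) : up m n * ua m n A = -(ua m n A * up m n) := by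
  change mk m n _ * mk m n _ = -(mk m n _ * mk m n _)
  rw [← map_mul, RingQuot.mkAlgHom_rel ℂ (Rel.po A h), map_neg, map_mul]

theorem ua_be {A B : gl m n} (hA : IsEven A) (hB : IsEven B ∨ IsOdd B) :
    ua m n (A * B - B * A) = ua m n A * ua m n B - ua m n B * ua m n A := by
  change mk m n _ = mk m n _ * mk m n _ - mk m n _ * mk m n _
  rw [RingQuot.mkAlgHom_rel ℂ (Rel.be A B hA hB), map_sub, map_mul, map_mul]

theorem ua_bo {A B : gl m n} (hA : IsOdd A) (hB : IsOdd B) :
    ua m n (A * B + B * A) = ua m n A * ua m n B + ua m n B * ua m n A := by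
  change mk m n _ = mk m n _ * mk m n _ + mk m n _ * mk m n _
  rw [RingQuot.mkAlgHom_rel ℂ (Rel.bo A B hA hB), map_add, map_mul, map_mul]

variable {M : Type} [AddCommGroup M] [Module ℂ M]

/-- the action of the free algebra on a module -/
noncomputable def frAct (ρ : SMod m n M) : Fr m n →ₐ[ℂ] Module.End ℂ M :=
  FreeAlgebra.lift ℂ fun o => match o with
    | some A => ρ.act A
    | none => ρ.par

theorem frAct_ga (ρ : SMod m n M) (A : gl m n) : frAct ρ (ga m n A) = ρ.act A := by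
  simp [frAct]

theorem frAct_gp (ρ : SMod m n M) : frAct ρ (gp m n) = ρ.par := by
  simp [frAct]

theorem frAct_rel (ρ : SMod m n M) ⦃a b : Fr m n⦄ (h : Rel m n a b) :
    frAct ρ a = frAct ρ b := by
  refine LinearMap.ext fun v => ?_
  cases h with
  | add A B => simp [frAct]
  | smul c A => simp [frAct]
  | pp => simp [frAct, ρ.par_par]
  | pe A h => simp [frAct, ρ.par_even A h]
  | po A h => simp [frAct, ρ.par_odd A h]
  | be A B hA hB =>
    have e : frAct ρ (ga m n A * ga m n B - ga m n B * ga m n A)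
        = ρ.act A * ρ.act B - ρ.act B * ρ.act A := by
      rw [map_sub, map_mul, map_mul, frAct_ga, frAct_ga]
    rw [frAct_ga, e]
    exact ρ.brac_even A B hA hB v
  | bo A B hA hB =>
    have e : frAct ρ (ga m n A * ga m n B + ga m n B * ga m n A)
        = ρ.act A * ρ.act B + ρ.act B * ρ.act A := by
      rw [map_add, map_mul, map_mul, frAct_ga, frAct_ga]
    rw [frAct_ga, e]
    exact ρ.brac_odd A B hA hB v

/-- the action of `U` on a module -/
noncomputable def uAct (ρ : SMod m n M) : UU m n →ₐ[ℂ] Module.End ℂ M :=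
  RingQuot.liftAlgHom ℂ ⟨frAct ρ, frAct_rel ρ⟩

theorem uAct_mk (ρ : SMod m n M) (w : Fr m n) : uAct ρ (mk m n w) = frAct ρ w := by
  simp [uAct]

theorem uAct_ua (ρ : SMod m n M) (A : gl m n) : uAct ρ (ua m n A) = ρ.act A := by
  rw [← frAct_ga ρ A, ← uAct_mk]; rfl

theorem uAct_up (ρ : SMod m n M) : uAct ρ (up m n) = ρ.par := by
  rw [← frAct_gp ρ, ← uAct_mk]; rfl

/-- The big space of linear maps `U → M`. -/
abbrev Big (m n : ℕ) (M : Type) [AddCommGroup M] [Module ℂ M] := UU m n →ₗ[ℂ] M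

/-- right translation by `u` -/
noncomputable def rt (u : UU m n) : Big m n M →ₗ[ℂ] Big m n M where
  toFun φ := φ ∘ₗ LinearMap.mulRight ℂ u
  map_add' _ _ := rfl
  map_smul' _ _ := rfl

theorem rt_apply (u v : UU m n) (φ : Big m n M) : rt u φ v = φ (v * u) := rfl

theorem rt_mul (u v : UU m n) (φ : Big m n M) : rt (u * v) φ = rt u (rt v φ) := by
  refine LinearMap.ext fun w => ?_
  rw [rt_apply, rt_apply, rt_apply, mul_assoc]

theorem rt_add (u v : UU m n) (φ : Big m n M) : rt (u + v) φ = rt u φ + rt v φ := by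
  refine LinearMap.ext fun w => ?_
  rw [LinearMap.add_apply, rt_apply, rt_apply, rt_apply, mul_add, map_add]

theorem rt_sub (u v : UU m n) (φ : Big m n M) : rt (u - v) φ = rt u φ - rt v φ := by
  refine LinearMap.ext fun w => ?_
  rw [LinearMap.sub_apply, rt_apply, rt_apply, rt_apply, mul_sub, map_sub]

theorem rt_neg (u : UU m n) (φ : Big m n M) : rt (-u) φ = -rt u φ := by
  refine LinearMap.ext fun w => ?_
  have h : w * -u = -(w * u) := mul_neg w u
  rw [LinearMap.neg_apply, rt_apply, rt_apply, h, map_neg]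

theorem rt_smul (c : ℂ) (u : UU m n) (φ : Big m n M) : rt (c • u) φ = c • rt u φ := by
  refine LinearMap.ext fun w => ?_
  rw [LinearMap.smul_apply, rt_apply, rt_apply, mul_smul_comm, map_smul]

theorem rt_one (φ : Big m n M) : rt 1 φ = φ := by
  refine LinearMap.ext fun w => ?_
  rw [rt_apply, mul_one]

/-- the equivariant maps -/
def Coind (k : ℕ) (ρ : SMod m n M) : Submodule ℂ (Big m n M) where
  carrier := {φ | (∀ u, φ (up m n * u) = ρ.par (φ u)) ∧
    ∀ i < k, (∀ u, φ (ua m n (rootUp m n i) * u) = ρ.act (rootUp m n i) (φ u)) ∧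
      ∀ u, φ (ua m n (rootDown m n i) * u) = ρ.act (rootDown m n i) (φ u)}
  add_mem' := by
    rintro φ ψ ⟨h1, h2⟩ ⟨h3, h4⟩
    exact ⟨fun u => by simp [h1, h3], fun i hi => ⟨fun u => by simp [(h2 i hi).1, (h4 i hi).1],
      fun u => by simp [(h2 i hi).2, (h4 i hi).2]⟩⟩
  zero_mem' := ⟨fun u => by simp, fun i _ => ⟨fun u => by simp, fun u => by simp⟩⟩
  smul_mem' := by
    rintro c φ ⟨h1, h2⟩
    exact ⟨fun u => by simp [h1], fun i hi => ⟨fun u => by simp [(h2 i hi).1],
      fun u => by simp [(h2 i hi).2]⟩⟩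

theorem rt_mem_coind {k : ℕ} {ρ : SMod m n M} {φ : Big m n M} (h : φ ∈ Coind k ρ)
    (u : UU m n) : rt u φ ∈ Coind k ρ := by
  obtain ⟨h1, h2⟩ := h
  refine ⟨fun v => ?_, fun i hi => ⟨fun v => ?_, fun v => ?_⟩⟩
  · rw [rt_apply, rt_apply, mul_assoc, h1]
  · rw [rt_apply, rt_apply, mul_assoc, (h2 i hi).1]
  · rw [rt_apply, rt_apply, mul_assoc, (h2 i hi).2]

/-- integral weight vectors in the big space -/
def IsWB (φ : Big m n M) : Prop :=
  ∃ w : Ix m n → ℤ, ∀ i, rt (ua m n (Matrix.single i i 1)) φ = (w i : ℂ) • φ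

/-- good finite-dimensional subspaces -/
structure Good (k : ℕ) (ρ : SMod m n M) (F : Submodule ℂ (Big m n M)) : Prop where
  fd : FiniteDimensional ℂ F
  st : ∀ A, ∀ φ ∈ F, rt (ua m n A) φ ∈ F
  co : F ≤ Coind k ρ
  wt : F ≤ Submodule.span ℂ {φ | φ ∈ F ∧ IsWB φ}

/-- the rational part of the coinduced module -/
def Ind (k : ℕ) (ρ : SMod m n M) : Submodule ℂ (Big m n M) where
  carrier := {φ | ∃ F, Good k ρ F ∧ φ ∈ F}
  zero_mem' := ⟨⊥, ⟨inferInstance, fun A φ h => by
      rw [Submodule.mem_bot] at h ⊢; rw [h, map_zero], bot_le, bot_le⟩, Submodule.zero_mem _⟩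
  add_mem' := by
    rintro φ ψ ⟨F, hF, hφ⟩ ⟨G, hG, hψ⟩
    have := hF.fd
    have := hG.fd
    refine ⟨F ⊔ G, ⟨inferInstance, fun A x hx => ?_, sup_le hF.co hG.co, sup_le ?_ ?_⟩,
      Submodule.add_mem_sup hφ hψ⟩
    · obtain ⟨y, hy, z, hz, rfl⟩ := Submodule.mem_sup.1 hx
      rw [map_add]
      exact Submodule.add_mem_sup (hF.st A y hy) (hG.st A z hz)
    · exact hF.wt.trans (Submodule.span_mono fun x hx => ⟨Submodule.mem_sup_left hx.1, hx.2⟩)
    · exact hG.wt.trans (Submodule.span_mono fun x hx => ⟨Submodule.mem_sup_right hx.1, hx.2⟩)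
  smul_mem' := by
    rintro c φ ⟨F, hF, hφ⟩
    exact ⟨F, hF, Submodule.smul_mem _ _ hφ⟩

theorem act_mem_ind {k : ℕ} {ρ : SMod m n M} (A : gl m n) (φ : Big m n M) (h : φ ∈ Ind k ρ) :
    rt (ua m n A) φ ∈ Ind k ρ := by
  obtain ⟨F, hF, hφ⟩ := h
  exact ⟨F, hF, hF.st A φ hφ⟩

theorem rt_up_ua (A : gl m n) (φ : Big m n M) :
    rt (ua m n A) (rt (up m n) φ) = rt (up m n) (rt (ua m n (ev A)) φ - rt (ua m n (od A)) φ) := by
  have h1 : ua m n A * up m n = up m n * (ua m n (ev A) - ua m n (od A)) := by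
    rw [mul_sub, up_even (isEven_ev A), up_odd (isOdd_od A), sub_neg_eq_add, ← add_mul,
      ← map_add, ev_add_od]
  rw [← rt_mul, h1, rt_mul, rt_sub]

theorem par_mem_ind {k : ℕ} {ρ : SMod m n M} (φ : Big m n M) (h : φ ∈ Ind k ρ) :
    rt (up m n) φ ∈ Ind k ρ := by
  obtain ⟨F, hF, hφ⟩ := h
  have := hF.fd
  refine ⟨F.map (rt (up m n)), ⟨inferInstance, ?_, ?_, ?_⟩, Submodule.mem_map_of_mem hφ⟩
  · rintro A _ ⟨x, hx, rfl⟩
    rw [rt_up_ua]
    exact Submodule.mem_map_of_mem (Submodule.sub_mem _ (hF.st _ x hx) (hF.st _ x hx))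
  · rintro _ ⟨x, hx, rfl⟩
    exact rt_mem_coind (hF.co hx) _
  · refine (Submodule.map_mono hF.wt).trans ?_
    rw [Submodule.map_span]
    refine Submodule.span_mono ?_
    rintro _ ⟨x, ⟨hx, w, hw⟩, rfl⟩
    refine ⟨Submodule.mem_map_of_mem hx, w, fun i => ?_⟩
    rw [rt_up_ua, ev_of_even (isEven_single i), od_of_even (isEven_single i), map_zero]
    have : rt (0 : UU m n) x = 0 := by
      refine LinearMap.ext fun w => ?_
      rw [rt_apply]; simp
    rw [this, sub_zero, hw, map_smul]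

/-- the induced module -/
noncomputable def indMod (k : ℕ) (ρ : SMod m n M) : SMod m n (Ind k ρ) where
  par := (rt (up m n)).restrict (fun φ h => par_mem_ind φ h)
  act :=
    { toFun := fun A => (rt (ua m n A)).restrict (fun φ h => act_mem_ind A φ h)
      map_add' := fun A B => by
        refine LinearMap.ext fun φ => Subtype.ext ?_
        change rt (ua m n (A + B)) φ.1 = rt (ua m n A) φ.1 + rt (ua m n B) φ.1
        rw [map_add, rt_add]
      map_smul' := fun c A => by
        refine LinearMap.ext fun φ => Subtype.ext ?_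
        change rt (ua m n (c • A)) φ.1 = c • rt (ua m n A) φ.1
        rw [map_smul, rt_smul] }
  par_par := fun φ => Subtype.ext <| by
    change rt (up m n) (rt (up m n) φ.1) = φ.1
    rw [← rt_mul, up_up, rt_one]
  par_even := fun A h φ => Subtype.ext <| by
    change rt (up m n) (rt (ua m n A) φ.1) = rt (ua m n A) (rt (up m n) φ.1)
    rw [← rt_mul, ← rt_mul, up_even h]
  par_odd := fun A h φ => Subtype.ext <| by
    change rt (up m n) (rt (ua m n A) φ.1) = -rt (ua m n A) (rt (up m n) φ.1)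
    rw [← rt_mul, ← rt_mul, up_odd h, rt_neg]
  brac_even := fun A B hA hB φ => Subtype.ext <| by
    change rt (ua m n (A * B - B * A)) φ.1
      = rt (ua m n A) (rt (ua m n B) φ.1) - rt (ua m n B) (rt (ua m n A) φ.1)
    rw [ua_be hA hB, rt_sub, rt_mul, rt_mul]
  brac_odd := fun A B hA hB φ => Subtype.ext <| by
    change rt (ua m n (A * B + B * A)) φ.1
      = rt (ua m n A) (rt (ua m n B) φ.1) + rt (ua m n B) (rt (ua m n A) φ.1)
    rw [ua_bo hA hB, rt_add, rt_mul, rt_mul]
  rational := fun φ => by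
    obtain ⟨F, hF, hφ⟩ := φ.2
    have := hF.fd
    have hFI : F ≤ Ind k ρ := fun x hx => ⟨F, hF, hx⟩
    refine ⟨F.comap (Ind k ρ).subtype, ?_, hφ, fun A x hx => hF.st A x.1 hx, ?_⟩
    · refine FiniteDimensional.of_injective
        (f := ((Ind k ρ).subtype.restrict (p := F.comap (Ind k ρ).subtype) (q := F)
          (fun x hx => hx))) ?_
      intro x y hxy
      have := congrArg Subtype.val hxy
      exact Subtype.ext (Subtype.ext this)
    · intro x hx
      have h1 : x.1 ∈ Submodule.span ℂ {φ : Big m n M | φ ∈ F ∧ IsWB φ} := hF.wt hx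
      have h2 : {φ : Big m n M | φ ∈ F ∧ IsWB φ} = (Ind k ρ).subtype ''
          {u : Ind k ρ | u.1 ∈ F ∧ IsWB u.1} := by
        ext y
        constructor
        · rintro ⟨hy, hw⟩
          exact ⟨⟨y, hFI hy⟩, ⟨hy, hw⟩, rfl⟩
        · rintro ⟨u, hu, rfl⟩
          exact hu
      rw [h2, ← Submodule.map_span] at h1
      obtain ⟨y, hy, hyx⟩ := h1
      have h3 : y = x := Subtype.ext hyx
      rw [h3] at hy
      refine Submodule.span_mono ?_ hy
      rintro u ⟨hu, w, hw⟩
      exact ⟨hu, w, fun i => Subtype.ext (hw i)⟩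

/-- the counit -/
noncomputable def counit (k : ℕ) (ρ : SMod m n M) : Ind k ρ →ₗ[ℂ] M where
  toFun φ := φ.1 1
  map_add' _ _ := rfl
  map_smul' _ _ := rfl

theorem counit_isSMap (k : ℕ) (ρ : SMod m n M) : IsSMap k (indMod k ρ) ρ (counit k ρ) := by
  refine ⟨fun φ => ?_, fun i hi => ⟨fun φ => ?_, fun φ => ?_⟩⟩
  · obtain ⟨F, hF, hφ⟩ := φ.2
    have := (hF.co hφ).1 1
    rw [mul_one] at this
    change φ.1 (1 * up m n) = _
    rw [one_mul]; exact this
  · obtain ⟨F, hF, hφ⟩ := φ.2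
    have := ((hF.co hφ).2 i hi).1 1
    rw [mul_one] at this
    change φ.1 (1 * ua m n _) = _
    rw [one_mul]; exact this
  · obtain ⟨F, hF, hφ⟩ := φ.2
    have := ((hF.co hφ).2 i hi).2 1
    rw [mul_one] at this
    change φ.1 (1 * ua m n _) = _
    rw [one_mul]; exact this

section univ
variable {k : ℕ} {ρ : SMod m n M} {X : Type} [AddCommGroup X] [Module ℂ X] (τ : SMod m n X)
  (f : X →ₗ[ℂ] M)

/-- matrix coefficient map -/
noncomputable def coeff : X →ₗ[ℂ] Big m n M where
  toFun x :=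
    { toFun := fun u => f (uAct τ u x)
      map_add' := fun u v => by rw [map_add, LinearMap.add_apply, map_add]
      map_smul' := fun c u => by rw [map_smul, LinearMap.smul_apply, map_smul]; rfl }
  map_add' x y := LinearMap.ext fun u => by
    change f (uAct τ u (x + y)) = f (uAct τ u x) + f (uAct τ u y)
    rw [map_add, map_add]
  map_smul' c x := LinearMap.ext fun u => by
    change f (uAct τ u (c • x)) = c • f (uAct τ u x)
    rw [map_smul, map_smul]

theorem coeff_apply (x : X) (u : UU m n) : coeff τ f x u = f (uAct τ u x) := rfl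

theorem rt_coeff (u : UU m n) (x : X) : rt u (coeff τ f x) = coeff τ f (uAct τ u x) := by
  refine LinearMap.ext fun v => ?_
  rw [rt_apply, coeff_apply, coeff_apply, map_mul]; rfl

theorem coeff_mem_coind (hf : IsSMap k τ ρ f) (x : X) : coeff τ f x ∈ Coind k ρ := by
  refine ⟨fun u => ?_, fun i hi => ⟨fun u => ?_, fun u => ?_⟩⟩
  · rw [coeff_apply, coeff_apply, map_mul, uAct_up, ← hf.1]; rfl
  · rw [coeff_apply, coeff_apply, map_mul, uAct_ua, ← (hf.2 i hi).1]; rfl
  · rw [coeff_apply, coeff_apply, map_mul, uAct_ua, ← (hf.2 i hi).2]; rfl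

theorem coeff_mem_ind (hf : IsSMap k τ ρ f) (x : X) : coeff τ f x ∈ Ind k ρ := by
  obtain ⟨F, hFd, hx, hst, hw⟩ := τ.rational x
  refine ⟨F.map (coeff τ f), ⟨inferInstance, ?_, ?_, ?_⟩, Submodule.mem_map_of_mem hx⟩
  · rintro A _ ⟨y, hy, rfl⟩
    rw [rt_coeff, uAct_ua]
    exact Submodule.mem_map_of_mem (hst A y hy)
  · rintro _ ⟨y, hy, rfl⟩
    exact coeff_mem_coind τ f hf y
  · refine (Submodule.map_mono hw).trans ?_
    rw [Submodule.map_span]
    refine Submodule.span_mono ?_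
    rintro _ ⟨y, ⟨hy, w, hw⟩, rfl⟩
    refine ⟨Submodule.mem_map_of_mem hy, w, fun i => ?_⟩
    rw [rt_coeff, uAct_ua, hw, map_smul]

end univ

/-- Frobenius reciprocity. -/
theorem indMod_isInduced (k : ℕ) (ρ : SMod m n M) :
    IsInduced k ρ (Ind k ρ) (indMod k ρ) (counit k ρ) := by
  refine ⟨counit_isSMap k ρ, fun X _ _ τ f hf => ?_⟩
  refine ⟨(coeff τ f).codRestrict (Ind k ρ) (coeff_mem_ind τ f hf), ⟨⟨fun x => ?_, fun A x => ?_⟩,
    LinearMap.ext fun x => ?_⟩, ?_⟩
  · refine Subtype.ext ?_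
    change coeff τ f (τ.par x) = rt (up m n) (coeff τ f x)
    rw [rt_coeff, uAct_up]
  · refine Subtype.ext ?_
    change coeff τ f (τ.act A x) = rt (ua m n A) (coeff τ f x)
    rw [rt_coeff, uAct_ua]
  · change f (uAct τ 1 x) = f x
    rw [map_one]; rfl
  · rintro F ⟨hF, hFf⟩
    have key : ∀ (w : Fr m n) (x : X), (F (frAct τ w x)).1 = rt (mk m n w) (F x).1 := by
      intro w
      induction w using FreeAlgebra.induction with
      | grade0 c =>
        intro x
        rw [AlgHom.commutes, AlgHom.commutes, Algebra.algebraMap_eq_smul_one,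
          Algebra.algebraMap_eq_smul_one, rt_smul, rt_one]
        change (F (c • x)).1 = _
        rw [map_smul]; rfl
      | grade1 o =>
        intro x
        rcases o with _ | A
        · rw [frAct_gp]; exact congrArg Subtype.val (hF.1 x)
        · rw [frAct_ga]; exact congrArg Subtype.val (hF.2 A x)
      | mul a b ha hb =>
        intro x
        rw [map_mul, map_mul, rt_mul, ← hb, ← ha]; rfl
      | add a b ha hb =>
        intro x
        rw [map_add, map_add, rt_add, ← hb, ← ha, LinearMap.add_apply, map_add]; rfl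
    refine LinearMap.ext fun x => Subtype.ext (LinearMap.ext fun u => ?_)
    obtain ⟨w, rfl⟩ := RingQuot.mkAlgHom_surjective ℂ (Rel m n) u
    have h1 : (F x).1 (mk m n w) = rt (mk m n w) (F x).1 1 := by
      rw [rt_apply, one_mul]
    change (F x).1 (mk m n w) = f (uAct τ (mk m n w) x)
    rw [h1, ← key, uAct_mk, ← hFf]
    rfl

theorem exists_induced (k : ℕ) (ρ : SMod m n M) :
    ∃ (I : Type) (_ : AddCommGroup I) (_ : Module ℂ I) (σ : SMod m n I) (ε : I →ₗ[ℂ] M),
      IsInduced k ρ I σ ε :=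
  ⟨Ind k ρ, inferInstance, inferInstance, indMod k ρ, counit k ρ, indMod_isInduced k ρ⟩

end

end Pool.Agent.H39.RP
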