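import Pool.Agent.H39.RP.Rel

/-! The three explicit `GL(2|2)`-modules as `SMod`s. -/

set_option linter.unusedSimpArgs false
set_option linter.unusedVariables false

namespace Pool.Agent.H39.RP

open Matrix

theorem single_inl (i : Fin 2) :
    (Matrix.single (Sum.inl i) (Sum.inl i) (1 : ℂ) : gl 2 2)
      = fromBlocks (Matrix.single i i 1) 0 0 0 := by
  ext a b
  rcases a with a | a <;> rcases b with b | b <;> simp [Matrix.single_apply]

theorem single_inr (i : Fin 2) :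
    (Matrix.single (Sum.inr i) (Sum.inr i) (1 : ℂ) : gl 2 2)
      = fromBlocks 0 0 0 (Matrix.single i i 1) := by
  ext a b
  rcases a with a | a <;> rcases b with b | b <;> simp [Matrix.single_apply]

/-- a constant matrix -/
def e00 : M2 := !![1, 0; 0, 0]
theorem e00_00 : e00 0 0 = 1 := by simp [e00]
theorem e00_01 : e00 0 1 = 0 := by simp [e00]
theorem e00_10 : e00 1 0 = 0 := by simp [e00]
theorem e00_11 : e00 1 1 = 0 := by simp [e00]
/-- a constant matrix -/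
def e01 : M2 := !![0, 1; 0, 0]
theorem e01_00 : e01 0 0 = 0 := by simp [e01]
theorem e01_01 : e01 0 1 = 1 := by simp [e01]
theorem e01_10 : e01 1 0 = 0 := by simp [e01]
theorem e01_11 : e01 1 1 = 0 := by simp [e01]
/-- a constant matrix -/
def e10 : M2 := !![0, 0; 1, 0]
theorem e10_00 : e10 0 0 = 0 := by simp [e10]
theorem e10_01 : e10 0 1 = 0 := by simp [e10]
theorem e10_10 : e10 1 0 = 1 := by simp [e10]
theorem e10_11 : e10 1 1 = 0 := by simp [e10]
/-- a constant matrix -/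
def e11 : M2 := !![0, 0; 0, 1]
theorem e11_00 : e11 0 0 = 0 := by simp [e11]
theorem e11_01 : e11 0 1 = 0 := by simp [e11]
theorem e11_10 : e11 1 0 = 0 := by simp [e11]
theorem e11_11 : e11 1 1 = 1 := by simp [e11]
/-- a constant matrix -/
def hh : M2 := !![1, 0; 0, -1]
theorem hh_00 : hh 0 0 = 1 := by simp [hh]
theorem hh_01 : hh 0 1 = 0 := by simp [hh]
theorem hh_10 : hh 1 0 = 0 := by simp [hh]
theorem hh_11 : hh 1 1 = -1 := by simp [hh]

theorem single_00 : (Matrix.single 0 0 1 : M2) = e00 := by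
  ext i j; fin_cases i <;> fin_cases j <;> simp [e00]
theorem single_11 : (Matrix.single 1 1 1 : M2) = e11 := by
  ext i j; fin_cases i <;> fin_cases j <;> simp [e11]

/-- integral weight vectors for an action -/
def IsW (act : gl 2 2 →ₗ[ℂ] (Q →ₗ[ℂ] Q)) (u : Q) : Prop :=
  ∃ w : Ix 2 2 → ℤ, ∀ i, act (Matrix.single i i 1) u = (w i : ℂ) • u

theorem isW_of (act : gl 2 2 →ₗ[ℂ] (Q →ₗ[ℂ] Q)) (u : Q) (p q r s : ℤ)
    (h1 : act (fromBlocks e00 0 0 0) u = (p : ℂ) • u)
    (h2 : act (fromBlocks e11 0 0 0) u = (q : ℂ) • u)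
    (h3 : act (fromBlocks 0 0 0 e00) u = (r : ℂ) • u)
    (h4 : act (fromBlocks 0 0 0 e11) u = (s : ℂ) • u) : IsW act u := by
  refine ⟨Sum.elim ![p, q] ![r, s], ?_⟩
  rintro (i | i)
  · rw [single_inl]; fin_cases i
    · simpa [single_00] using h1
    · simpa [single_11] using h2
  · rw [single_inr]; fin_cases i
    · simpa [single_00] using h3
    · simpa [single_11] using h4

theorem wE0 : IsW actE ((e01, 0, 0, 0) : Q) := by
  refine isW_of actE _ (1) (-1) (0) (0) ?_ ?_ ?_ ?_ <;>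
  · rw [actE_apply]
    simp only [toBlocks_fromBlocks₁₁, toBlocks_fromBlocks₁₂, toBlocks_fromBlocks₂₁,
      toBlocks_fromBlocks₂₂]
    apply Q_ext <;> simp only [fE, r0, pol, trc, mul2_00, mul2_01, mul2_10, mul2_11, tl_00, tl_01, tl_10, tl_11, ad_00, ad_01, ad_10,
    ad_11, one_00, one_01, one_10, one_11, Matrix.add_apply, Matrix.sub_apply, Matrix.neg_apply,
    Matrix.zero_apply, Matrix.smul_apply, Prod.fst_add, Prod.snd_add, Prod.fst_sub, Prod.snd_sub,
    Prod.fst_neg, Prod.snd_neg, Prod.smul_fst, Prod.smul_snd, smul_eq_mul,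
    e00_00, e00_01, e00_10, e00_11, e01_00, e01_01, e01_10, e01_11, e10_00, e10_01, e10_10, e10_11, e11_00, e11_01, e11_10, e11_11, hh_00, hh_01, hh_10, hh_11] <;> norm_num
theorem wE1 : IsW actE ((e10, 0, 0, 0) : Q) := by
  refine isW_of actE _ (-1) (1) (0) (0) ?_ ?_ ?_ ?_ <;>
  · rw [actE_apply]
    simp only [toBlocks_fromBlocks₁₁, toBlocks_fromBlocks₁₂, toBlocks_fromBlocks₂₁,
      toBlocks_fromBlocks₂₂]
    apply Q_ext <;> simp only [fE, r0, pol, trc, mul2_00, mul2_01, mul2_10, mul2_11, tl_00, tl_01, tl_10, tl_11, ad_00, ad_01, ad_10,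
    ad_11, one_00, one_01, one_10, one_11, Matrix.add_apply, Matrix.sub_apply, Matrix.neg_apply,
    Matrix.zero_apply, Matrix.smul_apply, Prod.fst_add, Prod.snd_add, Prod.fst_sub, Prod.snd_sub,
    Prod.fst_neg, Prod.snd_neg, Prod.smul_fst, Prod.smul_snd, smul_eq_mul,
    e00_00, e00_01, e00_10, e00_11, e01_00, e01_01, e01_10, e01_11, e10_00, e10_01, e10_10, e10_11, e11_00, e11_01, e11_10, e11_11, hh_00, hh_01, hh_10, hh_11] <;> norm_num
theorem wE2 : IsW actE ((0, e00, 0, 0) : Q) := by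
  refine isW_of actE _ (1) (0) (-1) (0) ?_ ?_ ?_ ?_ <;>
  · rw [actE_apply]
    simp only [toBlocks_fromBlocks₁₁, toBlocks_fromBlocks₁₂, toBlocks_fromBlocks₂₁,
      toBlocks_fromBlocks₂₂]
    apply Q_ext <;> simp only [fE, r0, pol, trc, mul2_00, mul2_01, mul2_10, mul2_11, tl_00, tl_01, tl_10, tl_11, ad_00, ad_01, ad_10,
    ad_11, one_00, one_01, one_10, one_11, Matrix.add_apply, Matrix.sub_apply, Matrix.neg_apply,
    Matrix.zero_apply, Matrix.smul_apply, Prod.fst_add, Prod.snd_add, Prod.fst_sub, Prod.snd_sub,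
    Prod.fst_neg, Prod.snd_neg, Prod.smul_fst, Prod.smul_snd, smul_eq_mul,
    e00_00, e00_01, e00_10, e00_11, e01_00, e01_01, e01_10, e01_11, e10_00, e10_01, e10_10, e10_11, e11_00, e11_01, e11_10, e11_11, hh_00, hh_01, hh_10, hh_11] <;> norm_num
theorem wE3 : IsW actE ((0, e01, 0, 0) : Q) := by
  refine isW_of actE _ (1) (0) (0) (-1) ?_ ?_ ?_ ?_ <;>
  · rw [actE_apply]
    simp only [toBlocks_fromBlocks₁₁, toBlocks_fromBlocks₁₂, toBlocks_fromBlocks₂₁,
      toBlocks_fromBlocks₂₂]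
    apply Q_ext <;> simp only [fE, r0, pol, trc, mul2_00, mul2_01, mul2_10, mul2_11, tl_00, tl_01, tl_10, tl_11, ad_00, ad_01, ad_10,
    ad_11, one_00, one_01, one_10, one_11, Matrix.add_apply, Matrix.sub_apply, Matrix.neg_apply,
    Matrix.zero_apply, Matrix.smul_apply, Prod.fst_add, Prod.snd_add, Prod.fst_sub, Prod.snd_sub,
    Prod.fst_neg, Prod.snd_neg, Prod.smul_fst, Prod.smul_snd, smul_eq_mul,
    e00_00, e00_01, e00_10, e00_11, e01_00, e01_01, e01_10, e01_11, e10_00, e10_01, e10_10, e10_11, e11_00, e11_01, e11_10, e11_11, hh_00, hh_01, hh_10, hh_11] <;> norm_num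
theorem wE4 : IsW actE ((0, e10, 0, 0) : Q) := by
  refine isW_of actE _ (0) (1) (-1) (0) ?_ ?_ ?_ ?_ <;>
  · rw [actE_apply]
    simp only [toBlocks_fromBlocks₁₁, toBlocks_fromBlocks₁₂, toBlocks_fromBlocks₂₁,
      toBlocks_fromBlocks₂₂]
    apply Q_ext <;> simp only [fE, r0, pol, trc, mul2_00, mul2_01, mul2_10, mul2_11, tl_00, tl_01, tl_10, tl_11, ad_00, ad_01, ad_10,
    ad_11, one_00, one_01, one_10, one_11, Matrix.add_apply, Matrix.sub_apply, Matrix.neg_apply,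
    Matrix.zero_apply, Matrix.smul_apply, Prod.fst_add, Prod.snd_add, Prod.fst_sub, Prod.snd_sub,
    Prod.fst_neg, Prod.snd_neg, Prod.smul_fst, Prod.smul_snd, smul_eq_mul,
    e00_00, e00_01, e00_10, e00_11, e01_00, e01_01, e01_10, e01_11, e10_00, e10_01, e10_10, e10_11, e11_00, e11_01, e11_10, e11_11, hh_00, hh_01, hh_10, hh_11] <;> norm_num
theorem wE5 : IsW actE ((0, e11, 0, 0) : Q) := by
  refine isW_of actE _ (0) (1) (0) (-1) ?_ ?_ ?_ ?_ <;>
  · rw [actE_apply]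
    simp only [toBlocks_fromBlocks₁₁, toBlocks_fromBlocks₁₂, toBlocks_fromBlocks₂₁,
      toBlocks_fromBlocks₂₂]
    apply Q_ext <;> simp only [fE, r0, pol, trc, mul2_00, mul2_01, mul2_10, mul2_11, tl_00, tl_01, tl_10, tl_11, ad_00, ad_01, ad_10,
    ad_11, one_00, one_01, one_10, one_11, Matrix.add_apply, Matrix.sub_apply, Matrix.neg_apply,
    Matrix.zero_apply, Matrix.smul_apply, Prod.fst_add, Prod.snd_add, Prod.fst_sub, Prod.snd_sub,
    Prod.fst_neg, Prod.snd_neg, Prod.smul_fst, Prod.smul_snd, smul_eq_mul,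
    e00_00, e00_01, e00_10, e00_11, e01_00, e01_01, e01_10, e01_11, e10_00, e10_01, e10_10, e10_11, e11_00, e11_01, e11_10, e11_11, hh_00, hh_01, hh_10, hh_11] <;> norm_num
theorem wE6 : IsW actE ((0, 0, e00, 0) : Q) := by
  refine isW_of actE _ (-1) (0) (1) (0) ?_ ?_ ?_ ?_ <;>
  · rw [actE_apply]
    simp only [toBlocks_fromBlocks₁₁, toBlocks_fromBlocks₁₂, toBlocks_fromBlocks₂₁,
      toBlocks_fromBlocks₂₂]
    apply Q_ext <;> simp only [fE, r0, pol, trc, mul2_00, mul2_01, mul2_10, mul2_11, tl_00, tl_01, tl_10, tl_11, ad_00, ad_01, ad_10,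
    ad_11, one_00, one_01, one_10, one_11, Matrix.add_apply, Matrix.sub_apply, Matrix.neg_apply,
    Matrix.zero_apply, Matrix.smul_apply, Prod.fst_add, Prod.snd_add, Prod.fst_sub, Prod.snd_sub,
    Prod.fst_neg, Prod.snd_neg, Prod.smul_fst, Prod.smul_snd, smul_eq_mul,
    e00_00, e00_01, e00_10, e00_11, e01_00, e01_01, e01_10, e01_11, e10_00, e10_01, e10_10, e10_11, e11_00, e11_01, e11_10, e11_11, hh_00, hh_01, hh_10, hh_11] <;> norm_num
theorem wE7 : IsW actE ((0, 0, e01, 0) : Q) := by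
  refine isW_of actE _ (0) (-1) (1) (0) ?_ ?_ ?_ ?_ <;>
  · rw [actE_apply]
    simp only [toBlocks_fromBlocks₁₁, toBlocks_fromBlocks₁₂, toBlocks_fromBlocks₂₁,
      toBlocks_fromBlocks₂₂]
    apply Q_ext <;> simp only [fE, r0, pol, trc, mul2_00, mul2_01, mul2_10, mul2_11, tl_00, tl_01, tl_10, tl_11, ad_00, ad_01, ad_10,
    ad_11, one_00, one_01, one_10, one_11, Matrix.add_apply, Matrix.sub_apply, Matrix.neg_apply,
    Matrix.zero_apply, Matrix.smul_apply, Prod.fst_add, Prod.snd_add, Prod.fst_sub, Prod.snd_sub,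
    Prod.fst_neg, Prod.snd_neg, Prod.smul_fst, Prod.smul_snd, smul_eq_mul,
    e00_00, e00_01, e00_10, e00_11, e01_00, e01_01, e01_10, e01_11, e10_00, e10_01, e10_10, e10_11, e11_00, e11_01, e11_10, e11_11, hh_00, hh_01, hh_10, hh_11] <;> norm_num
theorem wE8 : IsW actE ((0, 0, e10, 0) : Q) := by
  refine isW_of actE _ (-1) (0) (0) (1) ?_ ?_ ?_ ?_ <;>
  · rw [actE_apply]
    simp only [toBlocks_fromBlocks₁₁, toBlocks_fromBlocks₁₂, toBlocks_fromBlocks₂₁,
      toBlocks_fromBlocks₂₂]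
    apply Q_ext <;> simp only [fE, r0, pol, trc, mul2_00, mul2_01, mul2_10, mul2_11, tl_00, tl_01, tl_10, tl_11, ad_00, ad_01, ad_10,
    ad_11, one_00, one_01, one_10, one_11, Matrix.add_apply, Matrix.sub_apply, Matrix.neg_apply,
    Matrix.zero_apply, Matrix.smul_apply, Prod.fst_add, Prod.snd_add, Prod.fst_sub, Prod.snd_sub,
    Prod.fst_neg, Prod.snd_neg, Prod.smul_fst, Prod.smul_snd, smul_eq_mul,
    e00_00, e00_01, e00_10, e00_11, e01_00, e01_01, e01_10, e01_11, e10_00, e10_01, e10_10, e10_11, e11_00, e11_01, e11_10, e11_11, hh_00, hh_01, hh_10, hh_11] <;> norm_num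
theorem wE9 : IsW actE ((0, 0, e11, 0) : Q) := by
  refine isW_of actE _ (0) (-1) (0) (1) ?_ ?_ ?_ ?_ <;>
  · rw [actE_apply]
    simp only [toBlocks_fromBlocks₁₁, toBlocks_fromBlocks₁₂, toBlocks_fromBlocks₂₁,
      toBlocks_fromBlocks₂₂]
    apply Q_ext <;> simp only [fE, r0, pol, trc, mul2_00, mul2_01, mul2_10, mul2_11, tl_00, tl_01, tl_10, tl_11, ad_00, ad_01, ad_10,
    ad_11, one_00, one_01, one_10, one_11, Matrix.add_apply, Matrix.sub_apply, Matrix.neg_apply,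
    Matrix.zero_apply, Matrix.smul_apply, Prod.fst_add, Prod.snd_add, Prod.fst_sub, Prod.snd_sub,
    Prod.fst_neg, Prod.snd_neg, Prod.smul_fst, Prod.smul_snd, smul_eq_mul,
    e00_00, e00_01, e00_10, e00_11, e01_00, e01_01, e01_10, e01_11, e10_00, e10_01, e10_10, e10_11, e11_00, e11_01, e11_10, e11_11, hh_00, hh_01, hh_10, hh_11] <;> norm_num
theorem wE10 : IsW actE ((0, 0, 0, e01) : Q) := by
  refine isW_of actE _ (0) (0) (1) (-1) ?_ ?_ ?_ ?_ <;>
  · rw [actE_apply]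
    simp only [toBlocks_fromBlocks₁₁, toBlocks_fromBlocks₁₂, toBlocks_fromBlocks₂₁,
      toBlocks_fromBlocks₂₂]
    apply Q_ext <;> simp only [fE, r0, pol, trc, mul2_00, mul2_01, mul2_10, mul2_11, tl_00, tl_01, tl_10, tl_11, ad_00, ad_01, ad_10,
    ad_11, one_00, one_01, one_10, one_11, Matrix.add_apply, Matrix.sub_apply, Matrix.neg_apply,
    Matrix.zero_apply, Matrix.smul_apply, Prod.fst_add, Prod.snd_add, Prod.fst_sub, Prod.snd_sub,
    Prod.fst_neg, Prod.snd_neg, Prod.smul_fst, Prod.smul_snd, smul_eq_mul,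
    e00_00, e00_01, e00_10, e00_11, e01_00, e01_01, e01_10, e01_11, e10_00, e10_01, e10_10, e10_11, e11_00, e11_01, e11_10, e11_11, hh_00, hh_01, hh_10, hh_11] <;> norm_num
theorem wE11 : IsW actE ((0, 0, 0, e10) : Q) := by
  refine isW_of actE _ (0) (0) (-1) (1) ?_ ?_ ?_ ?_ <;>
  · rw [actE_apply]
    simp only [toBlocks_fromBlocks₁₁, toBlocks_fromBlocks₁₂, toBlocks_fromBlocks₂₁,
      toBlocks_fromBlocks₂₂]
    apply Q_ext <;> simp only [fE, r0, pol, trc, mul2_00, mul2_01, mul2_10, mul2_11, tl_00, tl_01, tl_10, tl_11, ad_00, ad_01, ad_10,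
    ad_11, one_00, one_01, one_10, one_11, Matrix.add_apply, Matrix.sub_apply, Matrix.neg_apply,
    Matrix.zero_apply, Matrix.smul_apply, Prod.fst_add, Prod.snd_add, Prod.fst_sub, Prod.snd_sub,
    Prod.fst_neg, Prod.snd_neg, Prod.smul_fst, Prod.smul_snd, smul_eq_mul,
    e00_00, e00_01, e00_10, e00_11, e01_00, e01_01, e01_10, e01_11, e10_00, e10_01, e10_10, e10_11, e11_00, e11_01, e11_10, e11_11, hh_00, hh_01, hh_10, hh_11] <;> norm_num
theorem wE12 : IsW actE ((e00, 0, 0, 0) : Q) := by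
  refine isW_of actE _ (0) (0) (0) (0) ?_ ?_ ?_ ?_ <;>
  · rw [actE_apply]
    simp only [toBlocks_fromBlocks₁₁, toBlocks_fromBlocks₁₂, toBlocks_fromBlocks₂₁,
      toBlocks_fromBlocks₂₂]
    apply Q_ext <;> simp only [fE, r0, pol, trc, mul2_00, mul2_01, mul2_10, mul2_11, tl_00, tl_01, tl_10, tl_11, ad_00, ad_01, ad_10,
    ad_11, one_00, one_01, one_10, one_11, Matrix.add_apply, Matrix.sub_apply, Matrix.neg_apply,
    Matrix.zero_apply, Matrix.smul_apply, Prod.fst_add, Prod.snd_add, Prod.fst_sub, Prod.snd_sub,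
    Prod.fst_neg, Prod.snd_neg, Prod.smul_fst, Prod.smul_snd, smul_eq_mul,
    e00_00, e00_01, e00_10, e00_11, e01_00, e01_01, e01_10, e01_11, e10_00, e10_01, e10_10, e10_11, e11_00, e11_01, e11_10, e11_11, hh_00, hh_01, hh_10, hh_11] <;> norm_num
theorem wE13 : IsW actE ((e11, 0, 0, 0) : Q) := by
  refine isW_of actE _ (0) (0) (0) (0) ?_ ?_ ?_ ?_ <;>
  · rw [actE_apply]
    simp only [toBlocks_fromBlocks₁₁, toBlocks_fromBlocks₁₂, toBlocks_fromBlocks₂₁,
      toBlocks_fromBlocks₂₂]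
    apply Q_ext <;> simp only [fE, r0, pol, trc, mul2_00, mul2_01, mul2_10, mul2_11, tl_00, tl_01, tl_10, tl_11, ad_00, ad_01, ad_10,
    ad_11, one_00, one_01, one_10, one_11, Matrix.add_apply, Matrix.sub_apply, Matrix.neg_apply,
    Matrix.zero_apply, Matrix.smul_apply, Prod.fst_add, Prod.snd_add, Prod.fst_sub, Prod.snd_sub,
    Prod.fst_neg, Prod.snd_neg, Prod.smul_fst, Prod.smul_snd, smul_eq_mul,
    e00_00, e00_01, e00_10, e00_11, e01_00, e01_01, e01_10, e01_11, e10_00, e10_01, e10_10, e10_11, e11_00, e11_01, e11_10, e11_11, hh_00, hh_01, hh_10, hh_11] <;> norm_num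
theorem wE14 : IsW actE ((0, 0, 0, e00) : Q) := by
  refine isW_of actE _ (0) (0) (0) (0) ?_ ?_ ?_ ?_ <;>
  · rw [actE_apply]
    simp only [toBlocks_fromBlocks₁₁, toBlocks_fromBlocks₁₂, toBlocks_fromBlocks₂₁,
      toBlocks_fromBlocks₂₂]
    apply Q_ext <;> simp only [fE, r0, pol, trc, mul2_00, mul2_01, mul2_10, mul2_11, tl_00, tl_01, tl_10, tl_11, ad_00, ad_01, ad_10,
    ad_11, one_00, one_01, one_10, one_11, Matrix.add_apply, Matrix.sub_apply, Matrix.neg_apply,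
    Matrix.zero_apply, Matrix.smul_apply, Prod.fst_add, Prod.snd_add, Prod.fst_sub, Prod.snd_sub,
    Prod.fst_neg, Prod.snd_neg, Prod.smul_fst, Prod.smul_snd, smul_eq_mul,
    e00_00, e00_01, e00_10, e00_11, e01_00, e01_01, e01_10, e01_11, e10_00, e10_01, e10_10, e10_11, e11_00, e11_01, e11_10, e11_11, hh_00, hh_01, hh_10, hh_11] <;> norm_num
theorem wE15 : IsW actE ((0, 0, 0, e11) : Q) := by
  refine isW_of actE _ (0) (0) (0) (0) ?_ ?_ ?_ ?_ <;>
  · rw [actE_apply]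
    simp only [toBlocks_fromBlocks₁₁, toBlocks_fromBlocks₁₂, toBlocks_fromBlocks₂₁,
      toBlocks_fromBlocks₂₂]
    apply Q_ext <;> simp only [fE, r0, pol, trc, mul2_00, mul2_01, mul2_10, mul2_11, tl_00, tl_01, tl_10, tl_11, ad_00, ad_01, ad_10,
    ad_11, one_00, one_01, one_10, one_11, Matrix.add_apply, Matrix.sub_apply, Matrix.neg_apply,
    Matrix.zero_apply, Matrix.smul_apply, Prod.fst_add, Prod.snd_add, Prod.fst_sub, Prod.snd_sub,
    Prod.fst_neg, Prod.snd_neg, Prod.smul_fst, Prod.smul_snd, smul_eq_mul,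
    e00_00, e00_01, e00_10, e00_11, e01_00, e01_01, e01_10, e01_11, e10_00, e10_01, e10_10, e10_11, e11_00, e11_01, e11_10, e11_11, hh_00, hh_01, hh_10, hh_11] <;> norm_num

theorem spanE (Z : Q) : Z ∈ Submodule.span ℂ {u | IsW actE u} := by
  have h : Z = (Z.1 0 1) • ((e01, 0, 0, 0) : Q)
    + (Z.1 1 0) • ((e10, 0, 0, 0) : Q)
    + (Z.2.1 0 0) • ((0, e00, 0, 0) : Q)
    + (Z.2.1 0 1) • ((0, e01, 0, 0) : Q)
    + (Z.2.1 1 0) • ((0, e10, 0, 0) : Q)
    + (Z.2.1 1 1) • ((0, e11, 0, 0) : Q)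
    + (Z.2.2.1 0 0) • ((0, 0, e00, 0) : Q)
    + (Z.2.2.1 0 1) • ((0, 0, e01, 0) : Q)
    + (Z.2.2.1 1 0) • ((0, 0, e10, 0) : Q)
    + (Z.2.2.1 1 1) • ((0, 0, e11, 0) : Q)
    + (Z.2.2.2 0 1) • ((0, 0, 0, e01) : Q)
    + (Z.2.2.2 1 0) • ((0, 0, 0, e10) : Q)
    + (Z.1 0 0) • ((e00, 0, 0, 0) : Q)
    + (Z.1 1 1) • ((e11, 0, 0, 0) : Q)
    + (Z.2.2.2 0 0) • ((0, 0, 0, e00) : Q)
    + (Z.2.2.2 1 1) • ((0, 0, 0, e11) : Q) := by
    apply Q_ext <;> simp only [mul2_00, mul2_01, mul2_10, mul2_11, tl_00, tl_01, tl_10, tl_11, ad_00, ad_01, ad_10,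
    ad_11, one_00, one_01, one_10, one_11, Matrix.add_apply, Matrix.sub_apply, Matrix.neg_apply,
    Matrix.zero_apply, Matrix.smul_apply, Prod.fst_add, Prod.snd_add, Prod.fst_sub, Prod.snd_sub,
    Prod.fst_neg, Prod.snd_neg, Prod.smul_fst, Prod.smul_snd, smul_eq_mul,
    e00_00, e00_01, e00_10, e00_11, e01_00, e01_01, e01_10, e01_11, e10_00, e10_01, e10_10, e10_11, e11_00, e11_01, e11_10, e11_11, hh_00, hh_01, hh_10, hh_11] <;> ring
  rw [h]
  refine (Submodule.add_mem _ (Submodule.add_mem _ (Submodule.add_mem _ (Submodule.add_mem _ (Submodule.add_mem _ (Submodule.add_mem _ (Submodule.add_mem _ (Submodule.add_mem _ (Submodule.add_mem _ (Submodule.add_mem _ (Submodule.add_mem _ (Submodule.add_mem _ (Submodule.add_mem _ (Submodule.add_mem _ (Submodule.add_mem _ (Submodule.smul_mem _ _ (Submodule.subset_span wE0))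
    (Submodule.smul_mem _ _ (Submodule.subset_span wE1)))
    (Submodule.smul_mem _ _ (Submodule.subset_span wE2)))
    (Submodule.smul_mem _ _ (Submodule.subset_span wE3)))
    (Submodule.smul_mem _ _ (Submodule.subset_span wE4)))
    (Submodule.smul_mem _ _ (Submodule.subset_span wE5)))
    (Submodule.smul_mem _ _ (Submodule.subset_span wE6)))
    (Submodule.smul_mem _ _ (Submodule.subset_span wE7)))
    (Submodule.smul_mem _ _ (Submodule.subset_span wE8)))
    (Submodule.smul_mem _ _ (Submodule.subset_span wE9)))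
    (Submodule.smul_mem _ _ (Submodule.subset_span wE10)))
    (Submodule.smul_mem _ _ (Submodule.subset_span wE11)))
    (Submodule.smul_mem _ _ (Submodule.subset_span wE12)))
    (Submodule.smul_mem _ _ (Submodule.subset_span wE13)))
    (Submodule.smul_mem _ _ (Submodule.subset_span wE14)))
    (Submodule.smul_mem _ _ (Submodule.subset_span wE15)))

theorem wK0 : IsW actK ((e01, 0, 0, 0) : Q) := by
  refine isW_of actK _ (1) (-1) (0) (0) ?_ ?_ ?_ ?_ <;>
  · rw [actK_apply]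
    simp only [toBlocks_fromBlocks₁₁, toBlocks_fromBlocks₁₂, toBlocks_fromBlocks₂₁,
      toBlocks_fromBlocks₂₂]
    apply Q_ext <;> simp only [fK, r0, pol, trc, mul2_00, mul2_01, mul2_10, mul2_11, tl_00, tl_01, tl_10, tl_11, ad_00, ad_01, ad_10,
    ad_11, one_00, one_01, one_10, one_11, Matrix.add_apply, Matrix.sub_apply, Matrix.neg_apply,
    Matrix.zero_apply, Matrix.smul_apply, Prod.fst_add, Prod.snd_add, Prod.fst_sub, Prod.snd_sub,
    Prod.fst_neg, Prod.snd_neg, Prod.smul_fst, Prod.smul_snd, smul_eq_mul,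
    e00_00, e00_01, e00_10, e00_11, e01_00, e01_01, e01_10, e01_11, e10_00, e10_01, e10_10, e10_11, e11_00, e11_01, e11_10, e11_11, hh_00, hh_01, hh_10, hh_11] <;> norm_num
theorem wK1 : IsW actK ((e10, 0, 0, 0) : Q) := by
  refine isW_of actK _ (-1) (1) (0) (0) ?_ ?_ ?_ ?_ <;>
  · rw [actK_apply]
    simp only [toBlocks_fromBlocks₁₁, toBlocks_fromBlocks₁₂, toBlocks_fromBlocks₂₁,
      toBlocks_fromBlocks₂₂]
    apply Q_ext <;> simp only [fK, r0, pol, trc, mul2_00, mul2_01, mul2_10, mul2_11, tl_00, tl_01, tl_10, tl_11, ad_00, ad_01, ad_10,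
    ad_11, one_00, one_01, one_10, one_11, Matrix.add_apply, Matrix.sub_apply, Matrix.neg_apply,
    Matrix.zero_apply, Matrix.smul_apply, Prod.fst_add, Prod.snd_add, Prod.fst_sub, Prod.snd_sub,
    Prod.fst_neg, Prod.snd_neg, Prod.smul_fst, Prod.smul_snd, smul_eq_mul,
    e00_00, e00_01, e00_10, e00_11, e01_00, e01_01, e01_10, e01_11, e10_00, e10_01, e10_10, e10_11, e11_00, e11_01, e11_10, e11_11, hh_00, hh_01, hh_10, hh_11] <;> norm_num
theorem wK2 : IsW actK ((0, e00, 0, 0) : Q) := by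
  refine isW_of actK _ (1) (0) (-1) (0) ?_ ?_ ?_ ?_ <;>
  · rw [actK_apply]
    simp only [toBlocks_fromBlocks₁₁, toBlocks_fromBlocks₁₂, toBlocks_fromBlocks₂₁,
      toBlocks_fromBlocks₂₂]
    apply Q_ext <;> simp only [fK, r0, pol, trc, mul2_00, mul2_01, mul2_10, mul2_11, tl_00, tl_01, tl_10, tl_11, ad_00, ad_01, ad_10,
    ad_11, one_00, one_01, one_10, one_11, Matrix.add_apply, Matrix.sub_apply, Matrix.neg_apply,
    Matrix.zero_apply, Matrix.smul_apply, Prod.fst_add, Prod.snd_add, Prod.fst_sub, Prod.snd_sub,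
    Prod.fst_neg, Prod.snd_neg, Prod.smul_fst, Prod.smul_snd, smul_eq_mul,
    e00_00, e00_01, e00_10, e00_11, e01_00, e01_01, e01_10, e01_11, e10_00, e10_01, e10_10, e10_11, e11_00, e11_01, e11_10, e11_11, hh_00, hh_01, hh_10, hh_11] <;> norm_num
theorem wK3 : IsW actK ((0, e01, 0, 0) : Q) := by
  refine isW_of actK _ (1) (0) (0) (-1) ?_ ?_ ?_ ?_ <;>
  · rw [actK_apply]
    simp only [toBlocks_fromBlocks₁₁, toBlocks_fromBlocks₁₂, toBlocks_fromBlocks₂₁,
      toBlocks_fromBlocks₂₂]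
    apply Q_ext <;> simp only [fK, r0, pol, trc, mul2_00, mul2_01, mul2_10, mul2_11, tl_00, tl_01, tl_10, tl_11, ad_00, ad_01, ad_10,
    ad_11, one_00, one_01, one_10, one_11, Matrix.add_apply, Matrix.sub_apply, Matrix.neg_apply,
    Matrix.zero_apply, Matrix.smul_apply, Prod.fst_add, Prod.snd_add, Prod.fst_sub, Prod.snd_sub,
    Prod.fst_neg, Prod.snd_neg, Prod.smul_fst, Prod.smul_snd, smul_eq_mul,
    e00_00, e00_01, e00_10, e00_11, e01_00, e01_01, e01_10, e01_11, e10_00, e10_01, e10_10, e10_11, e11_00, e11_01, e11_10, e11_11, hh_00, hh_01, hh_10, hh_11] <;> norm_num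
theorem wK4 : IsW actK ((0, e10, 0, 0) : Q) := by
  refine isW_of actK _ (0) (1) (-1) (0) ?_ ?_ ?_ ?_ <;>
  · rw [actK_apply]
    simp only [toBlocks_fromBlocks₁₁, toBlocks_fromBlocks₁₂, toBlocks_fromBlocks₂₁,
      toBlocks_fromBlocks₂₂]
    apply Q_ext <;> simp only [fK, r0, pol, trc, mul2_00, mul2_01, mul2_10, mul2_11, tl_00, tl_01, tl_10, tl_11, ad_00, ad_01, ad_10,
    ad_11, one_00, one_01, one_10, one_11, Matrix.add_apply, Matrix.sub_apply, Matrix.neg_apply,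
    Matrix.zero_apply, Matrix.smul_apply, Prod.fst_add, Prod.snd_add, Prod.fst_sub, Prod.snd_sub,
    Prod.fst_neg, Prod.snd_neg, Prod.smul_fst, Prod.smul_snd, smul_eq_mul,
    e00_00, e00_01, e00_10, e00_11, e01_00, e01_01, e01_10, e01_11, e10_00, e10_01, e10_10, e10_11, e11_00, e11_01, e11_10, e11_11, hh_00, hh_01, hh_10, hh_11] <;> norm_num
theorem wK5 : IsW actK ((0, e11, 0, 0) : Q) := by
  refine isW_of actK _ (0) (1) (0) (-1) ?_ ?_ ?_ ?_ <;>
  · rw [actK_apply]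
    simp only [toBlocks_fromBlocks₁₁, toBlocks_fromBlocks₁₂, toBlocks_fromBlocks₂₁,
      toBlocks_fromBlocks₂₂]
    apply Q_ext <;> simp only [fK, r0, pol, trc, mul2_00, mul2_01, mul2_10, mul2_11, tl_00, tl_01, tl_10, tl_11, ad_00, ad_01, ad_10,
    ad_11, one_00, one_01, one_10, one_11, Matrix.add_apply, Matrix.sub_apply, Matrix.neg_apply,
    Matrix.zero_apply, Matrix.smul_apply, Prod.fst_add, Prod.snd_add, Prod.fst_sub, Prod.snd_sub,
    Prod.fst_neg, Prod.snd_neg, Prod.smul_fst, Prod.smul_snd, smul_eq_mul,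
    e00_00, e00_01, e00_10, e00_11, e01_00, e01_01, e01_10, e01_11, e10_00, e10_01, e10_10, e10_11, e11_00, e11_01, e11_10, e11_11, hh_00, hh_01, hh_10, hh_11] <;> norm_num
theorem wK6 : IsW actK ((0, 0, e00, 0) : Q) := by
  refine isW_of actK _ (-1) (0) (1) (0) ?_ ?_ ?_ ?_ <;>
  · rw [actK_apply]
    simp only [toBlocks_fromBlocks₁₁, toBlocks_fromBlocks₁₂, toBlocks_fromBlocks₂₁,
      toBlocks_fromBlocks₂₂]
    apply Q_ext <;> simp only [fK, r0, pol, trc, mul2_00, mul2_01, mul2_10, mul2_11, tl_00, tl_01, tl_10, tl_11, ad_00, ad_01, ad_10,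
    ad_11, one_00, one_01, one_10, one_11, Matrix.add_apply, Matrix.sub_apply, Matrix.neg_apply,
    Matrix.zero_apply, Matrix.smul_apply, Prod.fst_add, Prod.snd_add, Prod.fst_sub, Prod.snd_sub,
    Prod.fst_neg, Prod.snd_neg, Prod.smul_fst, Prod.smul_snd, smul_eq_mul,
    e00_00, e00_01, e00_10, e00_11, e01_00, e01_01, e01_10, e01_11, e10_00, e10_01, e10_10, e10_11, e11_00, e11_01, e11_10, e11_11, hh_00, hh_01, hh_10, hh_11] <;> norm_num
theorem wK7 : IsW actK ((0, 0, e01, 0) : Q) := by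
  refine isW_of actK _ (0) (-1) (1) (0) ?_ ?_ ?_ ?_ <;>
  · rw [actK_apply]
    simp only [toBlocks_fromBlocks₁₁, toBlocks_fromBlocks₁₂, toBlocks_fromBlocks₂₁,
      toBlocks_fromBlocks₂₂]
    apply Q_ext <;> simp only [fK, r0, pol, trc, mul2_00, mul2_01, mul2_10, mul2_11, tl_00, tl_01, tl_10, tl_11, ad_00, ad_01, ad_10,
    ad_11, one_00, one_01, one_10, one_11, Matrix.add_apply, Matrix.sub_apply, Matrix.neg_apply,
    Matrix.zero_apply, Matrix.smul_apply, Prod.fst_add, Prod.snd_add, Prod.fst_sub, Prod.snd_sub,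
    Prod.fst_neg, Prod.snd_neg, Prod.smul_fst, Prod.smul_snd, smul_eq_mul,
    e00_00, e00_01, e00_10, e00_11, e01_00, e01_01, e01_10, e01_11, e10_00, e10_01, e10_10, e10_11, e11_00, e11_01, e11_10, e11_11, hh_00, hh_01, hh_10, hh_11] <;> norm_num
theorem wK8 : IsW actK ((0, 0, e10, 0) : Q) := by
  refine isW_of actK _ (-1) (0) (0) (1) ?_ ?_ ?_ ?_ <;>
  · rw [actK_apply]
    simp only [toBlocks_fromBlocks₁₁, toBlocks_fromBlocks₁₂, toBlocks_fromBlocks₂₁,
      toBlocks_fromBlocks₂₂]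
    apply Q_ext <;> simp only [fK, r0, pol, trc, mul2_00, mul2_01, mul2_10, mul2_11, tl_00, tl_01, tl_10, tl_11, ad_00, ad_01, ad_10,
    ad_11, one_00, one_01, one_10, one_11, Matrix.add_apply, Matrix.sub_apply, Matrix.neg_apply,
    Matrix.zero_apply, Matrix.smul_apply, Prod.fst_add, Prod.snd_add, Prod.fst_sub, Prod.snd_sub,
    Prod.fst_neg, Prod.snd_neg, Prod.smul_fst, Prod.smul_snd, smul_eq_mul,
    e00_00, e00_01, e00_10, e00_11, e01_00, e01_01, e01_10, e01_11, e10_00, e10_01, e10_10, e10_11, e11_00, e11_01, e11_10, e11_11, hh_00, hh_01, hh_10, hh_11] <;> norm_num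
theorem wK9 : IsW actK ((0, 0, e11, 0) : Q) := by
  refine isW_of actK _ (0) (-1) (0) (1) ?_ ?_ ?_ ?_ <;>
  · rw [actK_apply]
    simp only [toBlocks_fromBlocks₁₁, toBlocks_fromBlocks₁₂, toBlocks_fromBlocks₂₁,
      toBlocks_fromBlocks₂₂]
    apply Q_ext <;> simp only [fK, r0, pol, trc, mul2_00, mul2_01, mul2_10, mul2_11, tl_00, tl_01, tl_10, tl_11, ad_00, ad_01, ad_10,
    ad_11, one_00, one_01, one_10, one_11, Matrix.add_apply, Matrix.sub_apply, Matrix.neg_apply,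
    Matrix.zero_apply, Matrix.smul_apply, Prod.fst_add, Prod.snd_add, Prod.fst_sub, Prod.snd_sub,
    Prod.fst_neg, Prod.snd_neg, Prod.smul_fst, Prod.smul_snd, smul_eq_mul,
    e00_00, e00_01, e00_10, e00_11, e01_00, e01_01, e01_10, e01_11, e10_00, e10_01, e10_10, e10_11, e11_00, e11_01, e11_10, e11_11, hh_00, hh_01, hh_10, hh_11] <;> norm_num
theorem wK10 : IsW actK ((0, 0, 0, e01) : Q) := by
  refine isW_of actK _ (0) (0) (1) (-1) ?_ ?_ ?_ ?_ <;>
  · rw [actK_apply]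
    simp only [toBlocks_fromBlocks₁₁, toBlocks_fromBlocks₁₂, toBlocks_fromBlocks₂₁,
      toBlocks_fromBlocks₂₂]
    apply Q_ext <;> simp only [fK, r0, pol, trc, mul2_00, mul2_01, mul2_10, mul2_11, tl_00, tl_01, tl_10, tl_11, ad_00, ad_01, ad_10,
    ad_11, one_00, one_01, one_10, one_11, Matrix.add_apply, Matrix.sub_apply, Matrix.neg_apply,
    Matrix.zero_apply, Matrix.smul_apply, Prod.fst_add, Prod.snd_add, Prod.fst_sub, Prod.snd_sub,
    Prod.fst_neg, Prod.snd_neg, Prod.smul_fst, Prod.smul_snd, smul_eq_mul,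
    e00_00, e00_01, e00_10, e00_11, e01_00, e01_01, e01_10, e01_11, e10_00, e10_01, e10_10, e10_11, e11_00, e11_01, e11_10, e11_11, hh_00, hh_01, hh_10, hh_11] <;> norm_num
theorem wK11 : IsW actK ((0, 0, 0, e10) : Q) := by
  refine isW_of actK _ (0) (0) (-1) (1) ?_ ?_ ?_ ?_ <;>
  · rw [actK_apply]
    simp only [toBlocks_fromBlocks₁₁, toBlocks_fromBlocks₁₂, toBlocks_fromBlocks₂₁,
      toBlocks_fromBlocks₂₂]
    apply Q_ext <;> simp only [fK, r0, pol, trc, mul2_00, mul2_01, mul2_10, mul2_11, tl_00, tl_01, tl_10, tl_11, ad_00, ad_01, ad_10,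
    ad_11, one_00, one_01, one_10, one_11, Matrix.add_apply, Matrix.sub_apply, Matrix.neg_apply,
    Matrix.zero_apply, Matrix.smul_apply, Prod.fst_add, Prod.snd_add, Prod.fst_sub, Prod.snd_sub,
    Prod.fst_neg, Prod.snd_neg, Prod.smul_fst, Prod.smul_snd, smul_eq_mul,
    e00_00, e00_01, e00_10, e00_11, e01_00, e01_01, e01_10, e01_11, e10_00, e10_01, e10_10, e10_11, e11_00, e11_01, e11_10, e11_11, hh_00, hh_01, hh_10, hh_11] <;> norm_num
theorem wK12 : IsW actK ((hh, 0, 0, 0) : Q) := by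
  refine isW_of actK _ (0) (0) (0) (0) ?_ ?_ ?_ ?_ <;>
  · rw [actK_apply]
    simp only [toBlocks_fromBlocks₁₁, toBlocks_fromBlocks₁₂, toBlocks_fromBlocks₂₁,
      toBlocks_fromBlocks₂₂]
    apply Q_ext <;> simp only [fK, r0, pol, trc, mul2_00, mul2_01, mul2_10, mul2_11, tl_00, tl_01, tl_10, tl_11, ad_00, ad_01, ad_10,
    ad_11, one_00, one_01, one_10, one_11, Matrix.add_apply, Matrix.sub_apply, Matrix.neg_apply,
    Matrix.zero_apply, Matrix.smul_apply, Prod.fst_add, Prod.snd_add, Prod.fst_sub, Prod.snd_sub,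
    Prod.fst_neg, Prod.snd_neg, Prod.smul_fst, Prod.smul_snd, smul_eq_mul,
    e00_00, e00_01, e00_10, e00_11, e01_00, e01_01, e01_10, e01_11, e10_00, e10_01, e10_10, e10_11, e11_00, e11_01, e11_10, e11_11, hh_00, hh_01, hh_10, hh_11] <;> norm_num
theorem wK13 : IsW actK ((0, 0, 0, hh) : Q) := by
  refine isW_of actK _ (0) (0) (0) (0) ?_ ?_ ?_ ?_ <;>
  · rw [actK_apply]
    simp only [toBlocks_fromBlocks₁₁, toBlocks_fromBlocks₁₂, toBlocks_fromBlocks₂₁,
      toBlocks_fromBlocks₂₂]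
    apply Q_ext <;> simp only [fK, r0, pol, trc, mul2_00, mul2_01, mul2_10, mul2_11, tl_00, tl_01, tl_10, tl_11, ad_00, ad_01, ad_10,
    ad_11, one_00, one_01, one_10, one_11, Matrix.add_apply, Matrix.sub_apply, Matrix.neg_apply,
    Matrix.zero_apply, Matrix.smul_apply, Prod.fst_add, Prod.snd_add, Prod.fst_sub, Prod.snd_sub,
    Prod.fst_neg, Prod.snd_neg, Prod.smul_fst, Prod.smul_snd, smul_eq_mul,
    e00_00, e00_01, e00_10, e00_11, e01_00, e01_01, e01_10, e01_11, e10_00, e10_01, e10_10, e10_11, e11_00, e11_01, e11_10, e11_11, hh_00, hh_01, hh_10, hh_11] <;> norm_num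
theorem wK14 : IsW actK ((1, 0, 0, 0) : Q) := by
  refine isW_of actK _ (1) (1) (-1) (-1) ?_ ?_ ?_ ?_ <;>
  · rw [actK_apply]
    simp only [toBlocks_fromBlocks₁₁, toBlocks_fromBlocks₁₂, toBlocks_fromBlocks₂₁,
      toBlocks_fromBlocks₂₂]
    apply Q_ext <;> simp only [fK, r0, pol, trc, mul2_00, mul2_01, mul2_10, mul2_11, tl_00, tl_01, tl_10, tl_11, ad_00, ad_01, ad_10,
    ad_11, one_00, one_01, one_10, one_11, Matrix.add_apply, Matrix.sub_apply, Matrix.neg_apply,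
    Matrix.zero_apply, Matrix.smul_apply, Prod.fst_add, Prod.snd_add, Prod.fst_sub, Prod.snd_sub,
    Prod.fst_neg, Prod.snd_neg, Prod.smul_fst, Prod.smul_snd, smul_eq_mul,
    e00_00, e00_01, e00_10, e00_11, e01_00, e01_01, e01_10, e01_11, e10_00, e10_01, e10_10, e10_11, e11_00, e11_01, e11_10, e11_11, hh_00, hh_01, hh_10, hh_11] <;> norm_num
theorem wK15 : IsW actK ((0, 0, 0, 1) : Q) := by
  refine isW_of actK _ (-1) (-1) (1) (1) ?_ ?_ ?_ ?_ <;>
  · rw [actK_apply]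
    simp only [toBlocks_fromBlocks₁₁, toBlocks_fromBlocks₁₂, toBlocks_fromBlocks₂₁,
      toBlocks_fromBlocks₂₂]
    apply Q_ext <;> simp only [fK, r0, pol, trc, mul2_00, mul2_01, mul2_10, mul2_11, tl_00, tl_01, tl_10, tl_11, ad_00, ad_01, ad_10,
    ad_11, one_00, one_01, one_10, one_11, Matrix.add_apply, Matrix.sub_apply, Matrix.neg_apply,
    Matrix.zero_apply, Matrix.smul_apply, Prod.fst_add, Prod.snd_add, Prod.fst_sub, Prod.snd_sub,
    Prod.fst_neg, Prod.snd_neg, Prod.smul_fst, Prod.smul_snd, smul_eq_mul,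
    e00_00, e00_01, e00_10, e00_11, e01_00, e01_01, e01_10, e01_11, e10_00, e10_01, e10_10, e10_11, e11_00, e11_01, e11_10, e11_11, hh_00, hh_01, hh_10, hh_11] <;> norm_num

theorem spanK (Z : Q) : Z ∈ Submodule.span ℂ {u | IsW actK u} := by
  have h : Z = (Z.1 0 1) • ((e01, 0, 0, 0) : Q)
    + (Z.1 1 0) • ((e10, 0, 0, 0) : Q)
    + (Z.2.1 0 0) • ((0, e00, 0, 0) : Q)
    + (Z.2.1 0 1) • ((0, e01, 0, 0) : Q)
    + (Z.2.1 1 0) • ((0, e10, 0, 0) : Q)
    + (Z.2.1 1 1) • ((0, e11, 0, 0) : Q)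
    + (Z.2.2.1 0 0) • ((0, 0, e00, 0) : Q)
    + (Z.2.2.1 0 1) • ((0, 0, e01, 0) : Q)
    + (Z.2.2.1 1 0) • ((0, 0, e10, 0) : Q)
    + (Z.2.2.1 1 1) • ((0, 0, e11, 0) : Q)
    + (Z.2.2.2 0 1) • ((0, 0, 0, e01) : Q)
    + (Z.2.2.2 1 0) • ((0, 0, 0, e10) : Q)
    + (((Z.1 0 0 - Z.1 1 1) / 2)) • ((hh, 0, 0, 0) : Q)
    + (((Z.2.2.2 0 0 - Z.2.2.2 1 1) / 2)) • ((0, 0, 0, hh) : Q)
    + (((Z.1 0 0 + Z.1 1 1) / 2)) • ((1, 0, 0, 0) : Q)
    + (((Z.2.2.2 0 0 + Z.2.2.2 1 1) / 2)) • ((0, 0, 0, 1) : Q) := by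
    apply Q_ext <;> simp only [mul2_00, mul2_01, mul2_10, mul2_11, tl_00, tl_01, tl_10, tl_11, ad_00, ad_01, ad_10,
    ad_11, one_00, one_01, one_10, one_11, Matrix.add_apply, Matrix.sub_apply, Matrix.neg_apply,
    Matrix.zero_apply, Matrix.smul_apply, Prod.fst_add, Prod.snd_add, Prod.fst_sub, Prod.snd_sub,
    Prod.fst_neg, Prod.snd_neg, Prod.smul_fst, Prod.smul_snd, smul_eq_mul,
    e00_00, e00_01, e00_10, e00_11, e01_00, e01_01, e01_10, e01_11, e10_00, e10_01, e10_10, e10_11, e11_00, e11_01, e11_10, e11_11, hh_00, hh_01, hh_10, hh_11] <;> ring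
  rw [h]
  refine (Submodule.add_mem _ (Submodule.add_mem _ (Submodule.add_mem _ (Submodule.add_mem _ (Submodule.add_mem _ (Submodule.add_mem _ (Submodule.add_mem _ (Submodule.add_mem _ (Submodule.add_mem _ (Submodule.add_mem _ (Submodule.add_mem _ (Submodule.add_mem _ (Submodule.add_mem _ (Submodule.add_mem _ (Submodule.add_mem _ (Submodule.smul_mem _ _ (Submodule.subset_span wK0))
    (Submodule.smul_mem _ _ (Submodule.subset_span wK1)))
    (Submodule.smul_mem _ _ (Submodule.subset_span wK2)))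
    (Submodule.smul_mem _ _ (Submodule.subset_span wK3)))
    (Submodule.smul_mem _ _ (Submodule.subset_span wK4)))
    (Submodule.smul_mem _ _ (Submodule.subset_span wK5)))
    (Submodule.smul_mem _ _ (Submodule.subset_span wK6)))
    (Submodule.smul_mem _ _ (Submodule.subset_span wK7)))
    (Submodule.smul_mem _ _ (Submodule.subset_span wK8)))
    (Submodule.smul_mem _ _ (Submodule.subset_span wK9)))
    (Submodule.smul_mem _ _ (Submodule.subset_span wK10)))
    (Submodule.smul_mem _ _ (Submodule.subset_span wK11)))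
    (Submodule.smul_mem _ _ (Submodule.subset_span wK12)))
    (Submodule.smul_mem _ _ (Submodule.subset_span wK13)))
    (Submodule.smul_mem _ _ (Submodule.subset_span wK14)))
    (Submodule.smul_mem _ _ (Submodule.subset_span wK15)))

theorem wN0 : IsW actN ((e01, 0, 0, 0) : Q) := by
  refine isW_of actN _ (1) (-1) (0) (0) ?_ ?_ ?_ ?_ <;>
  · rw [actN_apply]
    simp only [toBlocks_fromBlocks₁₁, toBlocks_fromBlocks₁₂, toBlocks_fromBlocks₂₁,
      toBlocks_fromBlocks₂₂]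
    apply Q_ext <;> simp only [fN, r0, pol, trc, mul2_00, mul2_01, mul2_10, mul2_11, tl_00, tl_01, tl_10, tl_11, ad_00, ad_01, ad_10,
    ad_11, one_00, one_01, one_10, one_11, Matrix.add_apply, Matrix.sub_apply, Matrix.neg_apply,
    Matrix.zero_apply, Matrix.smul_apply, Prod.fst_add, Prod.snd_add, Prod.fst_sub, Prod.snd_sub,
    Prod.fst_neg, Prod.snd_neg, Prod.smul_fst, Prod.smul_snd, smul_eq_mul,
    e00_00, e00_01, e00_10, e00_11, e01_00, e01_01, e01_10, e01_11, e10_00, e10_01, e10_10, e10_11, e11_00, e11_01, e11_10, e11_11, hh_00, hh_01, hh_10, hh_11] <;> norm_num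
theorem wN1 : IsW actN ((e10, 0, 0, 0) : Q) := by
  refine isW_of actN _ (-1) (1) (0) (0) ?_ ?_ ?_ ?_ <;>
  · rw [actN_apply]
    simp only [toBlocks_fromBlocks₁₁, toBlocks_fromBlocks₁₂, toBlocks_fromBlocks₂₁,
      toBlocks_fromBlocks₂₂]
    apply Q_ext <;> simp only [fN, r0, pol, trc, mul2_00, mul2_01, mul2_10, mul2_11, tl_00, tl_01, tl_10, tl_11, ad_00, ad_01, ad_10,
    ad_11, one_00, one_01, one_10, one_11, Matrix.add_apply, Matrix.sub_apply, Matrix.neg_apply,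
    Matrix.zero_apply, Matrix.smul_apply, Prod.fst_add, Prod.snd_add, Prod.fst_sub, Prod.snd_sub,
    Prod.fst_neg, Prod.snd_neg, Prod.smul_fst, Prod.smul_snd, smul_eq_mul,
    e00_00, e00_01, e00_10, e00_11, e01_00, e01_01, e01_10, e01_11, e10_00, e10_01, e10_10, e10_11, e11_00, e11_01, e11_10, e11_11, hh_00, hh_01, hh_10, hh_11] <;> norm_num
theorem wN2 : IsW actN ((0, e00, 0, 0) : Q) := by
  refine isW_of actN _ (1) (0) (-1) (0) ?_ ?_ ?_ ?_ <;>
  · rw [actN_apply]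
    simp only [toBlocks_fromBlocks₁₁, toBlocks_fromBlocks₁₂, toBlocks_fromBlocks₂₁,
      toBlocks_fromBlocks₂₂]
    apply Q_ext <;> simp only [fN, r0, pol, trc, mul2_00, mul2_01, mul2_10, mul2_11, tl_00, tl_01, tl_10, tl_11, ad_00, ad_01, ad_10,
    ad_11, one_00, one_01, one_10, one_11, Matrix.add_apply, Matrix.sub_apply, Matrix.neg_apply,
    Matrix.zero_apply, Matrix.smul_apply, Prod.fst_add, Prod.snd_add, Prod.fst_sub, Prod.snd_sub,
    Prod.fst_neg, Prod.snd_neg, Prod.smul_fst, Prod.smul_snd, smul_eq_mul,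
    e00_00, e00_01, e00_10, e00_11, e01_00, e01_01, e01_10, e01_11, e10_00, e10_01, e10_10, e10_11, e11_00, e11_01, e11_10, e11_11, hh_00, hh_01, hh_10, hh_11] <;> norm_num
theorem wN3 : IsW actN ((0, e01, 0, 0) : Q) := by
  refine isW_of actN _ (1) (0) (0) (-1) ?_ ?_ ?_ ?_ <;>
  · rw [actN_apply]
    simp only [toBlocks_fromBlocks₁₁, toBlocks_fromBlocks₁₂, toBlocks_fromBlocks₂₁,
      toBlocks_fromBlocks₂₂]
    apply Q_ext <;> simp only [fN, r0, pol, trc, mul2_00, mul2_01, mul2_10, mul2_11, tl_00, tl_01, tl_10, tl_11, ad_00, ad_01, ad_10,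
    ad_11, one_00, one_01, one_10, one_11, Matrix.add_apply, Matrix.sub_apply, Matrix.neg_apply,
    Matrix.zero_apply, Matrix.smul_apply, Prod.fst_add, Prod.snd_add, Prod.fst_sub, Prod.snd_sub,
    Prod.fst_neg, Prod.snd_neg, Prod.smul_fst, Prod.smul_snd, smul_eq_mul,
    e00_00, e00_01, e00_10, e00_11, e01_00, e01_01, e01_10, e01_11, e10_00, e10_01, e10_10, e10_11, e11_00, e11_01, e11_10, e11_11, hh_00, hh_01, hh_10, hh_11] <;> norm_num
theorem wN4 : IsW actN ((0, e10, 0, 0) : Q) := by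
  refine isW_of actN _ (0) (1) (-1) (0) ?_ ?_ ?_ ?_ <;>
  · rw [actN_apply]
    simp only [toBlocks_fromBlocks₁₁, toBlocks_fromBlocks₁₂, toBlocks_fromBlocks₂₁,
      toBlocks_fromBlocks₂₂]
    apply Q_ext <;> simp only [fN, r0, pol, trc, mul2_00, mul2_01, mul2_10, mul2_11, tl_00, tl_01, tl_10, tl_11, ad_00, ad_01, ad_10,
    ad_11, one_00, one_01, one_10, one_11, Matrix.add_apply, Matrix.sub_apply, Matrix.neg_apply,
    Matrix.zero_apply, Matrix.smul_apply, Prod.fst_add, Prod.snd_add, Prod.fst_sub, Prod.snd_sub,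
    Prod.fst_neg, Prod.snd_neg, Prod.smul_fst, Prod.smul_snd, smul_eq_mul,
    e00_00, e00_01, e00_10, e00_11, e01_00, e01_01, e01_10, e01_11, e10_00, e10_01, e10_10, e10_11, e11_00, e11_01, e11_10, e11_11, hh_00, hh_01, hh_10, hh_11] <;> norm_num
theorem wN5 : IsW actN ((0, e11, 0, 0) : Q) := by
  refine isW_of actN _ (0) (1) (0) (-1) ?_ ?_ ?_ ?_ <;>
  · rw [actN_apply]
    simp only [toBlocks_fromBlocks₁₁, toBlocks_fromBlocks₁₂, toBlocks_fromBlocks₂₁,
      toBlocks_fromBlocks₂₂]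
    apply Q_ext <;> simp only [fN, r0, pol, trc, mul2_00, mul2_01, mul2_10, mul2_11, tl_00, tl_01, tl_10, tl_11, ad_00, ad_01, ad_10,
    ad_11, one_00, one_01, one_10, one_11, Matrix.add_apply, Matrix.sub_apply, Matrix.neg_apply,
    Matrix.zero_apply, Matrix.smul_apply, Prod.fst_add, Prod.snd_add, Prod.fst_sub, Prod.snd_sub,
    Prod.fst_neg, Prod.snd_neg, Prod.smul_fst, Prod.smul_snd, smul_eq_mul,
    e00_00, e00_01, e00_10, e00_11, e01_00, e01_01, e01_10, e01_11, e10_00, e10_01, e10_10, e10_11, e11_00, e11_01, e11_10, e11_11, hh_00, hh_01, hh_10, hh_11] <;> norm_num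
theorem wN6 : IsW actN ((0, 0, e00, 0) : Q) := by
  refine isW_of actN _ (-1) (0) (1) (0) ?_ ?_ ?_ ?_ <;>
  · rw [actN_apply]
    simp only [toBlocks_fromBlocks₁₁, toBlocks_fromBlocks₁₂, toBlocks_fromBlocks₂₁,
      toBlocks_fromBlocks₂₂]
    apply Q_ext <;> simp only [fN, r0, pol, trc, mul2_00, mul2_01, mul2_10, mul2_11, tl_00, tl_01, tl_10, tl_11, ad_00, ad_01, ad_10,
    ad_11, one_00, one_01, one_10, one_11, Matrix.add_apply, Matrix.sub_apply, Matrix.neg_apply,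
    Matrix.zero_apply, Matrix.smul_apply, Prod.fst_add, Prod.snd_add, Prod.fst_sub, Prod.snd_sub,
    Prod.fst_neg, Prod.snd_neg, Prod.smul_fst, Prod.smul_snd, smul_eq_mul,
    e00_00, e00_01, e00_10, e00_11, e01_00, e01_01, e01_10, e01_11, e10_00, e10_01, e10_10, e10_11, e11_00, e11_01, e11_10, e11_11, hh_00, hh_01, hh_10, hh_11] <;> norm_num
theorem wN7 : IsW actN ((0, 0, e01, 0) : Q) := by
  refine isW_of actN _ (0) (-1) (1) (0) ?_ ?_ ?_ ?_ <;>
  · rw [actN_apply]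
    simp only [toBlocks_fromBlocks₁₁, toBlocks_fromBlocks₁₂, toBlocks_fromBlocks₂₁,
      toBlocks_fromBlocks₂₂]
    apply Q_ext <;> simp only [fN, r0, pol, trc, mul2_00, mul2_01, mul2_10, mul2_11, tl_00, tl_01, tl_10, tl_11, ad_00, ad_01, ad_10,
    ad_11, one_00, one_01, one_10, one_11, Matrix.add_apply, Matrix.sub_apply, Matrix.neg_apply,
    Matrix.zero_apply, Matrix.smul_apply, Prod.fst_add, Prod.snd_add, Prod.fst_sub, Prod.snd_sub,
    Prod.fst_neg, Prod.snd_neg, Prod.smul_fst, Prod.smul_snd, smul_eq_mul,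
    e00_00, e00_01, e00_10, e00_11, e01_00, e01_01, e01_10, e01_11, e10_00, e10_01, e10_10, e10_11, e11_00, e11_01, e11_10, e11_11, hh_00, hh_01, hh_10, hh_11] <;> norm_num
theorem wN8 : IsW actN ((0, 0, e10, 0) : Q) := by
  refine isW_of actN _ (-1) (0) (0) (1) ?_ ?_ ?_ ?_ <;>
  · rw [actN_apply]
    simp only [toBlocks_fromBlocks₁₁, toBlocks_fromBlocks₁₂, toBlocks_fromBlocks₂₁,
      toBlocks_fromBlocks₂₂]
    apply Q_ext <;> simp only [fN, r0, pol, trc, mul2_00, mul2_01, mul2_10, mul2_11, tl_00, tl_01, tl_10, tl_11, ad_00, ad_01, ad_10,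
    ad_11, one_00, one_01, one_10, one_11, Matrix.add_apply, Matrix.sub_apply, Matrix.neg_apply,
    Matrix.zero_apply, Matrix.smul_apply, Prod.fst_add, Prod.snd_add, Prod.fst_sub, Prod.snd_sub,
    Prod.fst_neg, Prod.snd_neg, Prod.smul_fst, Prod.smul_snd, smul_eq_mul,
    e00_00, e00_01, e00_10, e00_11, e01_00, e01_01, e01_10, e01_11, e10_00, e10_01, e10_10, e10_11, e11_00, e11_01, e11_10, e11_11, hh_00, hh_01, hh_10, hh_11] <;> norm_num
theorem wN9 : IsW actN ((0, 0, e11, 0) : Q) := by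
  refine isW_of actN _ (0) (-1) (0) (1) ?_ ?_ ?_ ?_ <;>
  · rw [actN_apply]
    simp only [toBlocks_fromBlocks₁₁, toBlocks_fromBlocks₁₂, toBlocks_fromBlocks₂₁,
      toBlocks_fromBlocks₂₂]
    apply Q_ext <;> simp only [fN, r0, pol, trc, mul2_00, mul2_01, mul2_10, mul2_11, tl_00, tl_01, tl_10, tl_11, ad_00, ad_01, ad_10,
    ad_11, one_00, one_01, one_10, one_11, Matrix.add_apply, Matrix.sub_apply, Matrix.neg_apply,
    Matrix.zero_apply, Matrix.smul_apply, Prod.fst_add, Prod.snd_add, Prod.fst_sub, Prod.snd_sub,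
    Prod.fst_neg, Prod.snd_neg, Prod.smul_fst, Prod.smul_snd, smul_eq_mul,
    e00_00, e00_01, e00_10, e00_11, e01_00, e01_01, e01_10, e01_11, e10_00, e10_01, e10_10, e10_11, e11_00, e11_01, e11_10, e11_11, hh_00, hh_01, hh_10, hh_11] <;> norm_num
theorem wN10 : IsW actN ((0, 0, 0, e01) : Q) := by
  refine isW_of actN _ (0) (0) (1) (-1) ?_ ?_ ?_ ?_ <;>
  · rw [actN_apply]
    simp only [toBlocks_fromBlocks₁₁, toBlocks_fromBlocks₁₂, toBlocks_fromBlocks₂₁,
      toBlocks_fromBlocks₂₂]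
    apply Q_ext <;> simp only [fN, r0, pol, trc, mul2_00, mul2_01, mul2_10, mul2_11, tl_00, tl_01, tl_10, tl_11, ad_00, ad_01, ad_10,
    ad_11, one_00, one_01, one_10, one_11, Matrix.add_apply, Matrix.sub_apply, Matrix.neg_apply,
    Matrix.zero_apply, Matrix.smul_apply, Prod.fst_add, Prod.snd_add, Prod.fst_sub, Prod.snd_sub,
    Prod.fst_neg, Prod.snd_neg, Prod.smul_fst, Prod.smul_snd, smul_eq_mul,
    e00_00, e00_01, e00_10, e00_11, e01_00, e01_01, e01_10, e01_11, e10_00, e10_01, e10_10, e10_11, e11_00, e11_01, e11_10, e11_11, hh_00, hh_01, hh_10, hh_11] <;> norm_num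
theorem wN11 : IsW actN ((0, 0, 0, e10) : Q) := by
  refine isW_of actN _ (0) (0) (-1) (1) ?_ ?_ ?_ ?_ <;>
  · rw [actN_apply]
    simp only [toBlocks_fromBlocks₁₁, toBlocks_fromBlocks₁₂, toBlocks_fromBlocks₂₁,
      toBlocks_fromBlocks₂₂]
    apply Q_ext <;> simp only [fN, r0, pol, trc, mul2_00, mul2_01, mul2_10, mul2_11, tl_00, tl_01, tl_10, tl_11, ad_00, ad_01, ad_10,
    ad_11, one_00, one_01, one_10, one_11, Matrix.add_apply, Matrix.sub_apply, Matrix.neg_apply,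
    Matrix.zero_apply, Matrix.smul_apply, Prod.fst_add, Prod.snd_add, Prod.fst_sub, Prod.snd_sub,
    Prod.fst_neg, Prod.snd_neg, Prod.smul_fst, Prod.smul_snd, smul_eq_mul,
    e00_00, e00_01, e00_10, e00_11, e01_00, e01_01, e01_10, e01_11, e10_00, e10_01, e10_10, e10_11, e11_00, e11_01, e11_10, e11_11, hh_00, hh_01, hh_10, hh_11] <;> norm_num
theorem wN12 : IsW actN ((hh, 0, 0, 0) : Q) := by
  refine isW_of actN _ (0) (0) (0) (0) ?_ ?_ ?_ ?_ <;>
  · rw [actN_apply]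
    simp only [toBlocks_fromBlocks₁₁, toBlocks_fromBlocks₁₂, toBlocks_fromBlocks₂₁,
      toBlocks_fromBlocks₂₂]
    apply Q_ext <;> simp only [fN, r0, pol, trc, mul2_00, mul2_01, mul2_10, mul2_11, tl_00, tl_01, tl_10, tl_11, ad_00, ad_01, ad_10,
    ad_11, one_00, one_01, one_10, one_11, Matrix.add_apply, Matrix.sub_apply, Matrix.neg_apply,
    Matrix.zero_apply, Matrix.smul_apply, Prod.fst_add, Prod.snd_add, Prod.fst_sub, Prod.snd_sub,
    Prod.fst_neg, Prod.snd_neg, Prod.smul_fst, Prod.smul_snd, smul_eq_mul,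
    e00_00, e00_01, e00_10, e00_11, e01_00, e01_01, e01_10, e01_11, e10_00, e10_01, e10_10, e10_11, e11_00, e11_01, e11_10, e11_11, hh_00, hh_01, hh_10, hh_11] <;> norm_num
theorem wN13 : IsW actN ((0, 0, 0, hh) : Q) := by
  refine isW_of actN _ (0) (0) (0) (0) ?_ ?_ ?_ ?_ <;>
  · rw [actN_apply]
    simp only [toBlocks_fromBlocks₁₁, toBlocks_fromBlocks₁₂, toBlocks_fromBlocks₂₁,
      toBlocks_fromBlocks₂₂]
    apply Q_ext <;> simp only [fN, r0, pol, trc, mul2_00, mul2_01, mul2_10, mul2_11, tl_00, tl_01, tl_10, tl_11, ad_00, ad_01, ad_10,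
    ad_11, one_00, one_01, one_10, one_11, Matrix.add_apply, Matrix.sub_apply, Matrix.neg_apply,
    Matrix.zero_apply, Matrix.smul_apply, Prod.fst_add, Prod.snd_add, Prod.fst_sub, Prod.snd_sub,
    Prod.fst_neg, Prod.snd_neg, Prod.smul_fst, Prod.smul_snd, smul_eq_mul,
    e00_00, e00_01, e00_10, e00_11, e01_00, e01_01, e01_10, e01_11, e10_00, e10_01, e10_10, e10_11, e11_00, e11_01, e11_10, e11_11, hh_00, hh_01, hh_10, hh_11] <;> norm_num
theorem wN14 : IsW actN ((1, 0, 0, 1) : Q) := by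
  refine isW_of actN _ (0) (0) (0) (0) ?_ ?_ ?_ ?_ <;>
  · rw [actN_apply]
    simp only [toBlocks_fromBlocks₁₁, toBlocks_fromBlocks₁₂, toBlocks_fromBlocks₂₁,
      toBlocks_fromBlocks₂₂]
    apply Q_ext <;> simp only [fN, r0, pol, trc, mul2_00, mul2_01, mul2_10, mul2_11, tl_00, tl_01, tl_10, tl_11, ad_00, ad_01, ad_10,
    ad_11, one_00, one_01, one_10, one_11, Matrix.add_apply, Matrix.sub_apply, Matrix.neg_apply,
    Matrix.zero_apply, Matrix.smul_apply, Prod.fst_add, Prod.snd_add, Prod.fst_sub, Prod.snd_sub,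
    Prod.fst_neg, Prod.snd_neg, Prod.smul_fst, Prod.smul_snd, smul_eq_mul,
    e00_00, e00_01, e00_10, e00_11, e01_00, e01_01, e01_10, e01_11, e10_00, e10_01, e10_10, e10_11, e11_00, e11_01, e11_10, e11_11, hh_00, hh_01, hh_10, hh_11] <;> norm_num
theorem wN15 : IsW actN ((0, 0, 0, 1) : Q) := by
  refine isW_of actN _ (1) (1) (-1) (-1) ?_ ?_ ?_ ?_ <;>
  · rw [actN_apply]
    simp only [toBlocks_fromBlocks₁₁, toBlocks_fromBlocks₁₂, toBlocks_fromBlocks₂₁,
      toBlocks_fromBlocks₂₂]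
    apply Q_ext <;> simp only [fN, r0, pol, trc, mul2_00, mul2_01, mul2_10, mul2_11, tl_00, tl_01, tl_10, tl_11, ad_00, ad_01, ad_10,
    ad_11, one_00, one_01, one_10, one_11, Matrix.add_apply, Matrix.sub_apply, Matrix.neg_apply,
    Matrix.zero_apply, Matrix.smul_apply, Prod.fst_add, Prod.snd_add, Prod.fst_sub, Prod.snd_sub,
    Prod.fst_neg, Prod.snd_neg, Prod.smul_fst, Prod.smul_snd, smul_eq_mul,
    e00_00, e00_01, e00_10, e00_11, e01_00, e01_01, e01_10, e01_11, e10_00, e10_01, e10_10, e10_11, e11_00, e11_01, e11_10, e11_11, hh_00, hh_01, hh_10, hh_11] <;> norm_num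

theorem spanN (Z : Q) : Z ∈ Submodule.span ℂ {u | IsW actN u} := by
  have h : Z = (Z.1 0 1) • ((e01, 0, 0, 0) : Q)
    + (Z.1 1 0) • ((e10, 0, 0, 0) : Q)
    + (Z.2.1 0 0) • ((0, e00, 0, 0) : Q)
    + (Z.2.1 0 1) • ((0, e01, 0, 0) : Q)
    + (Z.2.1 1 0) • ((0, e10, 0, 0) : Q)
    + (Z.2.1 1 1) • ((0, e11, 0, 0) : Q)
    + (Z.2.2.1 0 0) • ((0, 0, e00, 0) : Q)
    + (Z.2.2.1 0 1) • ((0, 0, e01, 0) : Q)
    + (Z.2.2.1 1 0) • ((0, 0, e10, 0) : Q)
    + (Z.2.2.1 1 1) • ((0, 0, e11, 0) : Q)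
    + (Z.2.2.2 0 1) • ((0, 0, 0, e01) : Q)
    + (Z.2.2.2 1 0) • ((0, 0, 0, e10) : Q)
    + (((Z.1 0 0 - Z.1 1 1) / 2)) • ((hh, 0, 0, 0) : Q)
    + (((Z.2.2.2 0 0 - Z.2.2.2 1 1) / 2)) • ((0, 0, 0, hh) : Q)
    + (((Z.1 0 0 + Z.1 1 1) / 2)) • ((1, 0, 0, 1) : Q)
    + (((Z.2.2.2 0 0 + Z.2.2.2 1 1 - Z.1 0 0 - Z.1 1 1) / 2)) • ((0, 0, 0, 1) : Q) := by
    apply Q_ext <;> simp only [mul2_00, mul2_01, mul2_10, mul2_11, tl_00, tl_01, tl_10, tl_11, ad_00, ad_01, ad_10,
    ad_11, one_00, one_01, one_10, one_11, Matrix.add_apply, Matrix.sub_apply, Matrix.neg_apply,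
    Matrix.zero_apply, Matrix.smul_apply, Prod.fst_add, Prod.snd_add, Prod.fst_sub, Prod.snd_sub,
    Prod.fst_neg, Prod.snd_neg, Prod.smul_fst, Prod.smul_snd, smul_eq_mul,
    e00_00, e00_01, e00_10, e00_11, e01_00, e01_01, e01_10, e01_11, e10_00, e10_01, e10_10, e10_11, e11_00, e11_01, e11_10, e11_11, hh_00, hh_01, hh_10, hh_11] <;> ring
  rw [h]
  refine (Submodule.add_mem _ (Submodule.add_mem _ (Submodule.add_mem _ (Submodule.add_mem _ (Submodule.add_mem _ (Submodule.add_mem _ (Submodule.add_mem _ (Submodule.add_mem _ (Submodule.add_mem _ (Submodule.add_mem _ (Submodule.add_mem _ (Submodule.add_mem _ (Submodule.add_mem _ (Submodule.add_mem _ (Submodule.add_mem _ (Submodule.smul_mem _ _ (Submodule.subset_span wN0))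
    (Submodule.smul_mem _ _ (Submodule.subset_span wN1)))
    (Submodule.smul_mem _ _ (Submodule.subset_span wN2)))
    (Submodule.smul_mem _ _ (Submodule.subset_span wN3)))
    (Submodule.smul_mem _ _ (Submodule.subset_span wN4)))
    (Submodule.smul_mem _ _ (Submodule.subset_span wN5)))
    (Submodule.smul_mem _ _ (Submodule.subset_span wN6)))
    (Submodule.smul_mem _ _ (Submodule.subset_span wN7)))
    (Submodule.smul_mem _ _ (Submodule.subset_span wN8)))
    (Submodule.smul_mem _ _ (Submodule.subset_span wN9)))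
    (Submodule.smul_mem _ _ (Submodule.subset_span wN10)))
    (Submodule.smul_mem _ _ (Submodule.subset_span wN11)))
    (Submodule.smul_mem _ _ (Submodule.subset_span wN12)))
    (Submodule.smul_mem _ _ (Submodule.subset_span wN13)))
    (Submodule.smul_mem _ _ (Submodule.subset_span wN14)))
    (Submodule.smul_mem _ _ (Submodule.subset_span wN15)))

/-- the adjoint module `gl(2|2)` -/
noncomputable def modE : SMod 2 2 Q where
  par := parQ
  act := actE
  par_par := fun Z => by simp [parQ_apply]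
  par_even := fun A hA Z => by
    obtain ⟨a, d, rfl⟩ := even_form hA
    simpa [actE_apply] using fE_par_even a d Z
  par_odd := fun A hA Z => by
    obtain ⟨b, c, rfl⟩ := odd_form hA
    simpa [actE_apply] using fE_par_odd b c Z
  brac_even := fun A B hA hB Z => by
    obtain ⟨a, d, rfl⟩ := even_form hA
    rcases hB with hB | hB
    · obtain ⟨a', d', rfl⟩ := even_form hB
      rw [comm_ee]
      simpa [actE_apply] using fE_ee a d a' d' Z
    · obtain ⟨b, c, rfl⟩ := odd_form hB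
      rw [comm_eo]
      simpa [actE_apply] using fE_eo a d b c Z
  brac_odd := fun A B hA hB Z => by
    obtain ⟨b, c, rfl⟩ := odd_form hA
    obtain ⟨b', c', rfl⟩ := odd_form hB
    rw [anti_oo]
    simpa [actE_apply] using fE_oo b c b' c' Z
  rational := fun v => ⟨⊤, inferInstance, trivial, fun _ _ _ => trivial, fun Z _ => by
    have h : {u : Q | u ∈ (⊤ : Submodule ℂ Q) ∧ ∃ w : Ix 2 2 → ℤ,
        ∀ i, actE (Matrix.single i i 1) u = (w i : ℂ) • u} = {u | IsW actE u} := by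
      ext u; simp [IsW]
    rw [h]; exact spanE Z⟩

/-- the Kac module `K(0) ⊗ Ber` -/
noncomputable def modK : SMod 2 2 Q where
  par := parQ
  act := actK
  par_par := fun Z => by simp [parQ_apply]
  par_even := fun A hA Z => by
    obtain ⟨a, d, rfl⟩ := even_form hA
    simpa [actK_apply] using fK_par_even a d Z
  par_odd := fun A hA Z => by
    obtain ⟨b, c, rfl⟩ := odd_form hA
    simpa [actK_apply] using fK_par_odd b c Z
  brac_even := fun A B hA hB Z => by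
    obtain ⟨a, d, rfl⟩ := even_form hA
    rcases hB with hB | hB
    · obtain ⟨a', d', rfl⟩ := even_form hB
      rw [comm_ee]
      simpa [actK_apply] using fK_ee a d a' d' Z
    · obtain ⟨b, c, rfl⟩ := odd_form hB
      rw [comm_eo]
      simpa [actK_apply] using fK_eo a d b c Z
  brac_odd := fun A B hA hB Z => by
    obtain ⟨b, c, rfl⟩ := odd_form hA
    obtain ⟨b', c', rfl⟩ := odd_form hB
    rw [anti_oo]
    simpa [actK_apply] using fK_oo b c b' c' Z
  rational := fun v => ⟨⊤, inferInstance, trivial, fun _ _ _ => trivial, fun Z _ => by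
    have h : {u : Q | u ∈ (⊤ : Submodule ℂ Q) ∧ ∃ w : Ix 2 2 → ℤ,
        ∀ i, actK (Matrix.single i i 1) u = (w i : ℂ) • u} = {u | IsW actK u} := by
      ext u; simp [IsW]
    rw [h]; exact spanK Z⟩

/-- the extension of `sl(2|2)` by `Ber` -/
noncomputable def modN : SMod 2 2 Q where
  par := parQ
  act := actN
  par_par := fun Z => by simp [parQ_apply]
  par_even := fun A hA Z => by
    obtain ⟨a, d, rfl⟩ := even_form hA
    simpa [actN_apply] using fN_par_even a d Z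
  par_odd := fun A hA Z => by
    obtain ⟨b, c, rfl⟩ := odd_form hA
    simpa [actN_apply] using fN_par_odd b c Z
  brac_even := fun A B hA hB Z => by
    obtain ⟨a, d, rfl⟩ := even_form hA
    rcases hB with hB | hB
    · obtain ⟨a', d', rfl⟩ := even_form hB
      rw [comm_ee]
      simpa [actN_apply] using fN_ee a d a' d' Z
    · obtain ⟨b, c, rfl⟩ := odd_form hB
      rw [comm_eo]
      simpa [actN_apply] using fN_eo a d b c Z
  brac_odd := fun A B hA hB Z => by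
    obtain ⟨b, c, rfl⟩ := odd_form hA
    obtain ⟨b', c', rfl⟩ := odd_form hB
    rw [anti_oo]
    simpa [actN_apply] using fN_oo b c b' c' Z
  rational := fun v => ⟨⊤, inferInstance, trivial, fun _ _ _ => trivial, fun Z _ => by
    have h : {u : Q | u ∈ (⊤ : Submodule ℂ Q) ∧ ∃ w : Ix 2 2 → ℤ,
        ∀ i, actN (Matrix.single i i 1) u = (w i : ℂ) • u} = {u | IsW actN u} := by
      ext u; simp [IsW]
    rw [h]; exact spanN Z⟩

end Pool.Agent.H39.RP
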