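import Pool.Agent.H39.RP.Tensor

/-! Three explicit 16-dimensional `GL(2|2)`-modules, on quadruples of `2 × 2`-matrices. -/

set_option linter.unusedSimpArgs false
set_option linter.unusedVariables false

namespace Pool.Agent.H39.RP

open Matrix

/-- `2 × 2` matrices -/
abbrev M2 := Matrix (Fin 2) (Fin 2) ℂ

/-- quadruples of `2 × 2` matrices, thought of as the blocks `11, 12, 21, 22` -/
abbrev Q := M2 × M2 × M2 × M2

/-- parity on quadruples -/
def parQ : Q →ₗ[ℂ] Q where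
  toFun Z := (Z.1, -Z.2.1, -Z.2.2.1, Z.2.2.2)
  map_add' A B := by simp only [Prod.fst_add, Prod.snd_add, neg_add, Prod.mk_add_mk]
  map_smul' c A := by
    simp only [Prod.smul_fst, Prod.smul_snd, ← smul_neg, Prod.smul_mk, RingHom.id_apply]

/-- the traceless part -/
noncomputable def tl (A : M2) : M2 := !![(A 0 0 - A 1 1) / 2, A 0 1; A 1 0, (A 1 1 - A 0 0) / 2]

/-- the adjugate -/
def ad (A : M2) : M2 := !![A 1 1, -A 0 1; -A 1 0, A 0 0]

/-- polar form of the determinant -/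
def pol (A B : M2) : ℂ := A 0 0 * B 1 1 + A 1 1 * B 0 0 - A 0 1 * B 1 0 - A 1 0 * B 0 1

/-- trace -/
def trc (A : M2) : ℂ := A 0 0 + A 1 1

/-- adjoint module `gl(2|2)` -/
def fE (a b c d : M2) (Z : Q) : Q :=
  (a * Z.1 - Z.1 * a + (b * Z.2.2.1 + Z.2.1 * c),
   a * Z.2.1 - Z.2.1 * d + (b * Z.2.2.2 - Z.1 * b),
   d * Z.2.2.1 - Z.2.2.1 * a + (c * Z.1 - Z.2.2.2 * c),
   d * Z.2.2.2 - Z.2.2.2 * d + (c * Z.2.1 + Z.2.2.1 * b))

/-- the Kac module `K(0) ⊗ Ber` -/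
noncomputable def fK (a b c d : M2) (Z : Q) : Q :=
  (a * Z.1 - Z.1 * a + tl (b * Z.2.2.1 + Z.2.1 * c)
      + ((trc a - trc d) * (trc Z.1 / 2)) • (1 : M2),
   a * Z.2.1 - Z.2.1 * d + (b * tl Z.2.2.2 - tl Z.1 * b) + (trc Z.1 / 2) • ad c,
   d * Z.2.2.1 - Z.2.2.1 * a + (c * tl Z.1 - tl Z.2.2.2 * c),
   d * Z.2.2.2 - Z.2.2.2 * d + tl (c * Z.2.1 + Z.2.2.1 * b)
      + (-((trc a - trc d) * (trc Z.2.2.2 / 2)) + pol c Z.2.2.1) • (1 : M2))

/-- the part of supertrace zero of the last block -/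
noncomputable def r0 (Z : Q) : M2 := Z.2.2.2 - ((trc Z.2.2.2 - trc Z.1) / 2) • (1 : M2)

/-- the extension of `sl(2|2)` by `Ber` -/
noncomputable def fN (a b c d : M2) (Z : Q) : Q :=
  (a * Z.1 - Z.1 * a + (b * Z.2.2.1 + Z.2.1 * c),
   a * Z.2.1 - Z.2.1 * d + (b * r0 Z - Z.1 * b),
   d * Z.2.2.1 - Z.2.2.1 * a + (c * Z.1 - r0 Z * c),
   d * r0 Z - r0 Z * d + (c * Z.2.1 + Z.2.2.1 * b)
      + (((trc a - trc d) * (trc Z.2.2.2 - trc Z.1) + pol b Z.2.1) / 2) • (1 : M2))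

theorem Q_ext {Z W : Q}
    (h1 : Z.1 0 0 = W.1 0 0) (h2 : Z.1 0 1 = W.1 0 1)
    (h3 : Z.1 1 0 = W.1 1 0) (h4 : Z.1 1 1 = W.1 1 1)
    (h5 : Z.2.1 0 0 = W.2.1 0 0) (h6 : Z.2.1 0 1 = W.2.1 0 1)
    (h7 : Z.2.1 1 0 = W.2.1 1 0) (h8 : Z.2.1 1 1 = W.2.1 1 1)
    (h9 : Z.2.2.1 0 0 = W.2.2.1 0 0) (h10 : Z.2.2.1 0 1 = W.2.2.1 0 1)
    (h11 : Z.2.2.1 1 0 = W.2.2.1 1 0) (h12 : Z.2.2.1 1 1 = W.2.2.1 1 1)
    (h13 : Z.2.2.2 0 0 = W.2.2.2 0 0) (h14 : Z.2.2.2 0 1 = W.2.2.2 0 1)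
    (h15 : Z.2.2.2 1 0 = W.2.2.2 1 0) (h16 : Z.2.2.2 1 1 = W.2.2.2 1 1) : Z = W := by
  refine Prod.ext (Matrix.ext fun i j => ?_) (Prod.ext (Matrix.ext fun i j => ?_)
    (Prod.ext (Matrix.ext fun i j => ?_) (Matrix.ext fun i j => ?_))) <;>
  fin_cases i <;> fin_cases j <;> assumption

theorem mul2_00 (A B : M2) : (A * B) 0 0 = A 0 0 * B 0 0 + A 0 1 * B 1 0 := by
  simp [Matrix.mul_apply, Fin.sum_univ_two]
theorem mul2_01 (A B : M2) : (A * B) 0 1 = A 0 0 * B 0 1 + A 0 1 * B 1 1 := by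
  simp [Matrix.mul_apply, Fin.sum_univ_two]
theorem mul2_10 (A B : M2) : (A * B) 1 0 = A 1 0 * B 0 0 + A 1 1 * B 1 0 := by
  simp [Matrix.mul_apply, Fin.sum_univ_two]
theorem mul2_11 (A B : M2) : (A * B) 1 1 = A 1 0 * B 0 1 + A 1 1 * B 1 1 := by
  simp [Matrix.mul_apply, Fin.sum_univ_two]
theorem tl_00 (A : M2) : tl A 0 0 = (A 0 0 - A 1 1) / 2 := rfl
theorem tl_01 (A : M2) : tl A 0 1 = A 0 1 := rfl
theorem tl_10 (A : M2) : tl A 1 0 = A 1 0 := rfl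
theorem tl_11 (A : M2) : tl A 1 1 = (A 1 1 - A 0 0) / 2 := rfl
theorem ad_00 (A : M2) : ad A 0 0 = A 1 1 := rfl
theorem ad_01 (A : M2) : ad A 0 1 = -A 0 1 := rfl
theorem ad_10 (A : M2) : ad A 1 0 = -A 1 0 := rfl
theorem ad_11 (A : M2) : ad A 1 1 = A 0 0 := rfl
theorem one_00 : (1 : M2) 0 0 = 1 := rfl
theorem one_01 : (1 : M2) 0 1 = 0 := rfl
theorem one_10 : (1 : M2) 1 0 = 0 := rfl
theorem one_11 : (1 : M2) 1 1 = 1 := rfl

/-- build the action from a function of the blocks -/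
noncomputable def actOf (f : M2 → M2 → M2 → M2 → Q → Q)
    (hZ : ∀ a b c d Z W, f a b c d (Z + W) = f a b c d Z + f a b c d W)
    (hsZ : ∀ a b c d (t : ℂ) Z, f a b c d (t • Z) = t • f a b c d Z)
    (hA : ∀ a b c d a' b' c' d' Z,
      f (a + a') (b + b') (c + c') (d + d') Z = f a b c d Z + f a' b' c' d' Z)
    (hsA : ∀ a b c d (t : ℂ) Z, f (t • a) (t • b) (t • c) (t • d) Z = t • f a b c d Z) :
    gl 2 2 →ₗ[ℂ] (Q →ₗ[ℂ] Q) where
  toFun A :=
    { toFun := fun Z => f A.toBlocks₁₁ A.toBlocks₁₂ A.toBlocks₂₁ A.toBlocks₂₂ Z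
      map_add' := fun Z W => hZ _ _ _ _ Z W
      map_smul' := fun t Z => hsZ _ _ _ _ t Z }
  map_add' A B := LinearMap.ext fun Z => hA _ _ _ _ _ _ _ _ Z
  map_smul' t A := LinearMap.ext fun Z => hsA _ _ _ _ t Z

/-- the action on `gl(2|2)` -/
noncomputable def actE : gl 2 2 →ₗ[ℂ] (Q →ₗ[ℂ] Q) := actOf fE
  (fun a b c d Z W => by
    apply Q_ext <;> simp only [fE, r0, pol, trc, mul2_00, mul2_01, mul2_10, mul2_11, tl_00, tl_01, tl_10, tl_11, ad_00, ad_01, ad_10,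
      ad_11, one_00, one_01, one_10, one_11, Matrix.add_apply, Matrix.sub_apply,
      Matrix.smul_apply, Prod.fst_add, Prod.snd_add, Prod.smul_fst, Prod.smul_snd, smul_eq_mul] <;> ring)
  (fun a b c d t Z => by
    apply Q_ext <;> simp only [fE, r0, pol, trc, mul2_00, mul2_01, mul2_10, mul2_11, tl_00, tl_01, tl_10, tl_11, ad_00, ad_01, ad_10,
      ad_11, one_00, one_01, one_10, one_11, Matrix.add_apply, Matrix.sub_apply,
      Matrix.smul_apply, Prod.fst_add, Prod.snd_add, Prod.smul_fst, Prod.smul_snd, smul_eq_mul] <;> ring)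
  (fun a b c d a' b' c' d' Z => by
    apply Q_ext <;> simp only [fE, r0, pol, trc, mul2_00, mul2_01, mul2_10, mul2_11, tl_00, tl_01, tl_10, tl_11, ad_00, ad_01, ad_10,
      ad_11, one_00, one_01, one_10, one_11, Matrix.add_apply, Matrix.sub_apply,
      Matrix.smul_apply, Prod.fst_add, Prod.snd_add, Prod.smul_fst, Prod.smul_snd, smul_eq_mul] <;> ring)
  (fun a b c d t Z => by
    apply Q_ext <;> simp only [fE, r0, pol, trc, mul2_00, mul2_01, mul2_10, mul2_11, tl_00, tl_01, tl_10, tl_11, ad_00, ad_01, ad_10,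
      ad_11, one_00, one_01, one_10, one_11, Matrix.add_apply, Matrix.sub_apply,
      Matrix.smul_apply, Prod.fst_add, Prod.snd_add, Prod.smul_fst, Prod.smul_snd, smul_eq_mul] <;> ring)

/-- the action on `K(0) ⊗ Ber` -/
noncomputable def actK : gl 2 2 →ₗ[ℂ] (Q →ₗ[ℂ] Q) := actOf fK
  (fun a b c d Z W => by
    apply Q_ext <;> simp only [fK, r0, pol, trc, mul2_00, mul2_01, mul2_10, mul2_11, tl_00, tl_01, tl_10, tl_11, ad_00, ad_01, ad_10,
      ad_11, one_00, one_01, one_10, one_11, Matrix.add_apply, Matrix.sub_apply,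
      Matrix.smul_apply, Prod.fst_add, Prod.snd_add, Prod.smul_fst, Prod.smul_snd, smul_eq_mul] <;> ring)
  (fun a b c d t Z => by
    apply Q_ext <;> simp only [fK, r0, pol, trc, mul2_00, mul2_01, mul2_10, mul2_11, tl_00, tl_01, tl_10, tl_11, ad_00, ad_01, ad_10,
      ad_11, one_00, one_01, one_10, one_11, Matrix.add_apply, Matrix.sub_apply,
      Matrix.smul_apply, Prod.fst_add, Prod.snd_add, Prod.smul_fst, Prod.smul_snd, smul_eq_mul] <;> ring)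
  (fun a b c d a' b' c' d' Z => by
    apply Q_ext <;> simp only [fK, r0, pol, trc, mul2_00, mul2_01, mul2_10, mul2_11, tl_00, tl_01, tl_10, tl_11, ad_00, ad_01, ad_10,
      ad_11, one_00, one_01, one_10, one_11, Matrix.add_apply, Matrix.sub_apply,
      Matrix.smul_apply, Prod.fst_add, Prod.snd_add, Prod.smul_fst, Prod.smul_snd, smul_eq_mul] <;> ring)
  (fun a b c d t Z => by
    apply Q_ext <;> simp only [fK, r0, pol, trc, mul2_00, mul2_01, mul2_10, mul2_11, tl_00, tl_01, tl_10, tl_11, ad_00, ad_01, ad_10,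
      ad_11, one_00, one_01, one_10, one_11, Matrix.add_apply, Matrix.sub_apply,
      Matrix.smul_apply, Prod.fst_add, Prod.snd_add, Prod.smul_fst, Prod.smul_snd, smul_eq_mul] <;> ring)

/-- the action on the extension of `sl(2|2)` by `Ber` -/
noncomputable def actN : gl 2 2 →ₗ[ℂ] (Q →ₗ[ℂ] Q) := actOf fN
  (fun a b c d Z W => by
    apply Q_ext <;> simp only [fN, r0, pol, trc, mul2_00, mul2_01, mul2_10, mul2_11, tl_00, tl_01, tl_10, tl_11, ad_00, ad_01, ad_10,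
      ad_11, one_00, one_01, one_10, one_11, Matrix.add_apply, Matrix.sub_apply,
      Matrix.smul_apply, Prod.fst_add, Prod.snd_add, Prod.smul_fst, Prod.smul_snd, smul_eq_mul] <;> ring)
  (fun a b c d t Z => by
    apply Q_ext <;> simp only [fN, r0, pol, trc, mul2_00, mul2_01, mul2_10, mul2_11, tl_00, tl_01, tl_10, tl_11, ad_00, ad_01, ad_10,
      ad_11, one_00, one_01, one_10, one_11, Matrix.add_apply, Matrix.sub_apply,
      Matrix.smul_apply, Prod.fst_add, Prod.snd_add, Prod.smul_fst, Prod.smul_snd, smul_eq_mul] <;> ring)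
  (fun a b c d a' b' c' d' Z => by
    apply Q_ext <;> simp only [fN, r0, pol, trc, mul2_00, mul2_01, mul2_10, mul2_11, tl_00, tl_01, tl_10, tl_11, ad_00, ad_01, ad_10,
      ad_11, one_00, one_01, one_10, one_11, Matrix.add_apply, Matrix.sub_apply,
      Matrix.smul_apply, Prod.fst_add, Prod.snd_add, Prod.smul_fst, Prod.smul_snd, smul_eq_mul] <;> ring)
  (fun a b c d t Z => by
    apply Q_ext <;> simp only [fN, r0, pol, trc, mul2_00, mul2_01, mul2_10, mul2_11, tl_00, tl_01, tl_10, tl_11, ad_00, ad_01, ad_10,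
      ad_11, one_00, one_01, one_10, one_11, Matrix.add_apply, Matrix.sub_apply,
      Matrix.smul_apply, Prod.fst_add, Prod.snd_add, Prod.smul_fst, Prod.smul_snd, smul_eq_mul] <;> ring)

theorem actE_apply (A : gl 2 2) (Z : Q) :
    actE A Z = fE A.toBlocks₁₁ A.toBlocks₁₂ A.toBlocks₂₁ A.toBlocks₂₂ Z := rfl
theorem actK_apply (A : gl 2 2) (Z : Q) :
    actK A Z = fK A.toBlocks₁₁ A.toBlocks₁₂ A.toBlocks₂₁ A.toBlocks₂₂ Z := rfl
theorem actN_apply (A : gl 2 2) (Z : Q) :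
    actN A Z = fN A.toBlocks₁₁ A.toBlocks₁₂ A.toBlocks₂₁ A.toBlocks₂₂ Z := rfl

end Pool.Agent.H39.RP
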