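import Pool.Agent.H39.RP.Ideal

/-! `K ⊗ N` is not a direct summand of `gl(2|2) ⊗ K ⊗ N`. -/

set_option linter.unusedSimpArgs false
set_option linter.unusedVariables false

namespace Pool.Agent.H39.RP

open Matrix TensorProduct

/-- the identity matrix as a quadruple -/
def oneQ : Q := (1, 0, 0, 1)

/-- lower left block -/
def yq (Y : M2) : Q := (0, 0, Y, 0)

/-- upper right block -/
def xq (X : M2) : Q := (0, X, 0, 0)

/-- diagonal blocks -/
def dq (P R : M2) : Q := (P, 0, 0, R)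

theorem e_mul :
    e00 * e00 = e00 ∧ e00 * e11 = 0 ∧ e11 * e00 = 0 ∧ e11 * e11 = e11 ∧
    e01 * e10 = e00 ∧ e10 * e01 = e11 ∧ e01 * e01 = 0 ∧ e10 * e10 = 0 ∧
    e00 * e01 = e01 ∧ e01 * e00 = 0 ∧ e00 * e10 = 0 ∧ e10 * e00 = e10 ∧
    e11 * e01 = 0 ∧ e01 * e11 = e01 ∧ e11 * e10 = e10 ∧ e10 * e11 = 0 := by
  refine ⟨?_, ?_, ?_, ?_, ?_, ?_, ?_, ?_, ?_, ?_, ?_, ?_, ?_, ?_, ?_, ?_⟩ <;>
  · ext i j
    fin_cases i <;> fin_cases j <;>
      simp [e00, e01, e10, e11, Matrix.mul_apply, Fin.sum_univ_two]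

theorem fE_yq (b Y : M2) : fE 0 b 0 0 (yq Y) = dq (b * Y) (Y * b) := by
  simp [fE, yq, dq]

theorem fN_yq (b Y : M2) : fN 0 b 0 0 (yq Y) = dq (b * Y) (Y * b) := by
  simp [fN, yq, dq, r0, trc, pol]

theorem fE_xq (b X : M2) : fE 0 b 0 0 (xq X) = 0 := by
  simp [fE, xq, Prod.zero_eq_mk]

theorem fE_dq (b P R : M2) : fE 0 b 0 0 (dq P R) = xq (b * R - P * b) := by
  simp [fE, xq, dq]

theorem fN_dq (b P R : M2) (h : trc R = trc P) : fN 0 b 0 0 (dq P R) = xq (b * R - P * b) := by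
  have h0 : trc R - trc P = 0 := sub_eq_zero.2 h
  simp only [fN, xq, dq, r0, h0]
  simp [trc, pol]

section
variable (r : Q →ₗ[ℂ] Q →ₗ[ℂ] Q)

theorem no_r (h1 : ∀ n, r oneQ n = n)
    (h2 : ∀ b Z n, fN 0 b 0 0 (r Z n) = r (fE 0 b 0 0 Z) n + r (parQ Z) (fN 0 b 0 0 n))
    (h3 : ∀ a d Z n, fN a 0 0 d (r Z n) = r (fE a 0 0 d Z) n + r Z (fN a 0 0 d n)) : False := by
  obtain ⟨m00, m0011, m1100, m11, m0110, m1001, m0101, m1010, m0001, m0100, m0010, m1000,
    m1101, m0111, m1110, m1011⟩ := e_mul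
  have py : ∀ Y, parQ (yq Y) = -yq Y := fun Y => by
    simp [parQ_apply, yq]
  have px : ∀ X, parQ (xq X) = -xq X := fun Y => by
    simp [parQ_apply, xq]
  have pd : ∀ P R, parQ (dq P R) = dq P R := fun P R => by
    simp [parQ_apply, dq]
  have y0 : yq 0 = 0 := rfl
  have x0 : xq 0 = 0 := rfl
  have d0 : dq 0 0 = 0 := rfl
  have one_eq : oneQ = dq e00 e00 + dq e11 e11 := by
    apply Q_ext <;> simp [oneQ, dq, e00, e11]
  have one_eq' : oneQ = dq e00 e11 + dq e11 e00 := by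
    apply Q_ext <;> simp [oneQ, dq, e00, e11]
  have fN0 : ∀ b, fN 0 b 0 0 (0 : Q) = 0 := fun b => by
    simp [fN, r0, trc, pol, Prod.zero_eq_mk]
  -- (1) products of two lower left elements vanish
  have w1 : ∀ Y Y', r (yq Y) (yq Y') = 0 := by
    intro Y Y'
    have h := h3 1 0 (yq Y) (yq Y')
    have hE : fE 1 0 0 0 (yq Y) = -yq Y := by simp [fE, yq]
    have hN : fN 1 0 0 0 (yq Y') = -yq Y' := by simp [fN, yq, r0, trc, pol]
    rw [hE, hN, map_neg, LinearMap.neg_apply, map_neg] at h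
    set W := r (yq Y) (yq Y') with hW
    have c1 := congrArg (fun Z : Q => Z.1 0 0) h
    have c2 := congrArg (fun Z : Q => Z.1 0 1) h
    have c3 := congrArg (fun Z : Q => Z.1 1 0) h
    have c4 := congrArg (fun Z : Q => Z.1 1 1) h
    have c5 := congrArg (fun Z : Q => Z.2.1 0 0) h
    have c6 := congrArg (fun Z : Q => Z.2.1 0 1) h
    have c7 := congrArg (fun Z : Q => Z.2.1 1 0) h
    have c8 := congrArg (fun Z : Q => Z.2.1 1 1) h
    have c9 := congrArg (fun Z : Q => Z.2.2.1 0 0) h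
    have c10 := congrArg (fun Z : Q => Z.2.2.1 0 1) h
    have c11 := congrArg (fun Z : Q => Z.2.2.1 1 0) h
    have c12 := congrArg (fun Z : Q => Z.2.2.1 1 1) h
    have c13 := congrArg (fun Z : Q => Z.2.2.2 0 0) h
    have c14 := congrArg (fun Z : Q => Z.2.2.2 0 1) h
    have c15 := congrArg (fun Z : Q => Z.2.2.2 1 0) h
    have c16 := congrArg (fun Z : Q => Z.2.2.2 1 1) h
    simp only [fN, r0, pol, trc, mul2_00, mul2_01, mul2_10, mul2_11, one_00, one_01, one_10,
      one_11, Matrix.add_apply, Matrix.sub_apply, Matrix.neg_apply, Matrix.zero_apply,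
      Matrix.smul_apply, Prod.fst_add, Prod.snd_add, Prod.fst_neg, Prod.snd_neg,
      smul_eq_mul] at c1 c2 c3 c4 c5 c6 c7 c8 c9 c10 c11 c12 c13 c14 c15 c16
    have e1 : W.1 0 0 = 0 := by linear_combination (1/2) * c1
    have e2 : W.1 0 1 = 0 := by linear_combination (1/2) * c2
    have e3 : W.1 1 0 = 0 := by linear_combination (1/2) * c3
    have e4 : W.1 1 1 = 0 := by linear_combination (1/2) * c4
    have e5 : W.2.1 0 0 = 0 := by linear_combination (1/3) * c5
    have e6 : W.2.1 0 1 = 0 := by linear_combination (1/3) * c6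
    have e7 : W.2.1 1 0 = 0 := by linear_combination (1/3) * c7
    have e8 : W.2.1 1 1 = 0 := by linear_combination (1/3) * c8
    have e9 : W.2.2.1 0 0 = 0 := by linear_combination c9
    have e10 : W.2.2.1 0 1 = 0 := by linear_combination c10
    have e11 : W.2.2.1 1 0 = 0 := by linear_combination c11
    have e12 : W.2.2.1 1 1 = 0 := by linear_combination c12
    have es : W.2.2.2 0 0 + W.2.2.2 1 1 = 0 := by
      linear_combination (1/4) * (c13 + c16) + (1/2) * (e1 + e4)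
    have e13 : W.2.2.2 0 0 = 0 := by linear_combination (1/2) * c13 - (1/2) * es + (1/2) * (e1 + e4)
    have e14 : W.2.2.2 0 1 = 0 := by linear_combination (1/2) * c14
    have e15 : W.2.2.2 1 0 = 0 := by linear_combination (1/2) * c15
    have e16 : W.2.2.2 1 1 = 0 := by linear_combination (1/2) * c16 - (1/2) * es + (1/2) * (e1 + e4)
    exact Q_ext e1 e2 e3 e4 e5 e6 e7 e8 e9 e10 e11 e12 e13 e14 e15 e16
  have E1 : ∀ b Y Y', r (dq (b * Y) (Y * b)) (yq Y') = r (yq Y) (dq (b * Y') (Y' * b)) := by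
    intro b Y Y'
    have h := h2 b (yq Y) (yq Y')
    rw [w1, fN0, fE_yq, fN_yq, py, map_neg, LinearMap.neg_apply] at h
    exact (sub_eq_zero.1 (by rw [sub_eq_add_neg]; exact h.symm))
  -- `r y00 1 = y00`
  have a1 : r (dq e00 e00) (yq e00) = r (yq e00) (dq e00 e00) := by
    have := E1 e00 e00 e00
    rwa [m00] at this
  have a2 : r (yq e00) (dq e11 e11) = 0 := by
    have := E1 e11 e00 e11
    rw [m1100, m0011, m11, d0, map_zero, LinearMap.zero_apply] at this
    exact this.symm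
  have a3 : r (dq e11 e11) (yq e00) = 0 := by
    have := E1 e11 e11 e00
    rw [m1100, m0011, m11, d0, map_zero] at this
    exact this
  have a4 : r (yq e00) oneQ = yq e00 := by
    rw [one_eq, map_add, a2, add_zero, ← a1]
    have := h1 (yq e00)
    rw [one_eq, map_add, LinearMap.add_apply, a3, add_zero] at this
    exact this
  -- `r D0 1 = D0`
  have a5 : r (dq e00 e00) oneQ = dq e00 e00 := by
    have h := h2 e00 (yq e00) oneQ
    have hN : fN 0 e00 0 0 oneQ = 0 := by
      have : oneQ = dq 1 1 := rfl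
      rw [this, fN_dq _ _ _ rfl, mul_one, one_mul, sub_self, x0]
    rw [a4, fE_yq, fN_yq, m00, hN, map_zero, add_zero] at h
    exact h.symm
  -- weights of `r D0 y`
  have wt : ∀ (Y : M2) (a d : M2) (s : ℂ), fE a 0 0 d (dq e00 e00) = 0 →
      fN a 0 0 d (yq Y) = s • yq Y →
      fN a 0 0 d (r (dq e00 e00) (yq Y)) = s • r (dq e00 e00) (yq Y) := by
    intro Y a d s hE hN
    rw [h3, hE, hN, map_zero, LinearMap.zero_apply, zero_add, map_smul]
  have u1 : ∃ κ : ℂ, r (dq e00 e00) (yq e10) = κ • yq e10 := by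
    have g1 := wt e10 e00 0 (-1) (by simp [fE, dq, Prod.zero_eq_mk])
      (by
        simp only [fN, yq, r0, trc, pol]
        simp [m1000])
    have g2 := wt e10 0 e11 1 (by simp [fE, dq, Prod.zero_eq_mk, m1100, m0011])
      (by
        simp only [fN, yq, r0, trc, pol]
        simp [m1110])
    set W := r (dq e00 e00) (yq e10) with hW
    refine ⟨W.2.2.1 1 0, ?_⟩
    have c1 := congrArg (fun Z : Q => Z.1 0 0) g1
    have c2 := congrArg (fun Z : Q => Z.1 0 1) g1
    have c3 := congrArg (fun Z : Q => Z.1 1 0) g2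
    have c4 := congrArg (fun Z : Q => Z.1 1 1) g1
    have c5 := congrArg (fun Z : Q => Z.2.1 0 0) g1
    have c6 := congrArg (fun Z : Q => Z.2.1 0 1) g1
    have c7 := congrArg (fun Z : Q => Z.2.1 1 0) g1
    have c8 := congrArg (fun Z : Q => Z.2.1 1 1) g1
    have c9 := congrArg (fun Z : Q => Z.2.2.1 0 0) g2
    have c10 := congrArg (fun Z : Q => Z.2.2.1 0 1) g1
    have c12 := congrArg (fun Z : Q => Z.2.2.1 1 1) g1
    have c13 := congrArg (fun Z : Q => Z.2.2.2 0 0) g1
    have c14 := congrArg (fun Z : Q => Z.2.2.2 0 1) g1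
    have c15 := congrArg (fun Z : Q => Z.2.2.2 1 0) g1
    have c16 := congrArg (fun Z : Q => Z.2.2.2 1 1) g1
    simp only [fN, r0, pol, trc, mul2_00, mul2_01, mul2_10, mul2_11, one_00, one_01, one_10,
      one_11, Matrix.add_apply, Matrix.sub_apply, Matrix.neg_apply, Matrix.zero_apply,
      Matrix.smul_apply, Prod.fst_add, Prod.snd_add, Prod.smul_fst, Prod.smul_snd,
      smul_eq_mul, e00_00, e00_01, e00_10, e00_11, e11_00, e11_01, e11_10, e11_11]
      at c1 c2 c3 c4 c5 c6 c7 c8 c9 c10 c12 c13 c14 c15 c16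
    have e1 : W.1 0 0 = 0 := by linear_combination c1
    have e2 : W.1 0 1 = 0 := by linear_combination (1/2) * c2
    have e3 : W.1 1 0 = 0 := by linear_combination -c3
    have e4 : W.1 1 1 = 0 := by linear_combination c4
    have e5 : W.2.1 0 0 = 0 := by linear_combination (1/2) * c5
    have e6 : W.2.1 0 1 = 0 := by linear_combination (1/2) * c6
    have e7 : W.2.1 1 0 = 0 := by linear_combination c7
    have e8 : W.2.1 1 1 = 0 := by linear_combination c8
    have e9 : W.2.2.1 0 0 = 0 := by linear_combination -c9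
    have e10' : W.2.2.1 0 1 = 0 := by linear_combination c10
    have e12 : W.2.2.1 1 1 = 0 := by linear_combination c12
    have es : W.2.2.2 0 0 + W.2.2.2 1 1 = 0 := by
      linear_combination (1/2) * (c13 + c16) + (1/2) * (e1 + e4)
    have e13 : W.2.2.2 0 0 = 0 := by linear_combination c13 - (1/2) * es + (1/2) * (e1 + e4)
    have e14 : W.2.2.2 0 1 = 0 := by linear_combination c14
    have e15 : W.2.2.2 1 0 = 0 := by linear_combination c15
    have e16 : W.2.2.2 1 1 = 0 := by linear_combination c16 - (1/2) * es + (1/2) * (e1 + e4)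
    apply Q_ext <;> simp [yq, e10, e1, e2, e3, e4, e5, e6, e7, e8, e9, e10', e12, e13, e14,
      e15, e16]
  have u2 : ∃ κ : ℂ, r (dq e00 e00) (yq e01) = κ • yq e01 := by
    have g1 := wt e01 e11 0 (-1) (by simp [fE, dq, Prod.zero_eq_mk, m1100, m0011])
      (by
        simp only [fN, yq, r0, trc, pol]
        simp [m0111])
    have g2 := wt e01 0 e00 1 (by simp [fE, dq, Prod.zero_eq_mk])
      (by
        simp only [fN, yq, r0, trc, pol]
        simp [m0001])
    set W := r (dq e00 e00) (yq e01) with hW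
    refine ⟨W.2.2.1 0 1, ?_⟩
    have c1 := congrArg (fun Z : Q => Z.1 0 0) g1
    have c2 := congrArg (fun Z : Q => Z.1 0 1) g2
    have c3 := congrArg (fun Z : Q => Z.1 1 0) g1
    have c4 := congrArg (fun Z : Q => Z.1 1 1) g1
    have c5 := congrArg (fun Z : Q => Z.2.1 0 0) g1
    have c6 := congrArg (fun Z : Q => Z.2.1 0 1) g1
    have c7 := congrArg (fun Z : Q => Z.2.1 1 0) g1
    have c8 := congrArg (fun Z : Q => Z.2.1 1 1) g1
    have c9 := congrArg (fun Z : Q => Z.2.2.1 0 0) g1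
    have c11 := congrArg (fun Z : Q => Z.2.2.1 1 0) g1
    have c12 := congrArg (fun Z : Q => Z.2.2.1 1 1) g2
    have c13 := congrArg (fun Z : Q => Z.2.2.2 0 0) g1
    have c14 := congrArg (fun Z : Q => Z.2.2.2 0 1) g1
    have c15 := congrArg (fun Z : Q => Z.2.2.2 1 0) g1
    have c16 := congrArg (fun Z : Q => Z.2.2.2 1 1) g1
    simp only [fN, r0, pol, trc, mul2_00, mul2_01, mul2_10, mul2_11, one_00, one_01, one_10,
      one_11, Matrix.add_apply, Matrix.sub_apply, Matrix.neg_apply, Matrix.zero_apply,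
      Matrix.smul_apply, Prod.fst_add, Prod.snd_add, Prod.smul_fst, Prod.smul_snd,
      smul_eq_mul, e00_00, e00_01, e00_10, e00_11, e11_00, e11_01, e11_10, e11_11]
      at c1 c2 c3 c4 c5 c6 c7 c8 c9 c11 c12 c13 c14 c15 c16
    have e1 : W.1 0 0 = 0 := by linear_combination c1
    have e2 : W.1 0 1 = 0 := by linear_combination -c2
    have e3 : W.1 1 0 = 0 := by linear_combination (1/2) * c3
    have e4 : W.1 1 1 = 0 := by linear_combination c4
    have e5 : W.2.1 0 0 = 0 := by linear_combination c5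
    have e6 : W.2.1 0 1 = 0 := by linear_combination c6
    have e7 : W.2.1 1 0 = 0 := by linear_combination (1/2) * c7
    have e8 : W.2.1 1 1 = 0 := by linear_combination (1/2) * c8
    have e9 : W.2.2.1 0 0 = 0 := by linear_combination c9
    have e11' : W.2.2.1 1 0 = 0 := by linear_combination c11
    have e12 : W.2.2.1 1 1 = 0 := by linear_combination -c12
    have es : W.2.2.2 0 0 + W.2.2.2 1 1 = 0 := by
      linear_combination (1/2) * (c13 + c16) + (1/2) * (e1 + e4)
    have e13 : W.2.2.2 0 0 = 0 := by linear_combination c13 - (1/2) * es + (1/2) * (e1 + e4)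
    have e14 : W.2.2.2 0 1 = 0 := by linear_combination c14
    have e15 : W.2.2.2 1 0 = 0 := by linear_combination c15
    have e16 : W.2.2.2 1 1 = 0 := by linear_combination c16 - (1/2) * es + (1/2) * (e1 + e4)
    apply Q_ext <;> simp [yq, e01, e1, e2, e3, e4, e5, e6, e7, e8, e9, e11', e12, e13, e14,
      e15, e16]
  have smulN : ∀ (b : M2) (κ : ℂ) (Z : Q), fN 0 b 0 0 (κ • Z) = κ • fN 0 b 0 0 Z := by
    intro b κ Z
    have := (actN (fromBlocks 0 b 0 0)).map_smul κ Z
    rw [actN_apply, actN_apply] at this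
    simpa only [toBlocks_fromBlocks₁₁, toBlocks_fromBlocks₁₂, toBlocks_fromBlocks₂₁,
      toBlocks_fromBlocks₂₂] using this
  have addN : ∀ (b : M2) (Z W : Q), fN 0 b 0 0 (Z + W) = fN 0 b 0 0 Z + fN 0 b 0 0 W := by
    intro b Z W
    have := (actN (fromBlocks 0 b 0 0)).map_add Z W
    simpa [actN_apply] using this
  have negN : ∀ (b : M2) (Z : Q), fN 0 b 0 0 (-Z) = -fN 0 b 0 0 Z := by
    intro b Z
    have := (actN (fromBlocks 0 b 0 0)).map_neg Z
    simpa [actN_apply] using this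
  -- (A)
  have A : fN 0 e10 0 0 (r (dq e00 e00) (dq e00 e11)) = 0 := by
    have h := h2 e01 (dq e00 e00) (yq e10)
    rw [fE_dq, m0100, m0001, zero_sub, pd, fN_yq, m0110, m1001] at h
    have hx : xq (-e01) = -xq e01 := by simp [xq]
    rw [hx, map_neg, LinearMap.neg_apply] at h
    have h4 : fN 0 e10 0 0 (r (xq e01) (yq e10)) = 0 := by
      rw [h2, fE_xq, map_zero, LinearMap.zero_apply, px, fN_yq, m1010, d0, map_zero, add_zero]
    obtain ⟨κ, hκ⟩ := u1
    have h5 := congrArg (fN 0 e10 0 0) h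
    rw [hκ, smulN, smulN, fN_yq, m0110, m1001, fN_dq _ _ _ (by simp [trc, e00, e11]),
      m1011, m0010, sub_self, x0, smul_zero, addN, negN, h4, neg_zero, zero_add] at h5
    exact h5.symm
  have B : fN 0 e01 0 0 (r (dq e00 e00) (dq e11 e00)) = 0 := by
    have h := h2 e10 (dq e00 e00) (yq e01)
    rw [fE_dq, m1000, m0010, sub_zero, pd, fN_yq, m1001, m0110] at h
    have h4 : fN 0 e01 0 0 (r (xq e10) (yq e01)) = 0 := by
      rw [h2, fE_xq, map_zero, LinearMap.zero_apply, px, fN_yq, m0101, d0, map_zero, add_zero]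
    obtain ⟨κ, hκ⟩ := u2
    have h5 := congrArg (fN 0 e01 0 0) h
    rw [hκ, smulN, smulN, fN_yq, m1001, m0110, fN_dq _ _ _ (by simp [trc, e00, e11]),
      m0100, m1101, sub_self, x0, smul_zero, addN, h4, zero_add] at h5
    exact h5.symm
  -- weight zero
  have wz : ∀ P R : M2, fN e00 0 0 0 (dq P R) = 0 →
      trc (r (dq e00 e00) (dq P R)).2.2.2 = trc (r (dq e00 e00) (dq P R)).1 := by
    intro P R hN
    have hE : fE e00 0 0 0 (dq e00 e00) = 0 := by simp [fE, dq, Prod.zero_eq_mk]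
    have h := h3 e00 0 (dq e00 e00) (dq P R)
    rw [hE, hN, map_zero, map_zero, LinearMap.zero_apply, zero_add] at h
    have c := congrArg (fun Z : Q => Z.2.2.2 0 0) h
    simp only [fN, r0, pol, trc, mul2_00, mul2_01, mul2_10, mul2_11, one_00, one_01, one_10,
      one_11, Matrix.add_apply, Matrix.sub_apply, Matrix.neg_apply, Matrix.zero_apply,
      Matrix.smul_apply, Prod.fst_zero, Prod.snd_zero,
      smul_eq_mul, e00_00, e00_01, e00_10, e00_11] at c
    simp only [trc]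
    linear_combination 2 * c
  have z1 := wz e00 e11 (by
    have h0 : trc e11 - trc e00 = 0 := by simp [trc, e00, e11]
    simp only [fN, dq, r0, h0]
    simp [trc, pol, Prod.zero_eq_mk])
  have hsum : r (dq e00 e00) (dq e00 e11) + r (dq e00 e00) (dq e11 e00) = dq e00 e00 := by
    rw [← map_add, ← one_eq', a5]
  have z2 := wz e11 e00 (by
    have h0 : trc e00 - trc e11 = 0 := by simp [trc, e00, e11]
    simp only [fN, dq, r0, h0]
    simp [trc, pol, Prod.zero_eq_mk, m0011, m1100])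
  set k := r (dq e00 e00) (dq e00 e11) with hk
  set k' := r (dq e00 e00) (dq e11 e00) with hk'
  have cA := congrArg (fun Z : Q => Z.2.1 1 0) A
  have cB := congrArg (fun Z : Q => Z.2.1 0 1) B
  have s1 := congrArg (fun Z : Q => Z.1 0 0) hsum
  have s2 := congrArg (fun Z : Q => Z.2.2.2 1 1) hsum
  simp only [fN, r0, pol, trc, mul2_00, mul2_01, mul2_10, mul2_11, one_00, one_01, one_10,
      one_11, Matrix.add_apply, Matrix.sub_apply, Matrix.neg_apply, Matrix.zero_apply,
      Matrix.smul_apply, Prod.fst_zero, Prod.snd_zero, Prod.fst_add, Prod.snd_add,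
      smul_eq_mul, e00_00, e00_01, e00_10, e00_11, e01_00, e01_01, e01_10, e01_11,
      e10_00, e10_01, e10_10, e10_11, dq] at cA cB s1 s2 z1 z2
  have t1 : k.2.2.2 0 0 = k.1 1 1 := by linear_combination cA + (1/2) * z1
  have t2 : k'.2.2.2 1 1 = k'.1 0 0 := by linear_combination cB + (1/2) * z2
  have t3 : k.2.2.2 1 1 = k.1 0 0 := by linear_combination z1 - t1
  have : (1 : ℂ) = 0 := by linear_combination -s1 + s2 - t2 - t3
  exact one_ne_zero this

end

/-! ### From a splitting of `M → gl(2|2) ⊗ M` to `r` -/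

/-- the projection `K ⊗ N → N` given by the head of `K` -/
noncomputable def projN : Q ⊗[ℂ] Q →ₗ[ℂ] Q :=
  TensorProduct.lift
    { toFun := fun k => (trc k.1 / 2) • (LinearMap.id : Q →ₗ[ℂ] Q)
      map_add' := fun a b => by
        refine LinearMap.ext fun Z => ?_
        have : trc (a + b).1 / 2 = trc a.1 / 2 + trc b.1 / 2 := by
          simp only [trc, Prod.fst_add, Matrix.add_apply]; ring
        rw [this, add_smul]
      map_smul' := fun c a => by
        refine LinearMap.ext fun Z => ?_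
        have : trc (c • a).1 / 2 = c * (trc a.1 / 2) := by
          simp only [trc, Prod.smul_fst, Matrix.smul_apply, smul_eq_mul]; ring
        rw [this, mul_smul]; rfl }

theorem projN_tmul (k n : Q) : projN (k ⊗ₜ n) = (trc k.1 / 2) • n := rfl

/-- the highest weight vector of `K` -/
def v0 : Q := (1, 0, 0, 0)

theorem projN_v0 (n : Q) : projN (v0 ⊗ₜ n) = n := by
  rw [projN_tmul]
  have : trc (v0 : Q).1 / 2 = 1 := by simp [v0, trc]
  rw [this, one_smul]

theorem projN_even (a d : M2) (x : Q ⊗[ℂ] Q) :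
    projN (modM.act (fromBlocks a 0 0 d) x)
      = fN a 0 0 d (projN x) + (trc a - trc d) • projN x := by
  have hA : IsEven (fromBlocks a 0 0 d : gl 2 2) := by simp [IsEven]
  have key := eq_of_tmul (projN ∘ₗ modM.act (fromBlocks a 0 0 d))
    (actN (fromBlocks a 0 0 d) ∘ₗ projN + (trc a - trc d) • projN) (fun k v => ?_) x
  · rw [LinearMap.comp_apply, LinearMap.add_apply, LinearMap.comp_apply, actN_apply] at key
    simpa only [toBlocks_fromBlocks₁₁, toBlocks_fromBlocks₁₂, toBlocks_fromBlocks₂₁,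
      toBlocks_fromBlocks₂₂, LinearMap.smul_apply] using key
  · change projN (tact modK modN (fromBlocks a 0 0 d) (k ⊗ₜ v)) = _
    rw [tact_even modK modN hA, map_add, projN_tmul, projN_tmul, LinearMap.add_apply,
      LinearMap.comp_apply, projN_tmul, LinearMap.smul_apply, projN_tmul]
    have h1 : trc (modK.act (fromBlocks a 0 0 d) k).1 / 2
        = (trc a - trc d) * (trc k.1 / 2) := by
      change trc (actK (fromBlocks a 0 0 d) k).1 / 2 = _
      rw [actK_apply]
      simp only [toBlocks_fromBlocks₁₁, toBlocks_fromBlocks₁₂, toBlocks_fromBlocks₂₁,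
        toBlocks_fromBlocks₂₂, fK, trc, mul2_00, mul2_01, mul2_10, mul2_11, tl_00, tl_11,
        Matrix.add_apply, Matrix.sub_apply, Matrix.smul_apply, smul_eq_mul, one_00, one_11,
        Matrix.zero_apply]
      ring
    rw [h1, mul_smul, map_smul]
    change _ + (trc k.1 / 2) • (actN (fromBlocks a 0 0 d) v) = _
    abel

theorem projN_odd (b : M2) (x : Q ⊗[ℂ] Q) :
    projN (modM.act (fromBlocks 0 b 0 0) x) = fN 0 b 0 0 (projN x) := by
  have hA : IsOdd (fromBlocks 0 b 0 0 : gl 2 2) := by simp [IsOdd]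
  have key := eq_of_tmul (projN ∘ₗ modM.act (fromBlocks 0 b 0 0))
    (actN (fromBlocks 0 b 0 0) ∘ₗ projN) (fun k v => ?_) x
  · rw [LinearMap.comp_apply, LinearMap.comp_apply, actN_apply] at key
    simpa only [toBlocks_fromBlocks₁₁, toBlocks_fromBlocks₁₂, toBlocks_fromBlocks₂₁,
      toBlocks_fromBlocks₂₂] using key
  · change projN (tact modK modN (fromBlocks 0 b 0 0) (k ⊗ₜ v)) = _
    rw [tact_odd modK modN hA, map_add, projN_tmul, projN_tmul,
      LinearMap.comp_apply, projN_tmul]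
    have h1 : trc (modK.act (fromBlocks 0 b 0 0) k).1 / 2 = 0 := by
      change trc (actK (fromBlocks 0 b 0 0) k).1 / 2 = _
      rw [actK_apply]
      simp only [toBlocks_fromBlocks₁₁, toBlocks_fromBlocks₁₂, toBlocks_fromBlocks₂₁,
        toBlocks_fromBlocks₂₂, fK, trc, mul2_00, mul2_01, mul2_10, mul2_11, tl_00, tl_11,
        Matrix.add_apply, Matrix.sub_apply, Matrix.smul_apply, smul_eq_mul, one_00, one_11,
        Matrix.zero_apply]
      ring
    have h2 : trc (modK.par k).1 / 2 = trc k.1 / 2 := rfl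
    rw [h1, h2, zero_smul, zero_add, map_smul]
    rfl

theorem v0_even (a d : M2) (n : Q) :
    modM.act (fromBlocks a 0 0 d) (v0 ⊗ₜ n)
      = (trc a - trc d) • (v0 ⊗ₜ[ℂ] n) + v0 ⊗ₜ (fN a 0 0 d n) := by
  have hA : IsEven (fromBlocks a 0 0 d : gl 2 2) := by simp [IsEven]
  change tact modK modN (fromBlocks a 0 0 d) (v0 ⊗ₜ n) = _
  rw [tact_even modK modN hA]
  have h1 : modK.act (fromBlocks a 0 0 d) v0 = (trc a - trc d) • v0 := by
    change actK (fromBlocks a 0 0 d) v0 = _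
    rw [actK_apply]
    simp only [toBlocks_fromBlocks₁₁, toBlocks_fromBlocks₁₂, toBlocks_fromBlocks₂₁,
        toBlocks_fromBlocks₂₂]
    apply Q_ext <;> simp [fK, v0, tl, trc, pol, ad]
  have h2 : modN.act (fromBlocks a 0 0 d) n = fN a 0 0 d n := by
    change actN (fromBlocks a 0 0 d) n = _
    rw [actN_apply]
    simp only [toBlocks_fromBlocks₁₁, toBlocks_fromBlocks₁₂, toBlocks_fromBlocks₂₁,
        toBlocks_fromBlocks₂₂]
  rw [h1, h2, ← TensorProduct.smul_tmul']

theorem v0_odd (b : M2) (n : Q) :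
    modM.act (fromBlocks 0 b 0 0) (v0 ⊗ₜ n) = v0 ⊗ₜ[ℂ] (fN 0 b 0 0 n) := by
  have hA : IsOdd (fromBlocks 0 b 0 0 : gl 2 2) := by simp [IsOdd]
  change tact modK modN (fromBlocks 0 b 0 0) (v0 ⊗ₜ n) = _
  rw [tact_odd modK modN hA]
  have h1 : modK.act (fromBlocks 0 b 0 0) v0 = 0 := by
    change actK (fromBlocks 0 b 0 0) v0 = _
    rw [actK_apply]
    simp only [toBlocks_fromBlocks₁₁, toBlocks_fromBlocks₁₂, toBlocks_fromBlocks₂₁,
        toBlocks_fromBlocks₂₂]
    apply Q_ext <;> simp only [fK, v0, trc, pol, mul2_00, mul2_01, mul2_10, mul2_11, tl_00,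
      tl_01, tl_10, tl_11, ad_00, ad_01, ad_10, ad_11, one_00, one_01, one_10, one_11,
      Matrix.add_apply, Matrix.sub_apply, Matrix.zero_apply, Matrix.smul_apply, smul_eq_mul,
      Prod.fst_zero, Prod.snd_zero] <;> ring
  have h2 : modN.act (fromBlocks 0 b 0 0) n = fN 0 b 0 0 n := by
    change actN (fromBlocks 0 b 0 0) n = _
    rw [actN_apply]
    simp only [toBlocks_fromBlocks₁₁, toBlocks_fromBlocks₁₂, toBlocks_fromBlocks₂₁,
        toBlocks_fromBlocks₂₂]
  have h3 : modK.par v0 = v0 := by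
    change parQ v0 = v0
    simp [parQ_apply, v0]
  rw [h1, h2, h3, TensorProduct.zero_tmul, zero_add]

/-- The module `gl(2|2) ⊗ M`. -/
noncomputable def modT : SMod 2 2 (Q ⊗[ℂ] (Q ⊗[ℂ] Q)) := tensor modE modM

/-- `M → gl(2|2) ⊗ M` has no `GL(2|2)`-equivariant retraction. -/
theorem no_retraction (R : Q ⊗[ℂ] (Q ⊗[ℂ] Q) →ₗ[ℂ] Q ⊗[ℂ] Q) (hR : IsGMap modT modM R)
    (h1 : ∀ v, R (oneQ ⊗ₜ v) = v) : False := by
  let r : Q →ₗ[ℂ] Q →ₗ[ℂ] Q :=
    { toFun := fun Z => projN ∘ₗ R ∘ₗ (TensorProduct.mk ℂ Q (Q ⊗[ℂ] Q) Z) ∘ₗ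
        (TensorProduct.mk ℂ Q Q v0)
      map_add' := fun Z W => by
        refine LinearMap.ext fun n => ?_
        simp [TensorProduct.add_tmul]
      map_smul' := fun c Z => by
        refine LinearMap.ext fun n => ?_
        simp [← TensorProduct.smul_tmul'] }
  have hr : ∀ Z n, r Z n = projN (R (Z ⊗ₜ (v0 ⊗ₜ n))) := fun Z n => rfl
  refine no_r r (fun n => ?_) (fun b Z n => ?_) (fun a d Z n => ?_)
  · rw [hr, h1, projN_v0]
  · have hA : IsOdd (fromBlocks 0 b 0 0 : gl 2 2) := by simp [IsOdd]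
    rw [hr, hr, hr, ← projN_odd, ← hR.2, ← map_add, ← map_add]
    congr 2
    change tact modE modM (fromBlocks 0 b 0 0) (Z ⊗ₜ (v0 ⊗ₜ n)) = _
    rw [tact_odd modE modM hA, v0_odd]
    have h2 : modE.act (fromBlocks 0 b 0 0) Z = fE 0 b 0 0 Z := by
      change actE (fromBlocks 0 b 0 0) Z = _
      rw [actE_apply]
      simp only [toBlocks_fromBlocks₁₁, toBlocks_fromBlocks₁₂, toBlocks_fromBlocks₂₁,
        toBlocks_fromBlocks₂₂]
    rw [h2]; rfl
  · have hA : IsEven (fromBlocks a 0 0 d : gl 2 2) := by simp [IsEven]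
    have h2 : modE.act (fromBlocks a 0 0 d) Z = fE a 0 0 d Z := by
      change actE (fromBlocks a 0 0 d) Z = _
      rw [actE_apply]
      simp only [toBlocks_fromBlocks₁₁, toBlocks_fromBlocks₁₂, toBlocks_fromBlocks₂₁,
        toBlocks_fromBlocks₂₂]
    have h3 : modT.act (fromBlocks a 0 0 d) (Z ⊗ₜ (v0 ⊗ₜ n))
        = (fE a 0 0 d Z) ⊗ₜ (v0 ⊗ₜ n) + (Z ⊗ₜ (v0 ⊗ₜ[ℂ] (fN a 0 0 d n))
          + (trc a - trc d) • (Z ⊗ₜ (v0 ⊗ₜ[ℂ] n))) := by
      change tact modE modM (fromBlocks a 0 0 d) (Z ⊗ₜ (v0 ⊗ₜ n)) = _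
      rw [tact_even modE modM hA, v0_even, h2, TensorProduct.tmul_add, TensorProduct.tmul_smul]
      abel
    have h4 := projN_even a d (R (Z ⊗ₜ (v0 ⊗ₜ n)))
    rw [← hR.2, h3, map_add, map_add, map_add, map_add, map_smul, map_smul] at h4
    rw [hr, hr, hr]
    have h5 := add_right_cancel (b := (trc a - trc d) • projN (R (Z ⊗ₜ (v0 ⊗ₜ[ℂ] n))))
      (a := projN (R ((fE a 0 0 d Z) ⊗ₜ (v0 ⊗ₜ n))) + projN (R (Z ⊗ₜ (v0 ⊗ₜ[ℂ] (fN a 0 0 d n)))))
      (c := fN a 0 0 d (projN (R (Z ⊗ₜ (v0 ⊗ₜ[ℂ] n))))) (by rw [← h4]; abel)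
    exact h5.symm

/-! ### the embedding `M → gl(2|2) ⊗ M` and its `S_1`-retraction -/

/-- `v ↦ 1 ⊗ v` -/
noncomputable def etaM : Q ⊗[ℂ] Q →ₗ[ℂ] Q ⊗[ℂ] (Q ⊗[ℂ] Q) :=
  TensorProduct.mk ℂ Q (Q ⊗[ℂ] Q) oneQ

theorem etaM_apply (v : Q ⊗[ℂ] Q) : etaM v = oneQ ⊗ₜ v := rfl

theorem actE_one (A : gl 2 2) : modE.act A oneQ = 0 := by
  change actE A oneQ = 0
  rw [actE_apply]
  simp [fE, oneQ, Prod.zero_eq_mk]

theorem par_one : modE.par oneQ = oneQ := by
  change parQ oneQ = oneQ
  simp [parQ_apply, oneQ]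

theorem etaM_isGMap : IsGMap modM modT etaM := by
  constructor
  · intro v
    change oneQ ⊗ₜ (modM.par v) = TensorProduct.map modE.par modM.par (oneQ ⊗ₜ v)
    rw [TensorProduct.map_tmul, par_one]
  · intro A v
    change oneQ ⊗ₜ (modM.act A v) = tact modE modM A (oneQ ⊗ₜ v)
    rw [tact_tmul, actE_one, par_one, TensorProduct.zero_tmul, zero_add, ← TensorProduct.tmul_add]
    conv_lhs => rw [← ev_add_od A]
    rw [map_add]; rfl

/-- The coefficient of the matrix unit `E_{22}` (the second even basis vector). -/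
noncomputable def coefM : Q ⊗[ℂ] (Q ⊗[ℂ] Q) →ₗ[ℂ] Q ⊗[ℂ] Q :=
  TensorProduct.lift
    { toFun := fun Z => (Z.1 1 1) • (LinearMap.id : Q ⊗[ℂ] Q →ₗ[ℂ] Q ⊗[ℂ] Q)
      map_add' := fun a b => by
        refine LinearMap.ext fun Z => ?_
        have : (a + b).1 1 1 = a.1 1 1 + b.1 1 1 := rfl
        rw [this, add_smul]
      map_smul' := fun c a => by
        refine LinearMap.ext fun Z => ?_
        have : (c • a).1 1 1 = c * (a.1 1 1) := rfl
        rw [this, mul_smul]; rfl }

theorem coefM_tmul (Z : Q) (v : Q ⊗[ℂ] Q) : coefM (Z ⊗ₜ v) = (Z.1 1 1) • v := rfl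

theorem coefM_etaM (v : Q ⊗[ℂ] Q) : coefM (etaM v) = v := by
  rw [etaM_apply, coefM_tmul]
  simp [oneQ]

theorem rootDown_22 : rootDown 2 2 0 = fromBlocks 0 0 e00 0 := by
  ext a b
  rcases a with a | a <;> rcases b with b | b <;> fin_cases a <;> fin_cases b <;>
    simp [rootDown, e00]

theorem coefM_odd (A : gl 2 2) (hA : IsOdd A) (h : ∀ Z : Q, (modE.act A Z).1 1 1 = 0)
    (x : Q ⊗[ℂ] (Q ⊗[ℂ] Q)) : coefM (modT.act A x) = modM.act A (coefM x) := by
  refine eq_of_tmul (coefM ∘ₗ modT.act A) (modM.act A ∘ₗ coefM) (fun Z v => ?_) x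
  rw [LinearMap.comp_apply, LinearMap.comp_apply, coefM_tmul, map_smul]
  change coefM (tact modE modM A (Z ⊗ₜ v)) = _
  rw [tact_odd modE modM hA, map_add, coefM_tmul, coefM_tmul, h, zero_smul, zero_add]
  rfl

theorem coefM_isSMap : IsSMap 1 modT modM coefM := by
  refine ⟨fun x => ?_, fun i hi => ?_⟩
  · refine eq_of_tmul (coefM ∘ₗ modT.par) (modM.par ∘ₗ coefM) (fun Z v => ?_) x
    rw [LinearMap.comp_apply, LinearMap.comp_apply, coefM_tmul, map_smul]
    change coefM (TensorProduct.map modE.par modM.par (Z ⊗ₜ v)) = _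
    rw [TensorProduct.map_tmul, coefM_tmul]
    rfl
  · obtain rfl : i = 0 := by omega
    constructor
    · rw [rootUp_22]
      refine coefM_odd _ (by simp [IsOdd]) (fun Z => ?_)
      change (actE (fromBlocks 0 e00 0 0) Z).1 1 1 = 0
      rw [actE_apply]
      simp only [toBlocks_fromBlocks₁₁, toBlocks_fromBlocks₁₂, toBlocks_fromBlocks₂₁,
        toBlocks_fromBlocks₂₂, fE, mul2_11, Matrix.add_apply, Matrix.sub_apply,
        Matrix.zero_apply, e00_10, e00_11]
      ring
    · rw [rootDown_22]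
      refine coefM_odd _ (by simp [IsOdd]) (fun Z => ?_)
      change (actE (fromBlocks 0 0 e00 0) Z).1 1 1 = 0
      rw [actE_apply]
      simp only [toBlocks_fromBlocks₁₁, toBlocks_fromBlocks₁₂, toBlocks_fromBlocks₂₁,
        toBlocks_fromBlocks₂₂, fE, mul2_11, Matrix.add_apply, Matrix.sub_apply,
        Matrix.zero_apply, e00_01, e00_11]
      ring

end Pool.Agent.H39.RP
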