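import Pool.Agent.H39.RP.Mods

/-! The three explicit `GL(2|2)`-modules: verification of the relations. -/

set_option linter.unusedSimpArgs false
set_option linter.unusedVariables false

namespace Pool.Agent.H39.RP

open Matrix

theorem parQ_apply (Z : Q) : parQ Z = (Z.1, -Z.2.1, -Z.2.2.1, Z.2.2.2) := rfl

theorem even_form {A : gl 2 2} (h : IsEven A) : ∃ a d : M2, A = fromBlocks a 0 0 d :=
  ⟨A.toBlocks₁₁, A.toBlocks₂₂, (ev_of_even h).symm⟩

theorem odd_form {A : gl 2 2} (h : IsOdd A) : ∃ b c : M2, A = fromBlocks 0 b c 0 :=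
  ⟨A.toBlocks₁₂, A.toBlocks₂₁, (od_of_odd h).symm⟩

theorem comm_ee (a d a' d' : M2) :
    fromBlocks a 0 0 d * fromBlocks a' 0 0 d' - fromBlocks a' 0 0 d' * fromBlocks a 0 0 d
      = fromBlocks (a * a' - a' * a) 0 0 (d * d' - d' * d) := by
  rw [fromBlocks_multiply, fromBlocks_multiply, sub_eq_add_neg, fromBlocks_neg, fromBlocks_add]
  simp [sub_eq_add_neg]

theorem comm_eo (a d b c : M2) :
    fromBlocks a 0 0 d * fromBlocks 0 b c 0 - fromBlocks 0 b c 0 * fromBlocks a 0 0 d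
      = fromBlocks 0 (a * b - b * d) (d * c - c * a) 0 := by
  rw [fromBlocks_multiply, fromBlocks_multiply, sub_eq_add_neg, fromBlocks_neg, fromBlocks_add]
  simp [sub_eq_add_neg]

theorem anti_oo (b c b' c' : M2) :
    fromBlocks 0 b c 0 * fromBlocks 0 b' c' 0 + fromBlocks 0 b' c' 0 * fromBlocks 0 b c 0
      = fromBlocks (b * c' + b' * c) 0 0 (c * b' + c' * b) := by
  rw [fromBlocks_multiply, fromBlocks_multiply, fromBlocks_add]
  simp

theorem fE_ee (a d a' d' : M2) (Z : Q) :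
    fE (a * a' - a' * a) 0 0 (d * d' - d' * d) Z
      = fE a 0 0 d (fE a' 0 0 d' Z) - fE a' 0 0 d' (fE a 0 0 d Z) := by
  apply Q_ext <;> simp only [fE, r0, pol, trc, mul2_00, mul2_01, mul2_10, mul2_11, tl_00, tl_01, tl_10, tl_11, ad_00, ad_01, ad_10,
    ad_11, one_00, one_01, one_10, one_11, Matrix.add_apply, Matrix.sub_apply, Matrix.neg_apply,
    Matrix.zero_apply, Matrix.smul_apply, Prod.fst_add, Prod.snd_add, Prod.fst_sub, Prod.snd_sub,
    Prod.fst_neg, Prod.snd_neg, Prod.smul_fst, Prod.smul_snd, smul_eq_mul] <;> ring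

theorem fE_eo (a d b c : M2) (Z : Q) :
    fE 0 (a * b - b * d) (d * c - c * a) 0 Z
      = fE a 0 0 d (fE 0 b c 0 Z) - fE 0 b c 0 (fE a 0 0 d Z) := by
  apply Q_ext <;> simp only [fE, r0, pol, trc, mul2_00, mul2_01, mul2_10, mul2_11, tl_00, tl_01, tl_10, tl_11, ad_00, ad_01, ad_10,
    ad_11, one_00, one_01, one_10, one_11, Matrix.add_apply, Matrix.sub_apply, Matrix.neg_apply,
    Matrix.zero_apply, Matrix.smul_apply, Prod.fst_add, Prod.snd_add, Prod.fst_sub, Prod.snd_sub,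
    Prod.fst_neg, Prod.snd_neg, Prod.smul_fst, Prod.smul_snd, smul_eq_mul] <;> ring

theorem fE_oo (b c b' c' : M2) (Z : Q) :
    fE (b * c' + b' * c) 0 0 (c * b' + c' * b) Z
      = fE 0 b c 0 (fE 0 b' c' 0 Z) + fE 0 b' c' 0 (fE 0 b c 0 Z) := by
  apply Q_ext <;> simp only [fE, r0, pol, trc, mul2_00, mul2_01, mul2_10, mul2_11, tl_00, tl_01, tl_10, tl_11, ad_00, ad_01, ad_10,
    ad_11, one_00, one_01, one_10, one_11, Matrix.add_apply, Matrix.sub_apply, Matrix.neg_apply,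
    Matrix.zero_apply, Matrix.smul_apply, Prod.fst_add, Prod.snd_add, Prod.fst_sub, Prod.snd_sub,
    Prod.fst_neg, Prod.snd_neg, Prod.smul_fst, Prod.smul_snd, smul_eq_mul] <;> ring

theorem fE_par_even (a d : M2) (Z : Q) :
    parQ (fE a 0 0 d Z) = fE a 0 0 d (parQ Z) := by
  apply Q_ext <;> simp only [parQ_apply, fE, r0, pol, trc, mul2_00, mul2_01, mul2_10, mul2_11, tl_00, tl_01, tl_10, tl_11, ad_00, ad_01, ad_10,
    ad_11, one_00, one_01, one_10, one_11, Matrix.add_apply, Matrix.sub_apply, Matrix.neg_apply,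
    Matrix.zero_apply, Matrix.smul_apply, Prod.fst_add, Prod.snd_add, Prod.fst_sub, Prod.snd_sub,
    Prod.fst_neg, Prod.snd_neg, Prod.smul_fst, Prod.smul_snd, smul_eq_mul] <;> ring

theorem fE_par_odd (b c : M2) (Z : Q) :
    parQ (fE 0 b c 0 Z) = -fE 0 b c 0 (parQ Z) := by
  apply Q_ext <;> simp only [parQ_apply, fE, r0, pol, trc, mul2_00, mul2_01, mul2_10, mul2_11, tl_00, tl_01, tl_10, tl_11, ad_00, ad_01, ad_10,
    ad_11, one_00, one_01, one_10, one_11, Matrix.add_apply, Matrix.sub_apply, Matrix.neg_apply,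
    Matrix.zero_apply, Matrix.smul_apply, Prod.fst_add, Prod.snd_add, Prod.fst_sub, Prod.snd_sub,
    Prod.fst_neg, Prod.snd_neg, Prod.smul_fst, Prod.smul_snd, smul_eq_mul] <;> ring

theorem fK_ee (a d a' d' : M2) (Z : Q) :
    fK (a * a' - a' * a) 0 0 (d * d' - d' * d) Z
      = fK a 0 0 d (fK a' 0 0 d' Z) - fK a' 0 0 d' (fK a 0 0 d Z) := by
  apply Q_ext <;> simp only [fK, r0, pol, trc, mul2_00, mul2_01, mul2_10, mul2_11, tl_00, tl_01, tl_10, tl_11, ad_00, ad_01, ad_10,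
    ad_11, one_00, one_01, one_10, one_11, Matrix.add_apply, Matrix.sub_apply, Matrix.neg_apply,
    Matrix.zero_apply, Matrix.smul_apply, Prod.fst_add, Prod.snd_add, Prod.fst_sub, Prod.snd_sub,
    Prod.fst_neg, Prod.snd_neg, Prod.smul_fst, Prod.smul_snd, smul_eq_mul] <;> ring

theorem fK_eo (a d b c : M2) (Z : Q) :
    fK 0 (a * b - b * d) (d * c - c * a) 0 Z
      = fK a 0 0 d (fK 0 b c 0 Z) - fK 0 b c 0 (fK a 0 0 d Z) := by
  apply Q_ext <;> simp only [fK, r0, pol, trc, mul2_00, mul2_01, mul2_10, mul2_11, tl_00, tl_01, tl_10, tl_11, ad_00, ad_01, ad_10,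
    ad_11, one_00, one_01, one_10, one_11, Matrix.add_apply, Matrix.sub_apply, Matrix.neg_apply,
    Matrix.zero_apply, Matrix.smul_apply, Prod.fst_add, Prod.snd_add, Prod.fst_sub, Prod.snd_sub,
    Prod.fst_neg, Prod.snd_neg, Prod.smul_fst, Prod.smul_snd, smul_eq_mul] <;> ring

theorem fK_oo (b c b' c' : M2) (Z : Q) :
    fK (b * c' + b' * c) 0 0 (c * b' + c' * b) Z
      = fK 0 b c 0 (fK 0 b' c' 0 Z) + fK 0 b' c' 0 (fK 0 b c 0 Z) := by
  apply Q_ext <;> simp only [fK, r0, pol, trc, mul2_00, mul2_01, mul2_10, mul2_11, tl_00, tl_01, tl_10, tl_11, ad_00, ad_01, ad_10,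
    ad_11, one_00, one_01, one_10, one_11, Matrix.add_apply, Matrix.sub_apply, Matrix.neg_apply,
    Matrix.zero_apply, Matrix.smul_apply, Prod.fst_add, Prod.snd_add, Prod.fst_sub, Prod.snd_sub,
    Prod.fst_neg, Prod.snd_neg, Prod.smul_fst, Prod.smul_snd, smul_eq_mul] <;> ring

theorem fK_par_even (a d : M2) (Z : Q) :
    parQ (fK a 0 0 d Z) = fK a 0 0 d (parQ Z) := by
  apply Q_ext <;> simp only [parQ_apply, fK, r0, pol, trc, mul2_00, mul2_01, mul2_10, mul2_11, tl_00, tl_01, tl_10, tl_11, ad_00, ad_01, ad_10,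
    ad_11, one_00, one_01, one_10, one_11, Matrix.add_apply, Matrix.sub_apply, Matrix.neg_apply,
    Matrix.zero_apply, Matrix.smul_apply, Prod.fst_add, Prod.snd_add, Prod.fst_sub, Prod.snd_sub,
    Prod.fst_neg, Prod.snd_neg, Prod.smul_fst, Prod.smul_snd, smul_eq_mul] <;> ring

theorem fK_par_odd (b c : M2) (Z : Q) :
    parQ (fK 0 b c 0 Z) = -fK 0 b c 0 (parQ Z) := by
  apply Q_ext <;> simp only [parQ_apply, fK, r0, pol, trc, mul2_00, mul2_01, mul2_10, mul2_11, tl_00, tl_01, tl_10, tl_11, ad_00, ad_01, ad_10,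
    ad_11, one_00, one_01, one_10, one_11, Matrix.add_apply, Matrix.sub_apply, Matrix.neg_apply,
    Matrix.zero_apply, Matrix.smul_apply, Prod.fst_add, Prod.snd_add, Prod.fst_sub, Prod.snd_sub,
    Prod.fst_neg, Prod.snd_neg, Prod.smul_fst, Prod.smul_snd, smul_eq_mul] <;> ring

theorem fN_ee (a d a' d' : M2) (Z : Q) :
    fN (a * a' - a' * a) 0 0 (d * d' - d' * d) Z
      = fN a 0 0 d (fN a' 0 0 d' Z) - fN a' 0 0 d' (fN a 0 0 d Z) := by
  apply Q_ext <;> simp only [fN, r0, pol, trc, mul2_00, mul2_01, mul2_10, mul2_11, tl_00, tl_01, tl_10, tl_11, ad_00, ad_01, ad_10,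
    ad_11, one_00, one_01, one_10, one_11, Matrix.add_apply, Matrix.sub_apply, Matrix.neg_apply,
    Matrix.zero_apply, Matrix.smul_apply, Prod.fst_add, Prod.snd_add, Prod.fst_sub, Prod.snd_sub,
    Prod.fst_neg, Prod.snd_neg, Prod.smul_fst, Prod.smul_snd, smul_eq_mul] <;> ring

theorem fN_eo (a d b c : M2) (Z : Q) :
    fN 0 (a * b - b * d) (d * c - c * a) 0 Z
      = fN a 0 0 d (fN 0 b c 0 Z) - fN 0 b c 0 (fN a 0 0 d Z) := by
  apply Q_ext <;> simp only [fN, r0, pol, trc, mul2_00, mul2_01, mul2_10, mul2_11, tl_00, tl_01, tl_10, tl_11, ad_00, ad_01, ad_10,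
    ad_11, one_00, one_01, one_10, one_11, Matrix.add_apply, Matrix.sub_apply, Matrix.neg_apply,
    Matrix.zero_apply, Matrix.smul_apply, Prod.fst_add, Prod.snd_add, Prod.fst_sub, Prod.snd_sub,
    Prod.fst_neg, Prod.snd_neg, Prod.smul_fst, Prod.smul_snd, smul_eq_mul] <;> ring

theorem fN_oo (b c b' c' : M2) (Z : Q) :
    fN (b * c' + b' * c) 0 0 (c * b' + c' * b) Z
      = fN 0 b c 0 (fN 0 b' c' 0 Z) + fN 0 b' c' 0 (fN 0 b c 0 Z) := by
  apply Q_ext <;> simp only [fN, r0, pol, trc, mul2_00, mul2_01, mul2_10, mul2_11, tl_00, tl_01, tl_10, tl_11, ad_00, ad_01, ad_10,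
    ad_11, one_00, one_01, one_10, one_11, Matrix.add_apply, Matrix.sub_apply, Matrix.neg_apply,
    Matrix.zero_apply, Matrix.smul_apply, Prod.fst_add, Prod.snd_add, Prod.fst_sub, Prod.snd_sub,
    Prod.fst_neg, Prod.snd_neg, Prod.smul_fst, Prod.smul_snd, smul_eq_mul] <;> ring

theorem fN_par_even (a d : M2) (Z : Q) :
    parQ (fN a 0 0 d Z) = fN a 0 0 d (parQ Z) := by
  apply Q_ext <;> simp only [parQ_apply, fN, r0, pol, trc, mul2_00, mul2_01, mul2_10, mul2_11, tl_00, tl_01, tl_10, tl_11, ad_00, ad_01, ad_10,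
    ad_11, one_00, one_01, one_10, one_11, Matrix.add_apply, Matrix.sub_apply, Matrix.neg_apply,
    Matrix.zero_apply, Matrix.smul_apply, Prod.fst_add, Prod.snd_add, Prod.fst_sub, Prod.snd_sub,
    Prod.fst_neg, Prod.snd_neg, Prod.smul_fst, Prod.smul_snd, smul_eq_mul] <;> ring

theorem fN_par_odd (b c : M2) (Z : Q) :
    parQ (fN 0 b c 0 Z) = -fN 0 b c 0 (parQ Z) := by
  apply Q_ext <;> simp only [parQ_apply, fN, r0, pol, trc, mul2_00, mul2_01, mul2_10, mul2_11, tl_00, tl_01, tl_10, tl_11, ad_00, ad_01, ad_10,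
    ad_11, one_00, one_01, one_10, one_11, Matrix.add_apply, Matrix.sub_apply, Matrix.neg_apply,
    Matrix.zero_apply, Matrix.smul_apply, Prod.fst_add, Prod.snd_add, Prod.fst_sub, Prod.snd_sub,
    Prod.fst_neg, Prod.snd_neg, Prod.smul_fst, Prod.smul_snd, smul_eq_mul] <;> ring

end Pool.Agent.H39.RP
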