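import Pool.Agent.H39.RP.Inst

/-! The support of `K ⊗ N`. -/

set_option linter.unusedSimpArgs false
set_option linter.unusedVariables false

namespace Pool.Agent.H39.RP

open Matrix TensorProduct

section general
variable {m n : ℕ} {K N : Type} [AddCommGroup K] [Module ℂ K] [AddCommGroup N] [Module ℂ N]

theorem act_sq (ρ : SMod m n K) {z : gl m n} (hz : IsOdd z) (v : K) :
    ρ.act (z * z + z * z) v = ρ.act z (ρ.act z v) + ρ.act z (ρ.act z v) :=
  ρ.brac_odd z z hz hz v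

/-- a contracting homotopy kills `DS_z` -/
theorem dsVanish_of_homotopy (ρ : SMod m n K) {z : gl m n} (hz : IsOdd z) (s : K →ₗ[ℂ] K)
    (h : ∀ v, ρ.act z (s v) + s (ρ.act z v) = v) : DSVanish ρ z := by
  intro v _ hv
  have h1 : ρ.act z (s v) = v := by
    have := h v
    rwa [hv, map_zero, add_zero] at this
  exact ⟨s v, by rw [act_sq ρ hz, h1, hv, add_zero], h1⟩

theorem homotopy_left [FiniteDimensional ℂ K] [FiniteDimensional ℂ N]
    (ρ : SMod m n K) (σ : SMod m n N) {z : gl m n} (hz : IsOdd z)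
    (s : K →ₗ[ℂ] K) (h : ∀ v, ρ.act z (s v) + s (ρ.act z v) = v)
    (hp : ∀ v, ρ.par (s v) = -s (ρ.par v)) : DSVanish (tensor ρ σ) z := by
  refine dsVanish_of_homotopy _ hz (TensorProduct.map s LinearMap.id) fun x => ?_
  refine eq_of_tmul ((tact ρ σ z) ∘ₗ (TensorProduct.map s LinearMap.id)
    + (TensorProduct.map s LinearMap.id) ∘ₗ (tact ρ σ z)) LinearMap.id (fun k v => ?_) x
  simp only [LinearMap.add_apply, LinearMap.comp_apply, TensorProduct.map_tmul,
    LinearMap.id_apply, tact_odd ρ σ hz, map_add, hp, TensorProduct.neg_tmul]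
  rw [show (ρ.act z (s k)) ⊗ₜ[ℂ] v + -(s (ρ.par k) ⊗ₜ[ℂ] (σ.act z v))
      + (s (ρ.act z k) ⊗ₜ[ℂ] v + s (ρ.par k) ⊗ₜ[ℂ] (σ.act z v))
      = (ρ.act z (s k) + s (ρ.act z k)) ⊗ₜ[ℂ] v by rw [TensorProduct.add_tmul]; abel, h]

theorem homotopy_right [FiniteDimensional ℂ K] [FiniteDimensional ℂ N]
    (ρ : SMod m n K) (σ : SMod m n N) {z : gl m n} (hz : IsOdd z)
    (s : N →ₗ[ℂ] N) (h : ∀ v, σ.act z (s v) + s (σ.act z v) = v) :
    DSVanish (tensor ρ σ) z := by
  refine dsVanish_of_homotopy _ hz (TensorProduct.map ρ.par s) fun x => ?_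
  refine eq_of_tmul ((tact ρ σ z) ∘ₗ (TensorProduct.map ρ.par s)
    + (TensorProduct.map ρ.par s) ∘ₗ (tact ρ σ z)) LinearMap.id (fun k v => ?_) x
  have e : ρ.act z (ρ.par k) = -ρ.par (ρ.act z k) := by rw [ρ.par_odd z hz, neg_neg]
  simp only [LinearMap.add_apply, LinearMap.comp_apply, TensorProduct.map_tmul,
    LinearMap.id_apply, tact_odd ρ σ hz, map_add, ρ.par_par, e, TensorProduct.neg_tmul]
  rw [show -(ρ.par (ρ.act z k) ⊗ₜ[ℂ] (s v)) + k ⊗ₜ[ℂ] (σ.act z (s v))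
      + (ρ.par (ρ.act z k) ⊗ₜ[ℂ] (s v) + k ⊗ₜ[ℂ] (s (σ.act z v)))
      = k ⊗ₜ[ℂ] (σ.act z (s v) + s (σ.act z v)) by rw [TensorProduct.tmul_add]; abel, h]

end general

/-! ### homotopy on `K` -/

/-- contraction with `w` -/
noncomputable def fI (w : M2) (Z : Q) : Q :=
  (tl (w * Z.2.2.1) + (pol w Z.2.1) • (1 : M2), w * tl Z.2.2.2 + tl Z.1 * w,
   (trc Z.2.2.2 / 2) • ad w, -tl (Z.2.2.1 * w))

/-- the nilpotent correction -/
noncomputable def fV (x w : M2) (Z : Q) : Q :=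
  ((trc Z.2.2.2 / 2) • tl (x * ad w) + (pol w (x * tl Z.2.2.2 - tl Z.1 * x)) • (1 : M2),
   (trc (w * Z.2.2.1)) • x - (trc (x * Z.2.2.1)) • w, 0, (trc Z.2.2.2 / 2) • tl (ad w * x))

/-- contraction as a linear map -/
noncomputable def iL (w : M2) : Q →ₗ[ℂ] Q where
  toFun := fI w
  map_add' Z W := by
    apply Q_ext <;> simp only [fI, pol, trc, mul2_00, mul2_01, mul2_10, mul2_11, tl_00, tl_01, tl_10, tl_11, ad_00, ad_01, ad_10,
    ad_11, one_00, one_01, one_10, one_11, Matrix.add_apply, Matrix.sub_apply, Matrix.neg_apply,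
    Matrix.zero_apply, Matrix.smul_apply, Prod.fst_add, Prod.snd_add, Prod.fst_sub, Prod.snd_sub,
    Prod.fst_neg, Prod.snd_neg, Prod.smul_fst, Prod.smul_snd, smul_eq_mul] <;> ring
  map_smul' t Z := by
    apply Q_ext <;> simp only [fI, pol, trc, RingHom.id_apply, mul2_00, mul2_01, mul2_10, mul2_11, tl_00, tl_01, tl_10, tl_11, ad_00, ad_01, ad_10,
    ad_11, one_00, one_01, one_10, one_11, Matrix.add_apply, Matrix.sub_apply, Matrix.neg_apply,
    Matrix.zero_apply, Matrix.smul_apply, Prod.fst_add, Prod.snd_add, Prod.fst_sub, Prod.snd_sub,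
    Prod.fst_neg, Prod.snd_neg, Prod.smul_fst, Prod.smul_snd, smul_eq_mul] <;> ring

/-- the correction as a linear map -/
noncomputable def vL (x w : M2) : Q →ₗ[ℂ] Q where
  toFun := fV x w
  map_add' Z W := by
    apply Q_ext <;> simp only [fV, pol, trc, mul2_00, mul2_01, mul2_10, mul2_11, tl_00, tl_01, tl_10, tl_11, ad_00, ad_01, ad_10,
    ad_11, one_00, one_01, one_10, one_11, Matrix.add_apply, Matrix.sub_apply, Matrix.neg_apply,
    Matrix.zero_apply, Matrix.smul_apply, Prod.fst_add, Prod.snd_add, Prod.fst_sub, Prod.snd_sub,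
    Prod.fst_neg, Prod.snd_neg, Prod.smul_fst, Prod.smul_snd, smul_eq_mul] <;> ring
  map_smul' t Z := by
    apply Q_ext <;> simp only [fV, pol, trc, RingHom.id_apply, mul2_00, mul2_01, mul2_10, mul2_11, tl_00, tl_01, tl_10, tl_11, ad_00, ad_01, ad_10,
    ad_11, one_00, one_01, one_10, one_11, Matrix.add_apply, Matrix.sub_apply, Matrix.neg_apply,
    Matrix.zero_apply, Matrix.smul_apply, Prod.fst_add, Prod.snd_add, Prod.fst_sub, Prod.snd_sub,
    Prod.fst_neg, Prod.snd_neg, Prod.smul_fst, Prod.smul_snd, smul_eq_mul] <;> ring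

theorem iL_apply (w : M2) (Z : Q) : iL w Z = fI w Z := rfl
theorem vL_apply (x w : M2) (Z : Q) : vL x w Z = fV x w Z := rfl

theorem fI_anti (x y w : M2) (Z : Q) :
    fK 0 x y 0 (fI w Z) + fI w (fK 0 x y 0 Z) = (trc (w * y)) • Z + fV x w Z := by
  apply Q_ext <;> simp only [fK, fI, fV, pol, trc, mul2_00, mul2_01, mul2_10, mul2_11, tl_00, tl_01, tl_10, tl_11, ad_00, ad_01, ad_10,
    ad_11, one_00, one_01, one_10, one_11, Matrix.add_apply, Matrix.sub_apply, Matrix.neg_apply,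
    Matrix.zero_apply, Matrix.smul_apply, Prod.fst_add, Prod.snd_add, Prod.fst_sub, Prod.snd_sub,
    Prod.fst_neg, Prod.snd_neg, Prod.smul_fst, Prod.smul_snd, smul_eq_mul] <;> ring

theorem fI_comm (a d w : M2) (Z : Q) :
    fK a 0 0 d (fI w Z) - fI w (fK a 0 0 d Z) = fI (a * w - w * d) Z := by
  apply Q_ext <;> simp only [fK, fI, pol, trc, mul2_00, mul2_01, mul2_10, mul2_11, tl_00, tl_01, tl_10, tl_11, ad_00, ad_01, ad_10,
    ad_11, one_00, one_01, one_10, one_11, Matrix.add_apply, Matrix.sub_apply, Matrix.neg_apply,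
    Matrix.zero_apply, Matrix.smul_apply, Prod.fst_add, Prod.snd_add, Prod.fst_sub, Prod.snd_sub,
    Prod.fst_neg, Prod.snd_neg, Prod.smul_fst, Prod.smul_snd, smul_eq_mul] <;> ring

theorem fI_par (w : M2) (Z : Q) : parQ (fI w Z) = -fI w (parQ Z) := by
  apply Q_ext <;> simp only [parQ_apply, fI, pol, trc, mul2_00, mul2_01, mul2_10, mul2_11, tl_00, tl_01, tl_10, tl_11, ad_00, ad_01, ad_10,
    ad_11, one_00, one_01, one_10, one_11, Matrix.add_apply, Matrix.sub_apply, Matrix.neg_apply,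
    Matrix.zero_apply, Matrix.smul_apply, Prod.fst_add, Prod.snd_add, Prod.fst_sub, Prod.snd_sub,
    Prod.fst_neg, Prod.snd_neg, Prod.smul_fst, Prod.smul_snd, smul_eq_mul] <;> ring

theorem fV_nil (x w : M2) (Z : Q) : fV x w (fV x w (fV x w Z)) = 0 := by
  apply Q_ext <;> simp only [fV, pol, trc, Prod.fst_zero, Prod.snd_zero, mul2_00, mul2_01, mul2_10, mul2_11, tl_00, tl_01, tl_10, tl_11, ad_00, ad_01, ad_10,
    ad_11, one_00, one_01, one_10, one_11, Matrix.add_apply, Matrix.sub_apply, Matrix.neg_apply,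
    Matrix.zero_apply, Matrix.smul_apply, Prod.fst_add, Prod.snd_add, Prod.fst_sub, Prod.snd_sub,
    Prod.fst_neg, Prod.snd_neg, Prod.smul_fst, Prod.smul_snd, smul_eq_mul] <;> ring

theorem fK_sq (x y : M2) (Z : Q) : fK 0 x y 0 (fK 0 x y 0 Z) = fK (x * y) 0 0 (y * x) Z := by
  apply Q_ext <;> simp only [fK, pol, trc, mul2_00, mul2_01, mul2_10, mul2_11, tl_00, tl_01, tl_10, tl_11, ad_00, ad_01, ad_10,
    ad_11, one_00, one_01, one_10, one_11, Matrix.add_apply, Matrix.sub_apply, Matrix.neg_apply,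
    Matrix.zero_apply, Matrix.smul_apply, Prod.fst_add, Prod.snd_add, Prod.fst_sub, Prod.snd_sub,
    Prod.fst_neg, Prod.snd_neg, Prod.smul_fst, Prod.smul_snd, smul_eq_mul] <;> ring

/-! ### homotopy on `N` -/

/-- contracting homotopy on `N` -/
noncomputable def fS (x : M2) (δ : ℂ) (Z : Q) : Q :=
  (0, ((trc Z.2.2.2 - trc Z.1) * δ / 2) • x, (δ • ad x) * Z.1,
   (δ • ad x) * Z.2.1 - (trc ((δ • ad x) * Z.2.1) / 2) • (1 : M2))

/-- contracting homotopy on `N` as a linear map -/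
noncomputable def sL (x : M2) (δ : ℂ) : Q →ₗ[ℂ] Q where
  toFun := fS x δ
  map_add' Z W := by
    apply Q_ext <;> simp only [fS, pol, trc, mul2_00, mul2_01, mul2_10, mul2_11, tl_00, tl_01, tl_10, tl_11, ad_00, ad_01, ad_10,
    ad_11, one_00, one_01, one_10, one_11, Matrix.add_apply, Matrix.sub_apply, Matrix.neg_apply,
    Matrix.zero_apply, Matrix.smul_apply, Prod.fst_add, Prod.snd_add, Prod.fst_sub, Prod.snd_sub,
    Prod.fst_neg, Prod.snd_neg, Prod.smul_fst, Prod.smul_snd, smul_eq_mul] <;> ring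
  map_smul' t Z := by
    apply Q_ext <;> simp only [fS, pol, trc, RingHom.id_apply, mul2_00, mul2_01, mul2_10, mul2_11, tl_00, tl_01, tl_10, tl_11, ad_00, ad_01, ad_10,
    ad_11, one_00, one_01, one_10, one_11, Matrix.add_apply, Matrix.sub_apply, Matrix.neg_apply,
    Matrix.zero_apply, Matrix.smul_apply, Prod.fst_add, Prod.snd_add, Prod.fst_sub, Prod.snd_sub,
    Prod.fst_neg, Prod.snd_neg, Prod.smul_fst, Prod.smul_snd, smul_eq_mul] <;> ring

theorem sL_apply (x : M2) (δ : ℂ) (Z : Q) : sL x δ Z = fS x δ Z := rfl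

theorem fS_anti (x : M2) (δ : ℂ) (Z : Q) :
    fN 0 x 0 0 (fS x δ Z) + fS x δ (fN 0 x 0 0 Z)
      = (δ * (x 0 0 * x 1 1 - x 0 1 * x 1 0)) • Z := by
  apply Q_ext <;> simp only [fN, fS, r0, pol, trc, mul2_00, mul2_01, mul2_10, mul2_11, tl_00, tl_01, tl_10, tl_11, ad_00, ad_01, ad_10,
    ad_11, one_00, one_01, one_10, one_11, Matrix.add_apply, Matrix.sub_apply, Matrix.neg_apply,
    Matrix.zero_apply, Matrix.smul_apply, Prod.fst_add, Prod.snd_add, Prod.fst_sub, Prod.snd_sub,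
    Prod.fst_neg, Prod.snd_neg, Prod.smul_fst, Prod.smul_snd, smul_eq_mul] <;> ring

end Pool.Agent.H39.RP
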