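import Pool.Agent.H39.RP.Defs

/-! Tensor products of rational `GL(m|n)`-modules. -/

namespace Pool.Agent.H39.RP

open Matrix TensorProduct

section
variable {m n : ℕ}

/-- even component of a matrix -/
def ev (A : gl m n) : gl m n := fromBlocks A.toBlocks₁₁ 0 0 A.toBlocks₂₂

/-- odd component of a matrix -/
def od (A : gl m n) : gl m n := fromBlocks 0 A.toBlocks₁₂ A.toBlocks₂₁ 0

theorem ev_add_od (A : gl m n) : ev A + od A = A := by
  conv_rhs => rw [← fromBlocks_toBlocks A]
  simp [ev, od, fromBlocks_add]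

theorem ev_of_even {A : gl m n} (h : IsEven A) : ev A = A := by
  conv_rhs => rw [← fromBlocks_toBlocks A]
  simp [ev, h.1, h.2]

theorem od_of_even {A : gl m n} (h : IsEven A) : od A = 0 := by
  simp [od, h.1, h.2, fromBlocks_zero]

theorem ev_of_odd {A : gl m n} (h : IsOdd A) : ev A = 0 := by
  simp [ev, h.1, h.2, fromBlocks_zero]

theorem od_of_odd {A : gl m n} (h : IsOdd A) : od A = A := by
  conv_rhs => rw [← fromBlocks_toBlocks A]
  simp [od, h.1, h.2]

theorem isEven_ev (A : gl m n) : IsEven (ev A) := by simp [IsEven, ev]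

theorem isOdd_od (A : gl m n) : IsOdd (od A) := by simp [IsOdd, od]

/-- `ev` as a linear map -/
def evL (m n : ℕ) : gl m n →ₗ[ℂ] gl m n where
  toFun := ev
  map_add' A B := by
    ext i j; rcases i with i | i <;> rcases j with j | j <;>
      simp [ev, toBlocks₁₁, toBlocks₂₂]
  map_smul' c A := by
    ext i j; rcases i with i | i <;> rcases j with j | j <;>
      simp [ev, toBlocks₁₁, toBlocks₂₂]

/-- `od` as a linear map -/
def odL (m n : ℕ) : gl m n →ₗ[ℂ] gl m n where
  toFun := od
  map_add' A B := by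
    ext i j; rcases i with i | i <;> rcases j with j | j <;>
      simp [od, toBlocks₁₂, toBlocks₂₁]
  map_smul' c A := by
    ext i j; rcases i with i | i <;> rcases j with j | j <;>
      simp [od, toBlocks₁₂, toBlocks₂₁]

@[simp] theorem evL_apply (A : gl m n) : evL m n A = ev A := rfl
@[simp] theorem odL_apply (A : gl m n) : odL m n A = od A := rfl

theorem IsEven.mul {A B : gl m n} (hA : IsEven A) (hB : IsEven B) : IsEven (A * B) := by
  rw [← ev_of_even hA, ← ev_of_even hB]; simp [ev, IsEven, fromBlocks_multiply]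

theorem IsEven.mul_odd {A B : gl m n} (hA : IsEven A) (hB : IsOdd B) : IsOdd (A * B) := by
  rw [← ev_of_even hA, ← od_of_odd hB]; simp [ev, od, IsOdd, fromBlocks_multiply]

theorem IsOdd.mul_even {A B : gl m n} (hA : IsOdd A) (hB : IsEven B) : IsOdd (A * B) := by
  rw [← od_of_odd hA, ← ev_of_even hB]; simp [ev, od, IsOdd, fromBlocks_multiply]

theorem IsOdd.mul {A B : gl m n} (hA : IsOdd A) (hB : IsOdd B) : IsEven (A * B) := by
  rw [← od_of_odd hA, ← od_of_odd hB]; simp [od, IsEven, fromBlocks_multiply]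

theorem IsEven.add {A B : gl m n} (hA : IsEven A) (hB : IsEven B) : IsEven (A + B) := by
  rw [← ev_of_even hA, ← ev_of_even hB]; simp [ev, IsEven, fromBlocks_add]

theorem IsEven.neg {A : gl m n} (hA : IsEven A) : IsEven (-A) := by
  rw [← ev_of_even hA]; simp [ev, IsEven, fromBlocks_neg]

theorem IsOdd.neg {A : gl m n} (hA : IsOdd A) : IsOdd (-A) := by
  rw [← od_of_odd hA]; simp [od, IsOdd, fromBlocks_neg]

theorem IsOdd.add {A B : gl m n} (hA : IsOdd A) (hB : IsOdd B) : IsOdd (A + B) := by
  rw [← od_of_odd hA, ← od_of_odd hB]; simp [od, IsOdd, fromBlocks_add]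

theorem IsEven.sub {A B : gl m n} (hA : IsEven A) (hB : IsEven B) : IsEven (A - B) := by
  rw [sub_eq_add_neg]; exact hA.add hB.neg

theorem IsOdd.sub {A B : gl m n} (hA : IsOdd A) (hB : IsOdd B) : IsOdd (A - B) := by
  rw [sub_eq_add_neg]; exact hA.add hB.neg

theorem isEven_single (i : Ix m n) : IsEven (Matrix.single i i (1 : ℂ)) := by
  constructor <;> ext a b <;> rcases i with i | i <;> simp [toBlocks₁₂, toBlocks₂₁]

variable {K N : Type} [AddCommGroup K] [Module ℂ K] [AddCommGroup N] [Module ℂ N]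

/-- the action on the tensor product (sign rule) -/
noncomputable def tact (ρ : SMod m n K) (σ : SMod m n N) :
    gl m n →ₗ[ℂ] (K ⊗[ℂ] N →ₗ[ℂ] K ⊗[ℂ] N) where
  toFun A := TensorProduct.map (ρ.act A) LinearMap.id
    + TensorProduct.map LinearMap.id (σ.act (evL m n A))
    + TensorProduct.map ρ.par (σ.act (odL m n A))
  map_add' A B := by
    refine TensorProduct.ext' fun k v => ?_
    simp only [LinearMap.add_apply, TensorProduct.map_tmul, map_add, TensorProduct.add_tmul,
      TensorProduct.tmul_add, LinearMap.id_apply]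
    abel
  map_smul' c A := by
    refine TensorProduct.ext' fun k v => ?_
    simp only [LinearMap.add_apply, TensorProduct.map_tmul, map_smul, LinearMap.smul_apply,
      LinearMap.id_apply, TensorProduct.tmul_smul, RingHom.id_apply, smul_add,
      ← TensorProduct.smul_tmul']

theorem tact_tmul (ρ : SMod m n K) (σ : SMod m n N) (A : gl m n) (k : K) (v : N) :
    tact ρ σ A (k ⊗ₜ v) = (ρ.act A k) ⊗ₜ v + k ⊗ₜ (σ.act (ev A) v)
      + (ρ.par k) ⊗ₜ (σ.act (od A) v) := rfl

theorem tact_even (ρ : SMod m n K) (σ : SMod m n N) {A : gl m n} (h : IsEven A) (k : K) (v : N) :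
    tact ρ σ A (k ⊗ₜ v) = (ρ.act A k) ⊗ₜ v + k ⊗ₜ (σ.act A v) := by
  rw [tact_tmul, ev_of_even h, od_of_even h]; simp

theorem tact_odd (ρ : SMod m n K) (σ : SMod m n N) {A : gl m n} (h : IsOdd A) (k : K) (v : N) :
    tact ρ σ A (k ⊗ₜ v) = (ρ.act A k) ⊗ₜ v + (ρ.par k) ⊗ₜ (σ.act A v) := by
  rw [tact_tmul, ev_of_odd h, od_of_odd h]; simp

/-- extensionality on pure tensors for two linear endomorphisms applied to a vector -/
theorem eq_of_tmul {P : Type} [AddCommGroup P] [Module ℂ P] (f g : K ⊗[ℂ] N →ₗ[ℂ] P)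
    (h : ∀ k v, f (k ⊗ₜ v) = g (k ⊗ₜ v)) (x : K ⊗[ℂ] N) : f x = g x := by
  have : f = g := TensorProduct.ext' h
  rw [this]

theorem mem_weights (ρ : SMod m n K) (k : K) :
    k ∈ Submodule.span ℂ {u | ∃ w : Ix m n → ℤ,
      ∀ i, ρ.act (Matrix.single i i 1) u = (w i : ℂ) • u} := by
  obtain ⟨F, -, hk, -, hF⟩ := ρ.rational k
  exact Submodule.span_mono (fun u hu => hu.2) (hF hk)

theorem tmul_mem_weights (ρ : SMod m n K) (σ : SMod m n N) (k : K) (v : N) :
    k ⊗ₜ v ∈ Submodule.span ℂ {u | ∃ w : Ix m n → ℤ,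
      ∀ i, tact ρ σ (Matrix.single i i 1) u = (w i : ℂ) • u} := by
  have hk := mem_weights ρ k
  have hv := mem_weights σ v
  induction hk using Submodule.span_induction with
  | zero => simp
  | add a b _ _ ha hb => rw [TensorProduct.add_tmul]; exact Submodule.add_mem _ ha hb
  | smul c a _ ha => rw [← TensorProduct.smul_tmul']; exact Submodule.smul_mem _ _ ha
  | mem a ha =>
    induction hv using Submodule.span_induction with
    | zero => simp
    | add b c _ _ hb hc => rw [TensorProduct.tmul_add]; exact Submodule.add_mem _ hb hc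
    | smul c b _ hb => rw [TensorProduct.tmul_smul]; exact Submodule.smul_mem _ _ hb
    | mem b hb =>
      obtain ⟨w, hw⟩ := ha
      obtain ⟨w', hw'⟩ := hb
      refine Submodule.subset_span ⟨w + w', fun i => ?_⟩
      rw [tact_even ρ σ (isEven_single i), hw, hw', ← TensorProduct.smul_tmul',
        TensorProduct.tmul_smul, ← add_smul]
      simp

/-- the tensor product of two finite-dimensional modules -/
noncomputable def tensor [FiniteDimensional ℂ K] [FiniteDimensional ℂ N]
    (ρ : SMod m n K) (σ : SMod m n N) : SMod m n (K ⊗[ℂ] N) where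
  par := TensorProduct.map ρ.par σ.par
  act := tact ρ σ
  par_par := fun x => by
    refine eq_of_tmul (TensorProduct.map ρ.par σ.par ∘ₗ TensorProduct.map ρ.par σ.par)
      LinearMap.id (fun k v => ?_) x
    simp [ρ.par_par, σ.par_par]
  par_even := fun A hA x => by
    refine eq_of_tmul (TensorProduct.map ρ.par σ.par ∘ₗ tact ρ σ A)
      (tact ρ σ A ∘ₗ TensorProduct.map ρ.par σ.par) (fun k v => ?_) x
    simp [tact_even ρ σ hA, ρ.par_even A hA, σ.par_even A hA]
  par_odd := fun A hA x => by
    refine eq_of_tmul (TensorProduct.map ρ.par σ.par ∘ₗ tact ρ σ A)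
      (-(tact ρ σ A ∘ₗ TensorProduct.map ρ.par σ.par)) (fun k v => ?_) x
    simp [tact_odd ρ σ hA, ρ.par_odd A hA, σ.par_odd A hA, TensorProduct.neg_tmul,
      TensorProduct.tmul_neg]
    abel
  brac_even := fun A B hA hB x => by
    refine eq_of_tmul (tact ρ σ (A * B - B * A))
      (tact ρ σ A ∘ₗ tact ρ σ B - tact ρ σ B ∘ₗ tact ρ σ A) (fun k v => ?_) x
    rcases hB with hB | hB
    · have h1 : IsEven (A * B - B * A) := (hA.mul hB).sub (hB.mul hA)
      have e1 := ρ.brac_even A B hA (Or.inl hB) k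
      have e2 := σ.brac_even A B hA (Or.inl hB) v
      simp only [tact_even ρ σ h1, tact_even ρ σ hA, tact_even ρ σ hB, LinearMap.sub_apply,
        LinearMap.comp_apply, map_add, e1, e2, TensorProduct.sub_tmul, TensorProduct.tmul_sub]
      abel
    · have h1 : IsOdd (A * B - B * A) := (hA.mul_odd hB).sub (hB.mul_even hA)
      have e1 := ρ.brac_even A B hA (Or.inr hB) k
      have e2 := σ.brac_even A B hA (Or.inr hB) v
      simp only [tact_odd ρ σ h1, tact_even ρ σ hA, tact_odd ρ σ hB, LinearMap.sub_apply,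
        LinearMap.comp_apply, map_add, e1, e2, TensorProduct.sub_tmul, TensorProduct.tmul_sub,
        ρ.par_even A hA]
      abel
  brac_odd := fun A B hA hB x => by
    refine eq_of_tmul (tact ρ σ (A * B + B * A))
      (tact ρ σ A ∘ₗ tact ρ σ B + tact ρ σ B ∘ₗ tact ρ σ A) (fun k v => ?_) x
    have h1 : IsEven (A * B + B * A) := (hA.mul hB).add (hB.mul hA)
    have e1 := ρ.brac_odd A B hA hB k
    have e2 := σ.brac_odd A B hA hB v
    rw [tact_even ρ σ h1, e1, e2]
    simp only [tact_odd ρ σ hA, tact_odd ρ σ hB, LinearMap.add_apply,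
      LinearMap.comp_apply, map_add, TensorProduct.add_tmul, TensorProduct.tmul_add,
      ρ.par_odd A hA, ρ.par_odd B hB, ρ.par_par, TensorProduct.neg_tmul]
    abel
  rational := fun x => by
    refine ⟨⊤, inferInstance, trivial, fun _ _ _ => trivial, ?_⟩
    intro y _
    simp only [Submodule.mem_top, true_and]
    induction y using TensorProduct.induction_on with
    | zero => exact Submodule.zero_mem _
    | add a b ha hb => exact Submodule.add_mem _ (ha trivial) (hb trivial)
    | tmul k v => exact tmul_mem_weights ρ σ k v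

end

end Pool.Agent.H39.RP
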